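import Pool.Agent.H82.LX.Ab2

/-!
# AB3: the abstract theorem of `Pool/Agent/H82/LX/Ab2.lean` with a count

`Ps t ^ 2 ≤ 8 (1 + m C0 |ι|)^(2N)` for every `t` (`Ab3_pt`): the number of configurations with at most `N` active coordinates, weighted with `C0` for each of them, is at most
`λ^(-N) (1 + m C0 λ)^|ι|`, `λ = 1/(1 + m C0 |ι|)`.
-/

open Finset

namespace H52GS

open H69PG H82LX

variable {ι : Type} [Fintype ι] [DecidableEq ι]

theorem Ab3_prod {m : ℕ} (C : ℝ) (hC : 0 ≤ C) (n : ι → Fin (m + 1)) :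
    C ^ (sp n).card = ∏ i, (if n i = 0 then (1 : ℝ) else C) := by
  rw [Finset.prod_ite, Finset.prod_const_one, one_mul, Finset.prod_const]
  rfl

theorem Ab3_sum (m N : ℕ) (C : ℝ) (hC : 0 ≤ C) :
    ∑ n ∈ (univ : Finset (ι → Fin (m + 1))).filter (fun n => (sp n).card ≤ N), C ^ (sp n).card ≤
      (1 + m * C * Fintype.card ι) ^ N * Real.exp 1 := by
  obtain ⟨D, hD⟩ : ∃ D : ℝ, D = 1 + m * C * Fintype.card ι := ⟨_, rfl⟩
  have hmC : 0 ≤ (m : ℝ) * C * Fintype.card ι := by positivity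
  have hD1 : 1 ≤ D := by linarith
  have hD0 : 0 < D := by linarith
  rw [← hD]
  have h1 : ∑ n ∈ (univ : Finset (ι → Fin (m + 1))).filter (fun n => (sp n).card ≤ N), C ^ (sp n).card ≤
      ∑ n : ι → Fin (m + 1), D ^ N * (C / D) ^ (sp n).card := by
    refine le_trans ?_ (Finset.sum_le_sum_of_subset_of_nonneg (Finset.filter_subset (fun n => (sp n).card ≤ N) _)
      fun n _ _ => by positivity)
    refine Finset.sum_le_sum fun n hn => ?_
    have hn' := (Finset.mem_filter.1 hn).2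
    rw [div_pow, mul_div_assoc', le_div_iff₀ (by positivity), mul_comm (D ^ N)]
    exact mul_le_mul_of_nonneg_left (pow_le_pow_right₀ hD1 hn') (by positivity)
  refine h1.trans ?_
  rw [← Finset.mul_sum]
  refine mul_le_mul_of_nonneg_left ?_ (by positivity)
  have h2 : ∑ n : ι → Fin (m + 1), (C / D) ^ (sp n).card = ∏ _i : ι, ∑ a : Fin (m + 1), (if a = 0 then (1 : ℝ) else C / D) := by
    rw [Finset.prod_univ_sum, Fintype.piFinset_univ]
    refine Finset.sum_congr rfl fun n _ => ?_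
    exact Ab3_prod (C / D) (by positivity) n
  have h3 : ∑ a : Fin (m + 1), (if a = 0 then (1 : ℝ) else C / D) = 1 + m * (C / D) := by
    rw [Fin.sum_univ_succ]
    simp [Fin.succ_ne_zero]
  rw [h2, h3, Finset.prod_const, Finset.card_univ]
  have h4 : 1 + m * (C / D) ≤ Real.exp (m * (C / D)) := by
    have := Real.add_one_le_exp (m * (C / D))
    linarith
  calc (1 + m * (C / D)) ^ Fintype.card ι ≤ Real.exp (m * (C / D)) ^ Fintype.card ι :=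
        pow_le_pow_left₀ (by positivity) h4 _
    _ = Real.exp (Fintype.card ι * (m * (C / D))) := by rw [← Real.exp_nat_mul]
    _ ≤ Real.exp 1 := by
        apply Real.exp_le_exp.2
        have h5 : (Fintype.card ι : ℝ) * (m * (C / D)) = (m * C * Fintype.card ι) / D := by ring
        rw [h5, div_le_one hD0]
        linarith

theorem Ab3_pt {m N : ℕ} {v : ℕ → ℝ} {l C0 : ℝ} (hC0 : 1 ≤ C0) {g : ι → ℕ → ℕ → ℝ} {t : ℕ}
    (hg0 : ∀ i, g i 0 t = 1) (hg : ∀ i, ∀ a ∈ Icc 1 m, |g i a t| ≤ C0) :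
    Ps m N v l g t ^ 2 ≤ 8 * (1 + m * C0 * Fintype.card ι) ^ (2 * N) := by
  have h1 : |Ps m N v l g t| ≤ (1 + m * C0 * Fintype.card ι) ^ N * Real.exp 1 := by
    refine le_trans ?_ (Ab3_sum m N C0 (by linarith))
    unfold Ps
    refine (Finset.abs_sum_le_sum_abs _ _).trans ?_
    have h2 : ∀ n ∈ Cf ι m N v l, |∏ i, g i (n i) t| ≤ C0 ^ (sp n).card := by
      intro n _
      rw [Finset.abs_prod, Ab3_prod C0 (by linarith)]
      refine Finset.prod_le_prod (fun i _ => abs_nonneg _) fun i _ => ?_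
      split_ifs with h
      · rw [h]
        simp only [Fin.val_zero]
        rw [hg0, abs_one]
      · refine hg i _ ?_
        rw [Finset.mem_Icc]
        have h3 : (n i : ℕ) ≠ 0 := fun h4 => h (Fin.ext h4)
        have h4 := (n i).2
        omega
    refine (Finset.sum_le_sum h2).trans ?_
    refine Finset.sum_le_sum_of_subset_of_nonneg ?_ fun n _ _ => by positivity
    intro n hn
    unfold Cf at hn
    rw [Finset.mem_filter] at hn ⊢
    exact ⟨hn.1, hn.2.1⟩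
  have h5 : Ps m N v l g t ^ 2 ≤ ((1 + m * C0 * Fintype.card ι) ^ N * Real.exp 1) ^ 2 := by
    rw [← sq_abs]
    exact pow_le_pow_left₀ (abs_nonneg _) h1 2
  refine h5.trans ?_
  have h6 : ((1 + m * C0 * Fintype.card ι) ^ N * Real.exp 1) ^ 2 =
      Real.exp 1 ^ 2 * (1 + m * C0 * Fintype.card ι) ^ (2 * N) := by
    rw [mul_pow, ← pow_mul]
    ring_nf
  rw [h6]
  have h7 : Real.exp 1 ^ 2 ≤ 8 := by
    have := Real.exp_one_lt_d9
    have h8 := Real.exp_pos 1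
    nlinarith
  have h9 : (0 : ℝ) ≤ (1 + m * C0 * Fintype.card ι) ^ (2 * N) := by
    have : 0 ≤ C0 := by linarith
    positivity
  exact mul_le_mul_of_nonneg_right h7 h9

open Classical in
theorem ab3 {m N : ℕ} (hN1 : 1 ≤ N) {v : ℕ → ℝ} {l vm τ : ℝ} {V : Finset ι → ℝ} {μ : ℝ} (h : Vh V μ (2 * N + 1)) {s q : ℕ → ℝ}
    (hs : ∀ a, 0 ≤ s a) (hs0 : s 0 = 1) (hv : ∀ a, 0 ≤ v a) (hv0 : v 0 = 0) (hvm : ∀ a ∈ Icc 1 m, v a ≤ vm)
    (hN : ∀ a ∈ Icc 1 m, l ≤ N * v a) (hl0 : 0 ≤ l) (hτ : 0 ≤ τ)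
    (hq : ∀ a, 0 ≤ q a) (hq1 : ∑ a ∈ Icc 1 m, q a = 1)
    {T : Finset ℕ} {g : ι → ℕ → ℕ → ℝ} {β : ι → ℕ → ℝ} {ρ : ι → ℕ → Prop} {η G C0 : ℝ} (hη : 0 ≤ η) (hG : 0 ≤ G)
    (hg0 : ∀ i t, g i 0 t = 1) (hβ : ∀ i t, 0 ≤ β i t)
    (hρ : ∀ i, ∀ t ∈ T, ρ i t → 1 ≤ β i t ∧ ∀ a ∈ Icc 1 m, g i a t = - q a)
    (h1 : ∀ n ∈ Cf ι m N v l, ∀ n' ∈ Cf ι m N v l,
      |∑ t ∈ T, ∏ i, (g i (n i) t * g i (n' i) t) - (T.card : ℝ) * (if n = n' then ms V s n else 0)| ≤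
        (T.card : ℝ) * (η * V (sp n ∪ sp n')))
    (h2 : ∀ k : ι, ∀ n ∈ Cf ι m N v l, ∀ n' ∈ Cf ι m N v l, n k = 0 → n' k = 0 →
      |∑ t ∈ T, (∏ i, (g i (n i) t * g i (n' i) t)) * β k t -
          (T.card : ℝ) * (if n = n' then G * (V (insert k (sp n)) * ∏ i, s (n i)) else 0)| ≤
        (T.card : ℝ) * (η * V (insert k (sp n ∪ sp n'))))
    (hE1 : η * (1 + ((m : ℝ) + 1) ^ 2 * μ) ^ (2 * N) ≤ 1 / 8)
    (hE2 : η * ((2 * (N : ℝ) + 1) * (1 + ((m : ℝ) + 1) ^ 2 * μ) ^ (2 * N + 1)) ≤ 1 / 8)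
    (hB : G * (μ * Real.exp (μ * (∑ a ∈ Icc 1 m, s a * (Real.exp (τ * v a) - 1)) - τ * (l - vm))) ≤ 1 / 8)
    (hC0 : 1 ≤ C0) (hg : ∀ i, ∀ t ∈ T, ∀ a ∈ Icc 1 m, |g i a t| ≤ C0) :
    (T.card : ℝ) ≤ 16 * (1 + m * C0 * Fintype.card ι) ^ (2 * N) * ((T.filter (fun t => ∀ k, ¬ ρ k t)).card : ℝ) := by
  have hT0 : (0 : ℝ) ≤ (T.card : ℝ) := Nat.cast_nonneg _
  have hMM : 1 ≤ MM m N v l V s := Abs_MM h.nonneg h.empty hs hs0 hv0 hl0
  have hsec := sec (v := v) (l := l) (Abs_vh h (by omega : 2 * N ≤ 2 * N + 1)) hη h1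
  have hup := up2 h hv hv0 hq hq1 hη hg0 hβ hρ h2
  have hbd := bd2 (Abs_vh h (by omega : N + 1 ≤ 2 * N + 1)) hs hs0 hv hv0 hvm hN hτ hq hq1
  have hsplit := Abs_split T ρ (fun t => Ps m N v l g t ^ 2) (fun t => sq_nonneg _)
  set M := MM m N v l V s with hM
  set E : ℝ := Real.exp (μ * (∑ a ∈ Icc 1 m, s a * (Real.exp (τ * v a) - 1)) - τ * (l - vm)) with hE
  have hGb : G * (∑ k : ι, ∑ n ∈ (Cf ι m N v l).filter (fun n => n k = 0),
      om N v l q n ^ 2 * (V (insert k (sp n)) * ∏ i, s (n i))) ≤ 1 / 8 * M := by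
    calc _ ≤ G * (μ * (E * M)) := mul_le_mul_of_nonneg_left hbd hG
      _ = G * (μ * E) * M := by ring
      _ ≤ 1 / 8 * M := mul_le_mul_of_nonneg_right hB (by linarith)
  have hup2 : ∑ k : ι, ∑ t ∈ T.filter (fun t => ρ k t), Ps m N v l g t ^ 2 ≤
      (T.card : ℝ) * (1 / 8 * M + 1 / 8) :=
    hup.trans (mul_le_mul_of_nonneg_left (add_le_add hGb hE2) hT0)
  have hlow : (T.card : ℝ) * (M - 1 / 8) ≤ ∑ t ∈ T, Ps m N v l g t ^ 2 :=
    (mul_le_mul_of_nonneg_left (by linarith) hT0).trans hsec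
  have hgood : ∑ t ∈ T.filter (fun t => ∀ k, ¬ ρ k t), Ps m N v l g t ^ 2 ≤
      ((T.filter (fun t => ∀ k, ¬ ρ k t)).card : ℝ) * (8 * (1 + m * C0 * Fintype.card ι) ^ (2 * N)) := by
    rw [← nsmul_eq_mul]
    refine Finset.sum_le_card_nsmul _ _ _ fun t ht => ?_
    have ht' := (Finset.mem_filter.1 ht).1
    exact Ab3_pt hC0 (fun i => hg0 i t) (fun i a ha => hg i t ht' a ha)
  have hfin : (T.card : ℝ) * (M - 1 / 8) ≤ ((T.filter (fun t => ∀ k, ¬ ρ k t)).card : ℝ) *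
      (8 * (1 + m * C0 * Fintype.card ι) ^ (2 * N)) + (T.card : ℝ) * (1 / 8 * M + 1 / 8) :=
    hlow.trans (hsplit.trans (add_le_add hgood hup2))
  have hfin2 : (T.card : ℝ) * (1 / 2) ≤ (T.card : ℝ) * (M - 1 / 8 - (1 / 8 * M + 1 / 8)) :=
    mul_le_mul_of_nonneg_left (by linarith) hT0
  nlinarith

end H52GS
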