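import Pool.Agent.H52.GS.Cor

/-!
# AMG: the amplitude theorem for arbitrary sets of shifts

`W` is the product of all differences of the shifts.
-/

open Finset EG H69PG H82LX

namespace H52GS

/-- the product of the differences -/
noncomputable def WW {ι : Type} [Fintype ι] [DecidableEq ι] (c : ι → ℕ) : ℕ :=
  ∏ p ∈ (univ : Finset (ι × ι)).filter (fun p => p.1 ≠ p.2), ((c p.1 : ℤ) - c p.2).natAbs

theorem WW_pos {ι : Type} [Fintype ι] [DecidableEq ι] {c : ι → ℕ} (hc : Function.Injective c) : 1 ≤ WW c := by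
  have h0 : 0 < WW c := by
    unfold WW
    refine Finset.prod_pos (fun p hp => ?_)
    rw [Finset.mem_filter] at hp
    rw [Int.natAbs_pos, sub_ne_zero]
    intro h
    exact hp.2 (hc (by exact_mod_cast h))
  exact h0

theorem WW_dvd {ι : Type} [Fintype ι] [DecidableEq ι] (c : ι → ℕ) {i j : ι} (hij : i ≠ j) {p : ℕ}
    (h : (p : ℤ) ∣ (c i : ℤ) - c j) : p ∣ WW c := by
  have h1 : p ∣ ((c i : ℤ) - c j).natAbs := Int.natCast_dvd.1 h
  refine h1.trans ?_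
  unfold WW
  exact Finset.dvd_prod_of_mem (fun p : ι × ι => ((c p.1 : ℤ) - c p.2).natAbs)
    (Finset.mem_filter.2 ⟨Finset.mem_univ (i, j), hij⟩)

theorem WW_log {ι : Type} [Fintype ι] [DecidableEq ι] {c : ι → ℕ} (hc : Function.Injective c) {Y : ℝ} (hY : 1 ≤ Y)
    (h : ∀ i, (c i : ℝ) ≤ Y) : Real.log (WW c) ≤ (Fintype.card ι : ℝ) ^ 2 * Real.log Y := by
  have hpos : ∀ p ∈ (univ : Finset (ι × ι)).filter (fun p => p.1 ≠ p.2), (0 : ℝ) < (((c p.1 : ℤ) - c p.2).natAbs : ℝ) := by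
    intro p hp
    rw [Finset.mem_filter] at hp
    have : 0 < ((c p.1 : ℤ) - c p.2).natAbs := by
      rw [Int.natAbs_pos, sub_ne_zero]
      intro h
      exact hp.2 (hc (by exact_mod_cast h))
    exact_mod_cast this
  unfold WW
  push_cast
  rw [Real.log_prod (fun p hp => (hpos p hp).ne')]
  have h1 : ∀ p ∈ (univ : Finset (ι × ι)).filter (fun p => p.1 ≠ p.2), Real.log |((c p.1 : ℝ)) - c p.2| ≤ Real.log Y := by
    intro p hp
    have h2 := hpos p hp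
    rw [Nat.cast_natAbs, Int.cast_abs] at h2
    push_cast at h2
    refine Real.log_le_log h2 ?_
    rw [abs_le]
    have a := h p.1
    have b := h p.2
    have a0 : (0 : ℝ) ≤ c p.1 := Nat.cast_nonneg _
    have b0 : (0 : ℝ) ≤ c p.2 := Nat.cast_nonneg _
    constructor <;> linarith
  have h3 := Finset.sum_le_sum h1
  rw [Finset.sum_const, nsmul_eq_mul] at h3
  have h4 : (((univ : Finset (ι × ι)).filter (fun p => p.1 ≠ p.2)).card : ℝ) ≤ (Fintype.card ι : ℝ) ^ 2 := by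
    have h5 : ((univ : Finset (ι × ι)).filter (fun p => p.1 ≠ p.2)).card ≤ Fintype.card ι ^ 2 := by
      refine (Finset.card_le_univ _).trans ?_
      rw [Fintype.card_prod, pow_two]
    exact_mod_cast h5
  have h6 : 0 ≤ Real.log Y := Real.log_nonneg hY
  have h7 := mul_le_mul_of_nonneg_right h4 h6
  refine le_trans (le_of_eq ?_) (h3.trans h7)
  apply Finset.sum_congr rfl
  intro p _
  rw [Nat.cast_natAbs, Int.cast_abs]
  push_cast
  rfl

theorem Fm_WW {ι : Type} [Fintype ι] [DecidableEq ι] {K Q0 W0 : ℕ} {c : ι → ℕ} (hQ : 1 ≤ Q0) (hW0 : 1 ≤ W0)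
    (hp : ∀ p : ℕ, p.Prime → p ∣ Q0 → K < p → p ∣ W0) (hc : Function.Injective c) (h1 : ∀ i, 1 ≤ c i) :
    Fm (WW c * W0) K Q0 c where
  pos := hQ
  Wpos := Nat.mul_pos (WW_pos hc) hW0
  pr := fun p hp1 hp2 hp3 => (hp p hp1 hp2 hp3).mul_left _
  inj := hc
  df := fun _ _ hij _ _ _ hd => (WW_dvd c hij hd).mul_right _
  cpos := h1

/-- the condition on the size of `WW` -/
theorem WW_cond {ι : Type} [Fintype ι] [DecidableEq ι] {K W0 : ℕ} {c : ι → ℕ} {x E A : ℝ} (hc : Function.Injective c)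
    (hA : 0 ≤ A) (hx1 : 1 ≤ x) (hx : 2 * (A * E ^ 2 + 1) ≤ Real.log x) (hW0 : 1 ≤ W0) (hW1 : Real.log W0 ≤ Real.log x ^ 3)
    (hK : Real.log x ^ 4 ≤ K + 1) (h : ∀ i, (c i : ℝ) ≤ x ^ A)
    (hcard : (Fintype.card ι : ℝ) ≤ E * Real.log x) (hKK : 2 * (K + 1) ≤ K * Real.log K) :
    Real.log ((WW c * W0 : ℕ) : ℝ) ≤ 1 / 2 * (K * Real.log K) := by
  have hl : 0 ≤ Real.log x := Real.log_nonneg hx1
  have hx0 : 0 < x := by linarith
  have h1 := WW_log hc (Real.one_le_rpow hx1 hA) h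
  rw [Real.log_rpow hx0] at h1
  have h2 : (Fintype.card ι : ℝ) ^ 2 ≤ (E * Real.log x) ^ 2 := pow_le_pow_left₀ (Nat.cast_nonneg _) hcard 2
  have h3 : 0 ≤ A * Real.log x := by positivity
  have hW0r : (0 : ℝ) < W0 := by exact_mod_cast hW0
  have hWWr : (0 : ℝ) < WW c := by exact_mod_cast WW_pos hc
  push_cast
  rw [Real.log_mul hWWr.ne' hW0r.ne']
  have h4 : Real.log (WW c) ≤ A * E ^ 2 * Real.log x ^ 3 := by
    calc Real.log (WW c) ≤ (Fintype.card ι : ℝ) ^ 2 * (A * Real.log x) := h1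
      _ ≤ (E * Real.log x) ^ 2 * (A * Real.log x) := mul_le_mul_of_nonneg_right h2 h3
      _ = A * E ^ 2 * Real.log x ^ 3 := by ring
  have h5 : 2 * (A * E ^ 2 + 1) * Real.log x ^ 3 ≤ Real.log x * Real.log x ^ 3 :=
    mul_le_mul_of_nonneg_right hx (pow_nonneg hl 3)
  have h6 : Real.log x * Real.log x ^ 3 = Real.log x ^ 4 := by ring
  rw [h6] at h5
  linarith

theorem KK_big {K : ℕ} (hK : 100 ≤ K) : 2 * ((K : ℝ) + 1) ≤ K * Real.log K := by
  have hKr : (100 : ℝ) ≤ K := by exact_mod_cast hK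
  have h1 : 3 ≤ Real.log K := by
    rw [Real.le_log_iff_exp_le (by linarith)]
    have := Real.exp_one_lt_d9
    calc Real.exp 3 = Real.exp 1 ^ 3 := by rw [← Real.exp_nat_mul]; norm_num
      _ ≤ 2.7182818286 ^ 3 := pow_le_pow_left₀ (Real.exp_pos _).le this.le 3
      _ ≤ 100 := by norm_num
      _ ≤ K := hKr
  nlinarith

/-- **The amplitude theorem for arbitrary shifts.** The primes `> K` dividing `Q0` divide `W0`. -/
theorem ampG (A : ℕ) (hA : 1 ≤ A) {r : ℝ} (hr : 0 < r) (hr1 : r ≤ 1 / 16) : ∃ c0 : ℝ, 0 < c0 ∧ ∃ x0 : ℝ, 1 ≤ x0 ∧ ∀ x : ℝ, x0 ≤ x →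
    ∀ (ι : Type) [Fintype ι] [DecidableEq ι] (K Q0 W0 T : ℕ) (cc : ι → ℕ),
      Real.log x ^ 4 ≤ K → (K : ℝ) ≤ Real.log x ^ A → 1 ≤ Q0 → 1 ≤ W0 → Real.log W0 ≤ Real.log x ^ 3 →
      (∀ p : ℕ, p.Prime → p ∣ Q0 → K < p → p ∣ W0) →
      Function.Injective cc → (∀ i, 1 ≤ cc i) → (∀ i, (cc i : ℝ) ≤ x ^ A) → (Fintype.card ι : ℝ) ≤ c0 * Real.log x →
      x ^ (7 / 10 : ℝ) ≤ T →
      ∃ t < T, ∀ i, ∃ p : ℕ, p.Prime ∧ (p : ℝ) ≤ x ^ r ∧ p ∣ Q0 * t + cc i := by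
  obtain ⟨c0, hc0, x0, hx0, h⟩ := coreG A hA hr hr1
  refine ⟨min c0 1, lt_min hc0 one_pos, max x0 (Real.exp (2 * A + 100)), le_max_of_le_left hx0, ?_⟩
  intro x hx ι _ _ K Q0 W0 T cc hK1 hK2 hQ hW0 hW1 hp hinj hcc hcx hcard hT
  have hx1 : x0 ≤ x := (le_max_left _ _).trans hx
  have hx2 : Real.exp (2 * A + 100) ≤ x := (le_max_right _ _).trans hx
  have hxpos : 0 < x := (Real.exp_pos _).trans_le hx2
  have hlog : 2 * (A : ℝ) + 100 ≤ Real.log x := (Real.le_log_iff_exp_le hxpos).2 hx2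
  have hA0 : (0 : ℝ) ≤ A := Nat.cast_nonneg _
  have hl1 : 1 ≤ Real.log x := by linarith
  have hl4 : Real.log x ≤ Real.log x ^ 4 := le_self_pow₀ hl1 (by norm_num)
  have hK100 : 100 ≤ K := by
    have : (100 : ℝ) ≤ K := by linarith
    exact_mod_cast this
  refine h x hx1 ι (WW cc * W0) K Q0 T cc (hl4.trans hK1) hK2 (Fm_WW hQ hW0 hp hinj hcc)
    (WW_cond (E := 1) (A := (A : ℝ)) hinj hA0 (hx0.trans hx1) (by linarith) hW0 hW1 (by linarith)
      (fun i => by rw [Real.rpow_natCast]; exact hcx i) ?_ (KK_big hK100)) ?_ hT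
  · refine hcard.trans (mul_le_mul_of_nonneg_right (min_le_right _ _) (by linarith))
  · exact hcard.trans (mul_le_mul_of_nonneg_right (min_le_left _ _) (by linarith))

end H52GS
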