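import Mathlib

/-!
# BAL: balanced multisets of exponents

`Bal q j K`: for every class `a` modulo `q ^ j` the `q` classes modulo `q ^ (j + 1)` above it contain equally many elements of `K`. Then `∑_{i < q} 2 ^ (q ^ j i)` divides `∑_{k ∈ K} 2 ^ k`.
-/

open Finset

namespace H52GS

/-- `K` is balanced at the level `j` of the prime `q` -/
def Bal (q j : ℕ) (K : Multiset ℕ) : Prop :=
  ∀ a b : ℕ, a ≡ b [MOD q ^ j] → K.countP (fun k => k ≡ a [MOD q ^ (j + 1)]) = K.countP (fun k => k ≡ b [MOD q ^ (j + 1)])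

theorem mod_sum {R : Type} [CommSemiring R] (Q : ℕ) (hQ : 0 < Q) (f : ℕ → R) (hf : ∀ k, f (k % Q) = f k) (K : Multiset ℕ) :
    (K.map f).sum = ∑ a ∈ range Q, ((K.countP (fun k => k ≡ a [MOD Q]) : ℕ) : R) * f a := by
  induction K using Multiset.induction_on with
  | empty => simp
  | cons k K ih =>
    rw [Multiset.map_cons, Multiset.sum_cons, ih]
    have h1 : ∀ a ∈ range Q, (((k ::ₘ K).countP (fun k => k ≡ a [MOD Q]) : ℕ) : R) * f a =
        ((K.countP (fun k => k ≡ a [MOD Q]) : ℕ) : R) * f a + (if a = k % Q then f a else 0) := by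
      intro a ha
      have ha' := Finset.mem_range.1 ha
      rw [Multiset.countP_cons]
      have h2 : (k ≡ a [MOD Q]) ↔ a = k % Q := by
        unfold Nat.ModEq
        rw [Nat.mod_eq_of_lt ha']
        exact eq_comm
      by_cases h3 : a = k % Q
      · rw [if_pos (h2.2 h3), if_pos h3]
        push_cast
        ring
      · rw [if_neg (fun h => h3 (h2.1 h)), if_neg h3]
        simp
    rw [Finset.sum_congr rfl h1, Finset.sum_add_distrib, Finset.sum_ite_eq' (range Q) (k % Q) f,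
      if_pos (Finset.mem_range.2 (Nat.mod_lt _ hQ)), hf, add_comm]

theorem range_mul_sum {R : Type} [AddCommMonoid R] (Q q : ℕ) (hQ : 0 < Q) (f : ℕ → R) :
    ∑ a ∈ range (Q * q), f a = ∑ a ∈ range Q, ∑ i ∈ range q, f (a + Q * i) := by
  rw [← Finset.sum_product']
  refine (Finset.sum_nbij' (fun x : ℕ × ℕ => x.1 + Q * x.2) (fun a => (a % Q, a / Q)) ?_ ?_ ?_ ?_ ?_).symm
  · rintro ⟨a, i⟩ h
    rw [Finset.mem_product, Finset.mem_range, Finset.mem_range] at h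
    obtain ⟨h1, h2⟩ := h
    rw [Finset.mem_range]
    have h3 : Q * (i + 1) ≤ Q * q := Nat.mul_le_mul_left _ h2
    have h4 : Q * (i + 1) = Q * i + Q := by ring
    simp only at h1 ⊢
    omega
  · intro a ha
    rw [Finset.mem_range] at ha
    rw [Finset.mem_product, Finset.mem_range, Finset.mem_range]
    exact ⟨Nat.mod_lt _ hQ, Nat.div_lt_of_lt_mul ha⟩
  · rintro ⟨a, i⟩ h
    rw [Finset.mem_product, Finset.mem_range, Finset.mem_range] at h
    obtain ⟨h1, _⟩ := h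
    simp only at h1 ⊢
    rw [Nat.add_mul_mod_self_left, Nat.mod_eq_of_lt h1, Nat.add_mul_div_left _ _ hQ, Nat.div_eq_of_lt h1, zero_add]
  · intro a _
    exact Nat.mod_add_div a Q
  · rintro ⟨a, i⟩ _
    rfl

theorem bal_sum {R : Type} [CommSemiring R] {q j : ℕ} (hq : 0 < q) {K : Multiset ℕ} (hK : Bal q j K) (f : ℕ → R)
    (hf : ∀ k, f (k % q ^ (j + 1)) = f k) :
    (K.map f).sum = ∑ a ∈ range (q ^ j), ((K.countP (fun k => k ≡ a [MOD q ^ (j + 1)]) : ℕ) : R) * ∑ i ∈ range q, f (a + q ^ j * i) := by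
  have hQ : 0 < q ^ j := pow_pos hq j
  have hQ' : 0 < q ^ (j + 1) := pow_pos hq (j + 1)
  rw [mod_sum _ hQ' f hf K]
  have e : range (q ^ (j + 1)) = range (q ^ j * q) := by rw [pow_succ]
  rw [e, range_mul_sum _ _ hQ]
  refine Finset.sum_congr rfl fun a _ => ?_
  rw [Finset.mul_sum]
  refine Finset.sum_congr rfl fun i _ => ?_
  congr 2
  apply hK
  show (a + q ^ j * i) % q ^ j = a % q ^ j
  rw [Nat.add_mul_mod_self_left]

/-- the divisor -/
theorem bal_dvd {q j : ℕ} (hq : 0 < q) {K : Multiset ℕ} (hK : Bal q j K) :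
    (∑ i ∈ range q, 2 ^ (q ^ j * i)) ∣ (K.map (fun k => 2 ^ k)).sum := by
  set Ψ : ℕ := ∑ i ∈ range q, 2 ^ (q ^ j * i) with hΨ
  rw [← ZMod.natCast_eq_zero_iff]
  have hΨ0 : (∑ i ∈ range q, (2 : ZMod Ψ) ^ (q ^ j * i)) = 0 := by
    have h1 : ((Ψ : ℕ) : ZMod Ψ) = 0 := ZMod.natCast_self Ψ
    rw [hΨ] at h1
    push_cast at h1
    exact h1
  have hper : (2 : ZMod Ψ) ^ (q ^ (j + 1)) = 1 := by
    have h1 := geom_sum_mul ((2 : ZMod Ψ) ^ (q ^ j)) q
    have h2 : (∑ i ∈ range q, ((2 : ZMod Ψ) ^ (q ^ j)) ^ i) = 0 := by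
      rw [← hΨ0]
      exact Finset.sum_congr rfl fun i _ => (pow_mul _ _ _).symm
    rw [h2, zero_mul, ← pow_mul, ← pow_succ] at h1
    exact (sub_eq_zero.1 h1.symm)
  have hf : ∀ k : ℕ, (2 : ZMod Ψ) ^ (k % q ^ (j + 1)) = 2 ^ k := by
    intro k
    conv_rhs => rw [← Nat.mod_add_div k (q ^ (j + 1)), pow_add, pow_mul, hper, one_pow, mul_one]
  have h3 := bal_sum hq hK (fun k => (2 : ZMod Ψ) ^ k) hf
  have h4 : (((K.map (fun k => 2 ^ k)).sum : ℕ) : ZMod Ψ) = (K.map (fun k => (2 : ZMod Ψ) ^ k)).sum := by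
    rw [Nat.cast_multiset_sum, Multiset.map_map]
    congr 1
    refine Multiset.map_congr rfl fun k _ => ?_
    simp
  rw [h4, h3]
  refine Finset.sum_eq_zero fun a _ => ?_
  have h5 : ∑ i ∈ range q, (2 : ZMod Ψ) ^ (a + q ^ j * i) = 0 := by
    have h6 : ∑ i ∈ range q, (2 : ZMod Ψ) ^ (a + q ^ j * i) = 2 ^ a * ∑ i ∈ range q, (2 : ZMod Ψ) ^ (q ^ j * i) := by
      rw [Finset.mul_sum]
      exact Finset.sum_congr rfl fun i _ => pow_add _ _ _
    rw [h6, hΨ0, mul_zero]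
  rw [h5, mul_zero]

/-- a balanced nonempty multiset has at least `q` elements -/
theorem bal_card {q j : ℕ} (hq : 0 < q) {K : Multiset ℕ} (hK : Bal q j K) (h0 : K ≠ 0) : q ≤ K.card := by
  have h1 := bal_sum hq hK (fun _ => (1 : ℕ)) (fun _ => rfl)
  rw [Multiset.map_const', Multiset.sum_replicate, smul_eq_mul, mul_one] at h1
  have h2 : q ∣ K.card := by
    rw [h1]
    refine Finset.dvd_sum fun a _ => ?_
    simp
  refine Nat.le_of_dvd ?_ h2
  exact Multiset.card_pos.2 h0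

theorem psi_dvd {q j m : ℕ} (hjm : j + 1 ≤ m) :
    (∑ i ∈ range q, 2 ^ (q ^ j * i)) ∣ 2 ^ (q ^ m) - 1 := by
  have h1 := geom_sum_mul ((2 : ℤ) ^ (q ^ j)) q
  have h2 : (∑ i ∈ range q, ((2 : ℤ) ^ (q ^ j)) ^ i) = ((∑ i ∈ range q, 2 ^ (q ^ j * i) : ℕ) : ℤ) := by
    push_cast
    exact Finset.sum_congr rfl fun i _ => (pow_mul _ _ _).symm
  rw [h2, ← pow_mul, ← pow_succ] at h1
  have h3 : ((2 : ℤ) ^ (q ^ (j + 1)) - 1) ∣ ((2 : ℤ) ^ (q ^ (j + 1))) ^ (q ^ (m - (j + 1))) - 1 := by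
    have := sub_dvd_pow_sub_pow ((2 : ℤ) ^ (q ^ (j + 1))) 1 (q ^ (m - (j + 1)))
    rwa [one_pow] at this
  rw [← pow_mul, ← pow_add, Nat.add_sub_cancel' hjm] at h3
  have h4 : ((∑ i ∈ range q, 2 ^ (q ^ j * i) : ℕ) : ℤ) ∣ (2 : ℤ) ^ (q ^ m) - 1 := (Dvd.intro _ h1).trans h3
  have h5 : ((2 ^ (q ^ m) - 1 : ℕ) : ℤ) = (2 : ℤ) ^ (q ^ m) - 1 := by
    rw [Nat.cast_sub Nat.one_le_two_pow]
    push_cast
    rfl
  rw [← h5] at h4
  exact_mod_cast h4

/-- at most `r` summands from `A` -/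
def AS (A : Finset ℕ) : ℕ → Finset ℕ
  | 0 => {0}
  | (r + 1) => ((insert 0 A) ×ˢ (AS A r)).image (fun q => q.1 + q.2)

theorem AS_card (A : Finset ℕ) (r : ℕ) : (AS A r).card ≤ (A.card + 1) ^ r := by
  induction r with
  | zero => simp [AS]
  | succ r ih =>
    show (((insert 0 A) ×ˢ (AS A r)).image (fun q => q.1 + q.2)).card ≤ _
    refine Finset.card_image_le.trans ?_
    rw [Finset.card_product, pow_succ, mul_comm]
    exact Nat.mul_le_mul ih (Finset.card_insert_le _ _)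

theorem AS_zero (A : Finset ℕ) (r : ℕ) : 0 ∈ AS A r := by
  induction r with
  | zero => simp [AS]
  | succ r ih =>
    show 0 ∈ ((insert 0 A) ×ˢ (AS A r)).image (fun q => q.1 + q.2)
    rw [Finset.mem_image]
    exact ⟨(0, 0), Finset.mem_product.2 ⟨Finset.mem_insert_self _ _, ih⟩, rfl⟩

theorem AS_mem (A : Finset ℕ) (f : ℕ → ℕ) (K : Multiset ℕ) : ∀ r : ℕ, K.card ≤ r → (∀ k ∈ K, f k ∈ A) → (K.map f).sum ∈ AS A r := by
  induction K using Multiset.induction_on with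
  | empty =>
    intro r _ _
    simpa using AS_zero A r
  | cons k K ih =>
    intro r hr hk
    rw [Multiset.card_cons] at hr
    obtain ⟨r', rfl⟩ : ∃ r', r = r' + 1 := ⟨r - 1, by omega⟩
    rw [Multiset.map_cons, Multiset.sum_cons]
    show f k + (K.map f).sum ∈ ((insert 0 A) ×ˢ (AS A r')).image (fun q => q.1 + q.2)
    rw [Finset.mem_image]
    refine ⟨(f k, (K.map f).sum), Finset.mem_product.2 ⟨Finset.mem_insert_of_mem (hk k (Multiset.mem_cons_self _ _)),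
      ih r' (by omega) (fun e he => hk e (Multiset.mem_cons_of_mem he))⟩, rfl⟩

end H52GS
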