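import Pool.Agent.H52.GS.El

/-!
# BHU: the fundamental lemma and its consequences, uniformly in the dimension

The proofs are those of helper97, helper57 and helper29 for `bh`, `sc`, `el` (`Pool/Agent/H69/PG`), with the dependence on the dimension `j` made explicit: `C (j+1) ≤ b0`, `C` absolute.
-/

open Finset EG H69PG

namespace H52GS

open Classical in
theorem bhu : ∃ C : ℕ, ∀ j b0 : ℕ, C * (j + 1) ≤ b0 → ∀ W K z : ℕ, 2 * j ≤ K → 2 ≤ K → K ≤ z →
    ∀ (T : Finset ℕ) (B : ℕ → ℕ → Prop) (Y r : ℝ), 0 ≤ Y → 0 ≤ r →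
    (∀ S ⊆ PK W K z, ∏ p ∈ S, p ≤ z ^ (4 * b0 + 10) →
      |((T.filter (fun t => ∀ p ∈ S, B t p)).card : ℝ) - Y * ∏ p ∈ S, ((j : ℝ) / p)| ≤ r * (j : ℝ) ^ S.card) →
    |((T.filter (fun t => ∀ p ∈ PK W K z, ¬ B t p)).card : ℝ) - Y * VV W K z j| ≤
      Real.exp (-(b0 : ℝ)) * (Y * VV W K z j) + r * (z : ℝ) ^ (3 * (4 * b0 + 10)) := by
  obtain ⟨c6, hc6, hrec⟩ := bh_recip
  obtain ⟨C, hC⟩ := exists_nat_ge (21 * c6 + 2)
  refine ⟨C, fun j b0 hb0 W K z hjK hK hKz T B Y r hY hr hN => ?_⟩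
  set σ : ℝ := j * c6 with hσdef
  have hσ0 : 0 ≤ σ := by positivity
  have hb0' : 21 * σ + 2 ≤ (b0 : ℝ) := by
    have hj0 : (0 : ℝ) ≤ j := Nat.cast_nonneg j
    have h1 : (C : ℝ) * (j + 1) ≤ b0 := by exact_mod_cast hb0
    have h2 : (21 * c6 + 2) * ((j : ℝ) + 1) ≤ C * (j + 1) := mul_le_mul_of_nonneg_right hC (by linarith)
    have h3 : 21 * σ + 2 ≤ (21 * c6 + 2) * ((j : ℝ) + 1) := by
      rw [hσdef]
      nlinarith
    linarith
  have hz2 : 2 ≤ z := hK.trans hKz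
  have hz1 : 1 ≤ z := by omega
  have hU : (range z).biUnion (bh_Bk W K z) = PK W K z := by
    ext p
    rw [mem_biUnion]
    constructor
    · rintro ⟨i, _, hi⟩
      exact (mem_filter.1 hi).1
    · intro hp
      exact ⟨bh_ix z p, mem_range.2 (bh_ix_lt hp), mem_filter.2 ⟨hp, rfl⟩⟩
  have hg : ∀ i < z, ∀ p ∈ bh_Bk W K z i, (0 : ℝ) ≤ (j : ℝ) / p ∧ (j : ℝ) / p ≤ 1 / 2 := by
    intro i _ p hp
    have h1 := (bh_mem_PK (mem_filter.1 hp).1).1
    have hp0 : (0 : ℝ) < p := by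
      have : 0 < p := by omega
      exact_mod_cast this
    refine ⟨by positivity, ?_⟩
    rw [div_le_div_iff₀ hp0 (by norm_num)]
    have : 2 * j ≤ p := by omega
    have h2 : (2 : ℝ) * j ≤ p := by exact_mod_cast this
    linarith
  have hσi : ∀ i, ∑ p ∈ bh_Bk W K z i, (j : ℝ) / p ≤ σ := by
    intro i
    have h1 := hrec W K z i hK
    have h2 : ∑ p ∈ bh_Bk W K z i, (j : ℝ) / p = j * ∑ p ∈ bh_Bk W K z i, (1 : ℝ) / p := by
      rw [mul_sum]
      exact sum_congr rfl fun p _ => by ring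
    rw [h2, hσdef]
    gcongr
  set δ : ℕ → ℝ := fun i => Real.exp (2 * σ - 2 * ((2 * (b0 + i) + 1 : ℕ) : ℝ)) with hδ
  set R : Finset ℕ → ℝ := fun S => if ∏ p ∈ S, p ≤ z ^ (4 * b0 + 10) then r * (j : ℝ) ^ S.card else 0 with hR
  have hΔ : ∑ i ∈ range z, δ i ≤ Real.exp (-(b0 : ℝ)) / 5 := by
    have h1 : ∀ i : ℕ, δ i = Real.exp (2 * σ - 4 * b0 - 2) * Real.exp (-(4 * (i : ℝ))) := by
      intro i
      rw [hδ, ← Real.exp_add]
      simp only
      congr 1
      push_cast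
      ring
    simp only [h1]
    rw [← mul_sum]
    have h2 := bh_expsum z
    have h3 : Real.exp (2 * σ - 4 * b0 - 2) ≤ Real.exp (-(b0 : ℝ)) * Real.exp (-5) := by
      rw [← Real.exp_add]
      apply Real.exp_le_exp.2
      linarith
    have h4 : Real.exp (-5) ≤ 1 / 10 := by
      have h5 : Real.exp (-5 : ℝ) = Real.exp (-(5 / 2)) * Real.exp (-(5 / 2)) := by
        rw [← Real.exp_add]
        norm_num
      have h6 : Real.exp (-(5 / 2 : ℝ)) ≤ 2 / 7 := by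
        rw [Real.exp_neg, inv_le_comm₀ (Real.exp_pos _) (by norm_num)]
        have := Real.add_one_le_exp (5 / 2 : ℝ)
        linarith
      have h7 := Real.exp_pos (-(5 / 2 : ℝ))
      rw [h5]
      nlinarith
    have h8 := Real.exp_pos (-(b0 : ℝ))
    calc Real.exp (2 * σ - 4 * b0 - 2) * ∑ i ∈ range z, Real.exp (-(4 * (i : ℝ)))
        ≤ (Real.exp (-(b0 : ℝ)) * (1 / 10)) * 2 := by
          refine mul_le_mul (h3.trans ?_) h2 (sum_nonneg fun i _ => (Real.exp_pos _).le) (by positivity)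
          gcongr
      _ = Real.exp (-(b0 : ℝ)) / 5 := by ring
  have hmain := bhc z (bh_Bk W K z) (by
      intro i _ i' _ hne
      rw [Finset.disjoint_left]
      intro p hp hp'
      exact hne ((mem_filter.1 hp).2.symm.trans (mem_filter.1 hp').2)) (fun i => b0 + i)
    (fun p => (j : ℝ) / p) (fun i hi p hp => ⟨(hg i hi p hp).1, (hg i hi p hp).2.trans (by norm_num)⟩)
    δ (fun i _ => (Real.exp_pos _).le) (by
      intro i hi
      have h1 := ehb_W (bh_Bk W K z i) (b0 + i) (fun p => (j : ℝ) / p) (fun p hp => (hg i hi p hp).1)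
        (hσi i)
      have h2 := ehb_I (bh_Bk W K z i) (fun p => (j : ℝ) / p) (hg i hi) (hσi i)
      have h3 : 21 * σ ≤ ((2 * (b0 + i) + 1 : ℕ) : ℝ) := by
        push_cast
        have : (0 : ℝ) ≤ i := Nat.cast_nonneg i
        linarith
      have h4 := bh_fact hσ0 h3
      calc eW (bh_Bk W K z i) (b0 + i) (fun p => (j : ℝ) / p)
          ≤ Real.exp (-(2 * ((2 * (b0 + i) + 1 : ℕ) : ℝ))) := h1.trans h4
        _ = δ i * Real.exp (-(2 * σ)) := by
            rw [hδ, ← Real.exp_add]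
            congr 1
            ring
        _ ≤ δ i * eI (bh_Bk W K z i) (fun p => (j : ℝ) / p) :=
            mul_le_mul_of_nonneg_left h2 (Real.exp_pos _).le)
    hΔ (by
      have : Real.exp (-(b0 : ℝ)) ≤ 1 := by
        rw [Real.exp_le_one_iff]
        have : (0 : ℝ) ≤ b0 := Nat.cast_nonneg b0
        linarith
      linarith) T B hY R (by
      intro S
      rw [hR]
      simp only
      split_ifs
      · positivity
      · exact le_rfl) (by
      intro S hS hc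
      rw [hU] at hS
      have hp := bh_prod_le hz1 hS hc
      have h1 := hN S hS hp
      rw [hR]
      simp only
      rw [if_pos hp]
      exact h1)
  rw [hU] at hmain
  refine hmain.trans ?_
  have hsum : ∑ S ∈ (PK W K z).powerset.filter (fun S => ∀ i < z, (S ∩ bh_Bk W K z i).card ≤ 2 * (b0 + i) + 1), R S ≤
      r * (((z ^ (4 * b0 + 10) : ℕ) : ℝ) * ((z ^ (4 * b0 + 10) : ℕ) : ℝ)) := by
    refine le_trans ?_ (bh_count (W := W) (K := K) (z := z) (D := z ^ (4 * b0 + 10)) (j := j) (by omega) hr)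
    calc ∑ S ∈ (PK W K z).powerset.filter (fun S => ∀ i < z, (S ∩ bh_Bk W K z i).card ≤ 2 * (b0 + i) + 1), R S
        = ∑ S ∈ (PK W K z).powerset.filter (fun S => ∀ i < z, (S ∩ bh_Bk W K z i).card ≤ 2 * (b0 + i) + 1),
          r * (j : ℝ) ^ S.card := by
          refine sum_congr rfl fun S hS => ?_
          rw [mem_filter, mem_powerset] at hS
          rw [hR]
          simp only
          rw [if_pos (bh_prod_le hz1 hS.1 hS.2)]
      _ ≤ ∑ S ∈ (PK W K z).powerset.filter (fun S => ∏ p ∈ S, p ≤ z ^ (4 * b0 + 10)),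
          r * (j : ℝ) ^ S.card := by
          apply sum_le_sum_of_subset_of_nonneg
          · intro S hS
            rw [mem_filter, mem_powerset] at hS
            rw [mem_filter, mem_powerset]
            exact ⟨hS.1, bh_prod_le hz1 hS.1 hS.2⟩
          · intro S _ _
            positivity
  have hzR : (2 : ℝ) ≤ z := by exact_mod_cast hz2
  have hzD : (z : ℝ) + 1 ≤ (z : ℝ) ^ (4 * b0 + 10) := by
    calc (z : ℝ) + 1 ≤ (z : ℝ) ^ 2 := by nlinarith
      _ ≤ (z : ℝ) ^ (4 * b0 + 10) := pow_le_pow_right₀ (by linarith) (by omega)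
  have h5 : 5 * (Real.exp (-(b0 : ℝ)) / 5) = Real.exp (-(b0 : ℝ)) := by ring
  rw [h5]
  have h6 : ((z : ℝ) + 1) * ∑ S ∈ (PK W K z).powerset.filter
      (fun S => ∀ i < z, (S ∩ bh_Bk W K z i).card ≤ 2 * (b0 + i) + 1), R S ≤
      r * (z : ℝ) ^ (3 * (4 * b0 + 10)) := by
    calc ((z : ℝ) + 1) * ∑ S ∈ (PK W K z).powerset.filter
          (fun S => ∀ i < z, (S ∩ bh_Bk W K z i).card ≤ 2 * (b0 + i) + 1), R S
        ≤ (z : ℝ) ^ (4 * b0 + 10) *
          (r * (((z ^ (4 * b0 + 10) : ℕ) : ℝ) * ((z ^ (4 * b0 + 10) : ℕ) : ℝ))) := by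
          refine mul_le_mul hzD hsum (sum_nonneg fun S _ => ?_) (by positivity)
          rw [hR]
          simp only
          split_ifs
          · positivity
          · exact le_rfl
      _ = r * (z : ℝ) ^ (3 * (4 * b0 + 10)) := by
          push_cast
          ring
  exact add_le_add le_rfl h6


open Classical in
theorem scu : ∃ C : ℕ, ∀ j b0 : ℕ, C * (j + 1) ≤ b0 → ∀ (ι : Type) [Fintype ι] [DecidableEq ι], Fintype.card ι = j →
    ∀ W K z Q0 : ℕ, 2 * j ≤ K → 2 ≤ K → K ≤ z → ∀ c : ι → ℕ, Fm W K Q0 c → ∀ T : ℕ, ∀ D : ι → ℕ,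
    (∀ i, Squarefree (D i) ∧ Nat.Coprime (D i) (primorial z * W)) → (∀ i i', i ≠ i' → Nat.Coprime (D i) (D i')) →
    |∑ t ∈ range T, ∏ i, (th0 W K z (Q0 * t + c i) * (if D i ∣ Q0 * t + c i then 1 else 0)) -
        (T : ℝ) / (∏ i, (D i : ℝ)) * VV W K z j| ≤
      Real.exp (-(b0 : ℝ)) * ((T : ℝ) / (∏ i, (D i : ℝ)) * VV W K z j) + (z : ℝ) ^ (3 * (4 * b0 + 10)) := by
  obtain ⟨C, hC⟩ := bhu
  refine ⟨C, ?_⟩
  intro j b0 hb0 ι _ _ hι W K z Q0 h2j h2K hKz c hFm T D hD hco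
  have h1 := hC j b0 hb0 W K z h2j h2K hKz ((range T).filter (fun t => ∀ i, D i ∣ Q0 * t + c i))
    (fun t p => ∃ i, p ∣ Q0 * t + c i) ((T : ℝ) / ∏ i, (D i : ℝ)) 1 (by positivity) zero_le_one
    (fun S hS _ => by
      have h2 := crt hKz hFm T D hD hco S hS
      rw [hι] at h2
      rw [one_mul, Finset.filter_filter]
      refine le_of_eq_of_le ?_ h2
      exact congrArg (fun x : ℕ => |(x : ℝ) - (T : ℝ) / (∏ i, (D i : ℝ)) * ∏ p ∈ S, ((j : ℝ) / p)|)
        (card_dec _ _ _ _))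
  rw [one_mul] at h1
  have h3 : ∑ t ∈ range T, ∏ i, (th0 W K z (Q0 * t + c i) * (if D i ∣ Q0 * t + c i then 1 else 0)) =
      ((((range T).filter (fun t => ∀ i, D i ∣ Q0 * t + c i)).filter
        (fun t => ∀ p ∈ PK W K z, ¬ ∃ i, p ∣ Q0 * t + c i)).card : ℝ) := by
    rw [Finset.filter_filter, Finset.card_filter]
    push_cast
    refine Finset.sum_congr rfl fun t _ => ?_
    by_cases h : (∀ i, D i ∣ Q0 * t + c i) ∧ ∀ p ∈ PK W K z, ¬ ∃ i, p ∣ Q0 * t + c i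
    · rw [if_pos h]
      refine Finset.prod_eq_one fun i _ => ?_
      have e1 : th0 W K z (Q0 * t + c i) = 1 := by
        unfold th0
        exact if_pos fun p hp hpi => h.2 p hp ⟨i, hpi⟩
      rw [e1, if_pos (h.1 i), one_mul]
    · rw [if_neg h]
      rw [not_and_or] at h
      rcases h with h | h
      · rw [not_forall] at h
        obtain ⟨i, hi⟩ := h
        refine Finset.prod_eq_zero (Finset.mem_univ i) ?_
        rw [if_neg hi, mul_zero]
      · simp only [not_forall, not_not] at h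
        obtain ⟨p, hp, i, hi⟩ := h
        refine Finset.prod_eq_zero (Finset.mem_univ i) ?_
        have e1 : th0 W K z (Q0 * t + c i) = 0 := by
          unfold th0
          exact if_neg fun hh => hh p hp hi
        rw [e1, zero_mul]
  rw [h3]
  refine le_of_eq_of_le ?_ h1
  exact congrArg (fun x : ℕ => |(x : ℝ) - (T : ℝ) / (∏ i, (D i : ℝ)) * VV W K z j|) (card_dec _ _ _ _)



theorem elw : ∃ C : ℕ, ∀ j b0 : ℕ, C * (j + 1) ≤ b0 → ∀ (ι : Type) [Fintype ι] [DecidableEq ι], Fintype.card ι = j →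
    ∀ W K z Q0 : ℕ, 2 * j ≤ K → 2 ≤ K → K ≤ z → ∀ c : ι → ℕ, Fm W K Q0 c → ∀ T : ℕ, ∀ (D : ι → Finset ℕ) (f : ι → ℕ → ℝ),
    (∀ i, Good (primorial z * W) (D i)) →
    |∑ t ∈ range T, ∏ i, (th0 W K z (Q0 * t + c i) * Fn (D i) (f i) (Q0 * t + c i)) - (T : ℝ) * VV W K z j * Mm D f 1| ≤
      Real.exp (-(b0 : ℝ)) * ((T : ℝ) * VV W K z j * ∏ i, ∑ B ∈ D i, |f i B| / (B : ℝ)) +
        (z : ℝ) ^ (3 * (4 * b0 + 10)) * ∏ i, ∑ B ∈ D i, |f i B| := by
  obtain ⟨C, hC⟩ := scu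
  refine ⟨C, ?_⟩
  intro j b0 hb0 ι _ _ hcard W K z Q0 hjK hK hKz c hF T D f hD
  classical
  have hV : 0 ≤ VV W K z j := el_vv_nonneg hjK
  have hT : (0 : ℝ) ≤ T := Nat.cast_nonneg T
  set E : ℝ := Real.exp (-(b0 : ℝ)) with hE
  have hE0 : 0 ≤ E := (Real.exp_pos _).le
  set Z : ℝ := (z : ℝ) ^ (3 * (4 * b0 + 10)) with hZ
  have hZ0 : 0 ≤ Z := by positivity
  set F : Finset (ι → ℕ) := (Fintype.piFinset D).filter (fun B => ∀ i i', i ≠ i' → Nat.Coprime (B i) (B i')) with hFdef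
  have hmem : ∀ B ∈ Fintype.piFinset D, ∀ i, B i ∈ D i := fun B hB i => (Fintype.mem_piFinset.1 hB) i
  have hsum : ∑ B ∈ Fintype.piFinset D, (∏ i, f i (B i)) * elS W K z Q0 T c B =
      ∑ B ∈ F, (∏ i, f i (B i)) * elS W K z Q0 T c B := by
    symm
    refine Finset.sum_subset (Finset.filter_subset _ _) (fun B hB hBn => ?_)
    have : ¬ ∀ i i', i ≠ i' → Nat.Coprime (B i) (B i') := fun h => hBn (Finset.mem_filter.2 ⟨hB, h⟩)
    push Not at this
    obtain ⟨i, i', hii, hnc⟩ := this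
    rw [el_zero hKz hF T (fun k => (hD k (B k) (hmem B hB k)).2) hii hnc, mul_zero]
  have hMm : Mm D f 1 = ∑ B ∈ F, ∏ i, f i (B i) / (B i : ℝ) := by
    unfold Mm
    refine Finset.sum_congr ?_ (fun _ _ => rfl)
    ext B
    simp [hFdef]
  rw [el_expand, hsum, hMm, Finset.mul_sum, ← Finset.sum_sub_distrib]
  have hterm : ∀ B ∈ F, |(∏ i, f i (B i)) * elS W K z Q0 T c B - (T : ℝ) * VV W K z j * ∏ i, f i (B i) / (B i : ℝ)| ≤
      E * ((T : ℝ) * VV W K z j * ∏ i, |f i (B i)| / (B i : ℝ)) + Z * ∏ i, |f i (B i)| := by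
    intro B hB
    obtain ⟨hB1, hB2⟩ := Finset.mem_filter.1 hB
    have h1 := hC j b0 hb0 ι hcard W K z Q0 hjK hK hKz c hF T B (fun i => hD i (B i) (hmem B hB1 i)) hB2
    have h2 : elS W K z Q0 T c B = ∑ t ∈ range T, ∏ i, (th0 W K z (Q0 * t + c i) * (if B i ∣ Q0 * t + c i then 1 else 0)) := rfl
    rw [← h2] at h1
    have h3 : (∏ i, f i (B i)) * elS W K z Q0 T c B - (T : ℝ) * VV W K z j * ∏ i, f i (B i) / (B i : ℝ) =
        (∏ i, f i (B i)) * (elS W K z Q0 T c B - (T : ℝ) / (∏ i, (B i : ℝ)) * VV W K z j) := by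
      rw [Finset.prod_div_distrib]
      ring
    rw [h3, abs_mul, Finset.abs_prod]
    have h4 : 0 ≤ ∏ i, |f i (B i)| := Finset.prod_nonneg (fun i _ => abs_nonneg _)
    refine (mul_le_mul_of_nonneg_left h1 h4).trans (le_of_eq ?_)
    rw [Finset.prod_div_distrib]
    ring
  refine (Finset.abs_sum_le_sum_abs _ _).trans ((Finset.sum_le_sum hterm).trans ?_)
  have hnn : ∀ B : ι → ℕ, 0 ≤ E * ((T : ℝ) * VV W K z j * ∏ i, |f i (B i)| / (B i : ℝ)) + Z * ∏ i, |f i (B i)| := by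
    intro B
    have a1 : 0 ≤ ∏ i, |f i (B i)| / (B i : ℝ) :=
      Finset.prod_nonneg (fun i _ => div_nonneg (abs_nonneg _) (Nat.cast_nonneg _))
    have a2 : 0 ≤ ∏ i, |f i (B i)| := Finset.prod_nonneg (fun i _ => abs_nonneg _)
    have := mul_nonneg hE0 (mul_nonneg (mul_nonneg hT hV) a1)
    have := mul_nonneg hZ0 a2
    linarith
  refine (Finset.sum_le_sum_of_subset_of_nonneg (Finset.filter_subset _ _) (fun B _ _ => hnn B)).trans (le_of_eq ?_)
  rw [Finset.sum_add_distrib, ← Finset.mul_sum, ← Finset.mul_sum, ← Finset.mul_sum]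
  rw [Finset.prod_univ_sum, Finset.prod_univ_sum]



end H52GS
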