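import Pool.Agent.H52.GS.VVf
import Pool.Agent.H69.PG.Ggb

/-!
# GGB: the sums `GG (primorial z * W) y`, up to constants

Upper bound: fewer terms than for `W = 1`. Lower bound: as for `W = 1`, the additional primes `p ∣ W`, `p > z`, cost the factor `∏ (1 - 1/p) ≥ 1/2`.
-/

open Finset EG H69PG

namespace H52GS

open Pool.Agent.H67.GT

theorem ggb : ∃ C : ℝ, 1 ≤ C ∧ ∀ W z y : ℕ, 2 ≤ z → z ≤ y → 1 ≤ W → Real.log W ≤ 1 / 2 * (z * Real.log z) →
    Real.log y / (C * Real.log z) ≤ GG (primorial z * W) y ∧ GG (primorial z * W) y ≤ C * (Real.log y / Real.log z) := by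
  obtain ⟨C0, hC0, h0⟩ := H69PG.ggb
  obtain ⟨c, hc, _, _, h3, h4, _⟩ := MERT.mert
  refine ⟨C0 + 2 * c, by linarith, fun W z y hz hzy hW hWz => ?_⟩
  have hc0 : 0 < c := by linarith
  have hlz : 0 < Real.log z := Real.log_pos (by exact_mod_cast hz)
  have hly : 0 ≤ Real.log y := Real.log_natCast_nonneg y
  constructor
  · set P := W.primeFactors.filter (fun p => z < p) with hP
    have hPm : ∀ p ∈ P, p.Prime ∧ z < p ∧ p ∣ W := by
      intro p hp
      rw [hP, mem_filter] at hp
      exact ⟨Nat.prime_of_mem_primeFactors hp.1, hp.2, Nat.dvd_of_mem_primeFactors hp.1⟩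
    set S := prs Set.univ z ∪ P with hS
    have hSp : ∀ p ∈ S, p.Prime := by
      intro p hp
      rw [hS, mem_union] at hp
      rcases hp with hp | hp
      · exact (Ggb_prs.mp hp).1
      · exact (hPm p hp).1
    have hd : Disjoint (prs Set.univ z) P := by
      rw [Finset.disjoint_left]
      intro p hp hq
      have a := (Ggb_prs.mp hp).2
      have b := (hPm p hq).2.1
      omega
    have hg : gqH (primorial z * W) y = Ggb_H S y := by
      unfold gqH Ggb_H
      apply Finset.sum_congr _ (fun _ _ => rfl)
      apply Finset.filter_congr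
      intro n _
      constructor
      · intro h p hp hdn
        have hpp := hSp p hp
        have : p ∣ primorial z * W := by
          rw [hS, mem_union] at hp
          rcases hp with hp | hp
          · exact (hpp.dvd_primorial_iff.mpr (Ggb_prs.mp hp).2).mul_right W
          · exact ((hPm p hp).2.2).mul_left _
        have h5 := Nat.dvd_gcd hdn this
        rw [Nat.Coprime] at h
        rw [h] at h5
        exact hpp.one_lt.ne' (Nat.dvd_one.mp h5)
      · intro h
        apply Nat.Coprime.symm
        apply Nat.coprime_of_dvd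
        intro k hk hk1 hk2
        refine h k ?_ hk2
        rw [hS, mem_union]
        rcases (Nat.Prime.dvd_mul hk).1 hk1 with h6 | h6
        · exact Or.inl (Ggb_prs.mpr ⟨hk, hk.dvd_primorial_iff.mp h6⟩)
        · rcases le_or_gt k z with h7 | h7
          · exact Or.inl (Ggb_prs.mpr ⟨hk, h7⟩)
          · right
            rw [hP, mem_filter]
            exact ⟨Nat.mem_primeFactors.2 ⟨hk, h6, by omega⟩, h7⟩
    have h5 := h4 Set.univ z hz
    have h6 := Ggb_H_prod S hSp y
    have h7 := Ggb_harm (y := y) (by omega)
    have hprod : 1 / 2 * V Set.univ z ≤ ∏ p ∈ S, (1 - 1 / (p : ℝ)) := by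
      rw [hS, Finset.prod_union hd]
      have e : ∏ p ∈ prs Set.univ z, (1 - 1 / (p : ℝ)) = V Set.univ z := rfl
      rw [e, mul_comm]
      apply mul_le_mul_of_nonneg_left _ (le_trans (by positivity) h5)
      have h8 := prod_one_sub_ge P (fun p => 1 / (p : ℝ)) (fun p _ => by positivity) (fun p hp => by
        have h9 : (1 : ℝ) ≤ p := by exact_mod_cast (hPm p hp).1.one_le
        rw [div_le_one (by linarith)]
        exact h9)
      have h9 := big_recip hW hz hWz P hPm
      linarith
    have h8 : (1 / 2 * V Set.univ z) * Real.log y ≤ GG (primorial z * W) y := by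
      refine le_trans ?_ (gq_lower (primorial z * W) y)
      rw [hg]
      refine le_trans ?_ h6
      refine mul_le_mul hprod h7 hly ?_
      exact le_trans (mul_nonneg (by norm_num) (le_trans (by positivity) h5)) hprod
    refine le_trans ?_ h8
    calc Real.log y / ((C0 + 2 * c) * Real.log z) ≤ Real.log y / ((2 * c) * Real.log z) := by
          apply div_le_div_of_nonneg_left hly (by positivity)
          apply mul_le_mul_of_nonneg_right _ hlz.le
          linarith
      _ = (1 / 2 * (1 / (c * Real.log z))) * Real.log y := by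
          field_simp
      _ ≤ (1 / 2 * V Set.univ z) * Real.log y := by
          apply mul_le_mul_of_nonneg_right _ hly
          linarith
  · have h5 : GG (primorial z * W) y ≤ GG (primorial z) y := by
      unfold GG
      apply Finset.sum_le_sum_of_subset_of_nonneg
      · intro r hr
        rw [Ggb_mem] at hr ⊢
        exact ⟨hr.1, hr.2.1, Nat.Coprime.coprime_dvd_right (Dvd.intro W rfl) hr.2.2⟩
      · intro r _ _
        positivity
    refine h5.trans ((h0 z y hz hzy).2.trans ?_)
    apply mul_le_mul_of_nonneg_right _ (by positivity)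
    linarith

end H52GS
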