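import Pool.Agent.H52.GS.Df
import Pool.Agent.H69.PG.VVf

/-!
# VVF: the products `VV` with the primes dividing `W` removed

`VV W K z j` is at least the full product, and `VV W K z 1` is at most twice the full product if `∑_{p ∣ W, K < p} 1/p ≤ 1/2`; this holds if `log W ≤ K (log K)/2`.
-/

open Finset EG H69PG

namespace H52GS

lemma mem_PK {W K z p : ℕ} : p ∈ PK W K z ↔ K < p ∧ p ≤ z ∧ p.Prime ∧ ¬ p ∣ W := by
  unfold PK
  rw [mem_filter, mem_Ioc]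
  tauto

lemma mem_PK0 {K z p : ℕ} : p ∈ H69PG.PK K z ↔ K < p ∧ p ≤ z ∧ p.Prime := by
  unfold H69PG.PK
  rw [mem_filter, mem_Ioc]
  tauto

lemma PK_sub (W K z : ℕ) : PK W K z ⊆ H69PG.PK K z := by
  intro p hp
  rw [mem_PK] at hp
  exact mem_PK0.2 ⟨hp.1, hp.2.1, hp.2.2.1⟩

/-- for `p ∈ PK W K z` and `2 j ≤ K` -/
lemma frac {W K z j p : ℕ} (h : 2 * j ≤ K) (hp : p ∈ PK W K z) :
    0 < (p : ℝ) ∧ (j : ℝ) / p ≤ 1 / 2 ∧ 0 ≤ (j : ℝ) / p := by
  rw [mem_PK] at hp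
  have hp0 : 0 < p := hp.2.2.1.pos
  have hpr : (0 : ℝ) < p := by exact_mod_cast hp0
  refine ⟨hpr, ?_, by positivity⟩
  rw [div_le_iff₀ hpr]
  have : 2 * j ≤ p := by omega
  have h2 : (2 : ℝ) * j ≤ p := by exact_mod_cast this
  linarith

theorem vv_pos {W K z j : ℕ} (h : 2 * j ≤ K) : 0 < VV W K z j := by
  unfold VV
  refine Finset.prod_pos (fun p hp => ?_)
  obtain ⟨_, h1, _⟩ := frac h hp
  linarith

theorem vv_le_one {W K z j : ℕ} (h : 2 * j ≤ K) : VV W K z j ≤ 1 := by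
  unfold VV
  refine Finset.prod_le_one (fun p hp => ?_) (fun p hp => ?_)
  · obtain ⟨_, h1, _⟩ := frac h hp
    linarith
  · obtain ⟨_, _, h1⟩ := frac h hp
    linarith

theorem vv_anti {W K z j j' : ℕ} (hj : j ≤ j') (h : 2 * j' ≤ K) : VV W K z j' ≤ VV W K z j := by
  unfold VV
  refine Finset.prod_le_prod (fun p hp => ?_) (fun p hp => ?_)
  · obtain ⟨_, h1, _⟩ := frac h hp
    linarith
  · obtain ⟨h0, _, _⟩ := frac h hp
    have hjj : (j : ℝ) ≤ j' := by exact_mod_cast hj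
    have : (j : ℝ) / p ≤ (j' : ℝ) / p := by gcongr
    linarith

theorem vv_succ {W K z j : ℕ} (h : 2 * (j + 1) ≤ K) : VV W K z (j + 1) ≤ VV W K z 1 * VV W K z j := by
  unfold VV
  rw [← Finset.prod_mul_distrib]
  refine Finset.prod_le_prod (fun p hp => ?_) (fun p hp => ?_)
  · obtain ⟨_, h1, _⟩ := frac h hp
    linarith
  · obtain ⟨h0, _, _⟩ := frac h hp
    have e : (1 - ((1 : ℕ) : ℝ) / p) * (1 - (j : ℝ) / p) =
        1 - ((j + 1 : ℕ) : ℝ) / p + (j : ℝ) / (p * p) := by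
      push_cast
      field_simp
      ring
    rw [e]
    have : (0 : ℝ) ≤ (j : ℝ) / (p * p) := by positivity
    linarith

theorem vv_zero (W K z : ℕ) : VV W K z 0 = 1 := by
  unfold VV
  simp

/-- removing primes increases the product -/
theorem vv_ge {W K z j : ℕ} (h : 2 * j ≤ K) : H69PG.VV K z j ≤ VV W K z j := by
  unfold H69PG.VV VV
  rw [← Finset.prod_filter_mul_prod_filter_not (H69PG.PK K z) (fun p => ¬ p ∣ W)]
  have e : (H69PG.PK K z).filter (fun p => ¬ p ∣ W) = PK W K z := by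
    ext p
    rw [mem_filter, mem_PK0, mem_PK]
    tauto
  rw [e]
  have h1 : ∏ p ∈ (H69PG.PK K z).filter (fun p => ¬ ¬ p ∣ W), (1 - (j : ℝ) / p) ≤ 1 := by
    refine Finset.prod_le_one (fun p hp => ?_) (fun p hp => ?_)
    · obtain ⟨_, h1, _⟩ := H69PG.VVFaux.frac h (mem_filter.1 hp).1
      linarith
    · obtain ⟨_, _, h1⟩ := H69PG.VVFaux.frac h (mem_filter.1 hp).1
      linarith
  have h2 : 0 ≤ ∏ p ∈ PK W K z, (1 - (j : ℝ) / p) := (vv_pos h).le
  calc _ ≤ (∏ p ∈ PK W K z, (1 - (j : ℝ) / p)) * 1 := mul_le_mul_of_nonneg_left h1 h2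
    _ = _ := mul_one _

/-- `∏ (1 - a) ≥ 1 - ∑ a` -/
theorem prod_one_sub_ge (s : Finset ℕ) (a : ℕ → ℝ) (h0 : ∀ p ∈ s, 0 ≤ a p) (h1 : ∀ p ∈ s, a p ≤ 1) :
    1 - ∑ p ∈ s, a p ≤ ∏ p ∈ s, (1 - a p) := by
  classical
  induction s using Finset.induction_on with
  | empty => simp
  | insert p s hp ih =>
    rw [Finset.sum_insert hp, Finset.prod_insert hp]
    have i1 := ih (fun q hq => h0 q (Finset.mem_insert_of_mem hq)) (fun q hq => h1 q (Finset.mem_insert_of_mem hq))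
    have a0 := h0 p (Finset.mem_insert_self _ _)
    have a1 := h1 p (Finset.mem_insert_self _ _)
    have s0 : 0 ≤ ∑ q ∈ s, a q := Finset.sum_nonneg fun q hq => h0 q (Finset.mem_insert_of_mem hq)
    have : (1 - a p) * (1 - ∑ q ∈ s, a q) ≤ (1 - a p) * ∏ q ∈ s, (1 - a q) :=
      mul_le_mul_of_nonneg_left i1 (by linarith)
    nlinarith

/-- the number of prime factors `> K` of `W` is at most `log W/log K` -/
theorem big_factors {W K : ℕ} (hW : 1 ≤ W) (hK : 2 ≤ K) (s : Finset ℕ)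
    (hs : ∀ p ∈ s, p.Prime ∧ K < p ∧ p ∣ W) : (s.card : ℝ) * Real.log K ≤ Real.log W := by
  have h1 : (∏ p ∈ s, p) ∣ W := by
    apply Finset.prod_primes_dvd
    · intro p hp
      exact (hs p hp).1.prime
    · intro p hp
      exact (hs p hp).2.2
  have h2 : ∏ p ∈ s, p ≤ W := Nat.le_of_dvd hW h1
  have h3 : K ^ s.card ≤ ∏ p ∈ s, p := Finset.pow_card_le_prod s _ _ fun p hp => (hs p hp).2.1.le
  have h4 : ((K : ℝ) ^ s.card) ≤ W := by exact_mod_cast h3.trans h2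
  have hKr : (0 : ℝ) < K := by exact_mod_cast (by omega : 0 < K)
  have h5 := Real.log_le_log (by positivity) h4
  rw [Real.log_pow] at h5
  exact h5

/-- the sum of the reciprocals of the prime factors `> K` of `W` -/
theorem big_recip {W K : ℕ} (hW : 1 ≤ W) (hK : 2 ≤ K) {E : ℝ} (hE : Real.log W ≤ E * (K * Real.log K)) (s : Finset ℕ)
    (hs : ∀ p ∈ s, p.Prime ∧ K < p ∧ p ∣ W) : ∑ p ∈ s, (1 : ℝ) / p ≤ E := by
  have hKr : (0 : ℝ) < K := by exact_mod_cast (by omega : 0 < K)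
  have lK : 0 < Real.log K := Real.log_pos (by exact_mod_cast (by omega : 1 < K))
  have h1 : ∑ p ∈ s, (1 : ℝ) / p ≤ s.card * (1 / (K : ℝ)) := by
    rw [← nsmul_eq_mul]
    apply Finset.sum_le_card_nsmul
    intro p hp
    have : (K : ℝ) ≤ p := by exact_mod_cast (hs p hp).2.1.le
    exact one_div_le_one_div_of_le hKr this
  have h2 := big_factors hW hK s hs
  refine h1.trans ?_
  rw [mul_one_div, div_le_iff₀ hKr]
  have h3 : (s.card : ℝ) * Real.log K ≤ (E * K) * Real.log K := by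
    refine h2.trans (hE.trans (le_of_eq ?_))
    ring
  exact le_of_mul_le_mul_right h3 lK

theorem vv_one_le {W K z : ℕ} (hW : 1 ≤ W) (hK : 2 ≤ K) (hWK : Real.log W ≤ 1 / 2 * (K * Real.log K)) :
    VV W K z 1 ≤ 2 * H69PG.VV K z 1 := by
  unfold H69PG.VV
  rw [← Finset.prod_filter_mul_prod_filter_not (H69PG.PK K z) (fun p => ¬ p ∣ W)]
  have e : (H69PG.PK K z).filter (fun p => ¬ p ∣ W) = PK W K z := by
    ext p
    rw [mem_filter, mem_PK0, mem_PK]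
    tauto
  rw [e]
  have h2 : 0 ≤ ∏ p ∈ PK W K z, (1 - ((1 : ℕ) : ℝ) / p) := (vv_pos (by omega)).le
  have h3 : (1 : ℝ) / 2 ≤ ∏ p ∈ (H69PG.PK K z).filter (fun p => ¬ ¬ p ∣ W), (1 - ((1 : ℕ) : ℝ) / p) := by
    have h4 := prod_one_sub_ge ((H69PG.PK K z).filter (fun p => ¬ ¬ p ∣ W)) (fun p => ((1 : ℕ) : ℝ) / p)
      (fun p _ => by positivity) (fun p hp => by
        have := (mem_PK0.1 (mem_filter.1 hp).1).2.2.one_le
        have h5 : (1 : ℝ) ≤ p := by exact_mod_cast this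
        rw [Nat.cast_one, div_le_one (by linarith)]
        exact h5)
    have h5 := big_recip hW hK hWK ((H69PG.PK K z).filter (fun p => ¬ ¬ p ∣ W)) (fun p hp => by
      rw [mem_filter, not_not, mem_PK0] at hp
      exact ⟨hp.1.2.2, hp.1.1, hp.2⟩)
    simp only [Nat.cast_one] at h4 ⊢
    linarith
  show ∏ p ∈ PK W K z, (1 - ((1 : ℕ) : ℝ) / p) ≤ _
  nlinarith

theorem vv_low : ∃ C : ℝ, 1 ≤ C ∧ ∀ W K z j : ℕ, 2 * j ≤ K → 2 ≤ K → K ≤ z →
    1 / (C * Real.log z) ^ (2 * j) ≤ VV W K z j := by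
  obtain ⟨C, hC, h⟩ := H69PG.vv_low
  exact ⟨C, hC, fun W K z j h1 h2 h3 => (h K z j h1 h2 h3).trans (vv_ge h1)⟩

theorem vv_mu : ∃ C : ℝ, 1 ≤ C ∧ ∀ z0 W K z : ℕ, 2 ≤ z0 → 2 ≤ K → K ≤ z → 1 ≤ W → Real.log W ≤ 1 / 2 * (K * Real.log K) →
    (Nat.totient (primorial z0) : ℝ) / (primorial z0 : ℝ) * VV W K z 1 ≤ C * Real.log K / (Real.log z0 * Real.log z) := by
  obtain ⟨C, hC, h⟩ := H69PG.vv_mu
  refine ⟨2 * C, by linarith, fun z0 W K z h1 h2 h3 hW hWK => ?_⟩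
  have h4 := h z0 K z h1 h2 h3
  have h5 := vv_one_le (z := z) hW h2 hWK
  have h6 : (0 : ℝ) ≤ (Nat.totient (primorial z0) : ℝ) / (primorial z0 : ℝ) := by positivity
  calc _ ≤ (Nat.totient (primorial z0) : ℝ) / (primorial z0 : ℝ) * (2 * H69PG.VV K z 1) := mul_le_mul_of_nonneg_left h5 h6
    _ = 2 * ((Nat.totient (primorial z0) : ℝ) / (primorial z0 : ℝ) * H69PG.VV K z 1) := by ring
    _ ≤ 2 * (C * Real.log K / (Real.log z0 * Real.log z)) := by linarith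
    _ = _ := by ring

end H52GS
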