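import Pool.Agent.H69.PG.Mub
import Pool.Agent.H69.PG.Evt
import Pool.Agent.H52.GS.VVf

/-!
# MUB: the expected number of survivors, with `K = ⌊(log x)^4⌋₊` (compare `Pool/Agent/H69/PG/Mub.lean`)
-/

open Finset EG H69PG

namespace H52GS

theorem mub : ∃ D : ℝ, 1 ≤ D ∧ ∀ Λ ε : ℝ, 1 ≤ Λ → 0 < ε → ∃ x0 : ℝ, ∀ x : ℝ, x0 ≤ x → ∀ W : ℕ, 1 ≤ W →
    Real.log W ≤ 1 / 2 * ((⌊Real.log x ^ 4⌋₊ : ℝ) * Real.log (⌊Real.log x ^ 4⌋₊ : ℝ)) →
    2 * (Λ * Real.log x) * ((Nat.totient (primorial ⌊Real.log x / 100⌋₊) : ℝ) / (primorial ⌊Real.log x / 100⌋₊ : ℝ)) *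
      VV W ⌊Real.log x ^ 4⌋₊ (zf ε x) 1 ≤ 8 * D * Λ / ε := by
  obtain ⟨D, hD, hmu⟩ := vv_mu
  refine ⟨4 * D, by linarith, fun Λ ε hΛ hε => ?_⟩
  obtain ⟨x1, h1⟩ := zfl hε
  obtain ⟨x2, h2⟩ := Filter.eventually_atTop.1 (Evt_small 1 1 4 hε one_pos)
  refine ⟨max (max x1 x2) (Real.exp 40000), fun x hx W hW hWK => ?_⟩
  have hx1 : x1 ≤ x := ((le_max_left _ _).trans (le_max_left _ _)).trans hx
  have hx2 : x2 ≤ x := ((le_max_right _ _).trans (le_max_left _ _)).trans hx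
  have hx3 : Real.exp 40000 ≤ x := (le_max_right _ _).trans hx
  have hx0 : 0 < x := (Real.exp_pos _).trans_le hx3
  have c2 := h2 x hx2
  set L := Real.log x with hL
  have hL2 : 40000 ≤ L := (Real.le_log_iff_exp_le hx0).2 hx3
  set z0 := ⌊L / 100⌋₊ with hz0
  set K := ⌊L ^ 4⌋₊ with hK
  set z := zf ε x with hz
  have hz0l : L / 200 ≤ (z0 : ℝ) := by
    have := Nat.sub_one_lt_floor (L / 100)
    linarith
  have hz02 : 2 ≤ z0 := by
    have : (2 : ℝ) ≤ (z0 : ℝ) := by linarith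
    exact_mod_cast this
  have hKu : (K : ℝ) ≤ L ^ 4 := Nat.floor_le (by positivity)
  have hL4 : L ≤ L ^ 4 := le_self_pow₀ (by linarith) (by norm_num)
  have hK2 : 2 ≤ K := by
    apply Nat.le_floor
    push_cast
    linarith
  have hKz : K ≤ z := by
    refine Nat.floor_mono ?_
    simpa using c2
  obtain ⟨hzl, -⟩ := h1 x hx1
  have hm := hmu z0 W K z hz02 hK2 hKz hW hWK
  have hKpos : (0 : ℝ) < K := by
    have : 0 < K := by omega
    exact_mod_cast this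
  have hz0pos : (0 : ℝ) < z0 := by
    have : 0 < z0 := by omega
    exact_mod_cast this
  have lz0 : 0 < Real.log z0 := Real.log_pos (by exact_mod_cast (by omega : 1 < z0))
  have lz : 0 < Real.log z := by
    have : 0 < ε / 2 * L := by positivity
    linarith
  have lK : Real.log K ≤ 8 * Real.log z0 := by
    rw [show 8 * Real.log (z0 : ℝ) = Real.log ((z0 : ℝ) ^ 8) by rw [Real.log_pow]; norm_num]
    apply Real.log_le_log hKpos
    have h3 : L ≤ (L / 200) ^ 2 := by nlinarith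
    calc (K : ℝ) ≤ L ^ 4 := hKu
      _ ≤ ((L / 200) ^ 2) ^ 4 := pow_le_pow_left₀ (by linarith) h3 4
      _ = (L / 200) ^ 8 := by ring
      _ ≤ (z0 : ℝ) ^ 8 := pow_le_pow_left₀ (by linarith) hz0l 8
  have hb : (Nat.totient (primorial z0) : ℝ) / (primorial z0 : ℝ) * VV W K z 1 ≤
      D * 8 / (ε / 2 * L) := by
    refine hm.trans ?_
    rw [div_le_div_iff₀ (by positivity) (by positivity)]
    calc D * Real.log K * (ε / 2 * L) ≤ D * (8 * Real.log z0) * Real.log z := by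
          have : 0 ≤ Real.log z0 := lz0.le
          gcongr
      _ = D * 8 * (Real.log z0 * Real.log z) := by ring
  calc 2 * (Λ * L) * ((Nat.totient (primorial z0) : ℝ) / (primorial z0 : ℝ)) * VV W K z 1
      = 2 * (Λ * L) * ((Nat.totient (primorial z0) : ℝ) / (primorial z0 : ℝ) * VV W K z 1) := by ring
    _ ≤ 2 * (Λ * L) * (D * 8 / (ε / 2 * L)) := mul_le_mul_of_nonneg_left hb (by positivity)
    _ = 8 * (4 * D) * Λ / ε := by
        have : L ≠ 0 := by linarith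
        field_simp
        ring

end H52GS
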