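import Pool.Agent.H69.PG.CoB
import Pool.Agent.H52.GS.CoA
import Pool.Agent.H52.GS.Wbu
import Pool.Agent.H52.GS.Mub
import Pool.Agent.H52.GS.Evt

/-!
# CPG: the positive-proportion core for arbitrary shifts (helper69's `core`, `Pool/Agent/H69/PG/CoB.lean`, with the primes dividing `W` removed)
-/

open Finset EG H69PG

namespace H52GS

open Classical in
theorem corePG {Λ r A : ℝ} (hΛ : 1 ≤ Λ) (hr : 0 < r) (hA : 1 ≤ A) : ∃ c : ℝ, 0 < c ∧ ∃ x0 : ℝ, ∀ x : ℝ, x0 ≤ x →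
    ∀ (ι : Type) [Fintype ι] [DecidableEq ι] (W Q0 T : ℕ),
      (Fintype.card ι : ℝ) ≤ 2 * (Λ * Real.log x) *
        ((Nat.totient (primorial ⌊Real.log x / 100⌋₊) : ℝ) / (primorial ⌊Real.log x / 100⌋₊ : ℝ)) →
      Real.log W ≤ 1 / 2 * ((⌊Real.log x ^ 4⌋₊ : ℝ) * Real.log (⌊Real.log x ^ 4⌋₊ : ℝ)) →
      x ^ (97 / 100 : ℝ) ≤ T → (Q0 : ℝ) * T ≤ x ^ A →
      ∀ cc : ι → ℕ, Fm W ⌊Real.log x ^ 4⌋₊ Q0 cc → (∀ i, (cc i : ℝ) ≤ x ^ A) →
      c * (T : ℝ) ≤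
        (((range T).filter (fun t => ∀ i, ∃ p : ℕ, p.Prime ∧ (p : ℝ) ≤ x ^ r ∧
          p ∣ Q0 * t + cc i)).card : ℝ) := by
  obtain ⟨D1, hD1, hwbu⟩ := wbu
  obtain ⟨D2, hD2, hmub⟩ := mub
  obtain ⟨D, hDD1, hDD2⟩ : ∃ D : ℝ, D1 ≤ D ∧ D2 ≤ D := ⟨max D1 D2, le_max_left _ _, le_max_right _ _⟩
  have hD : 1 ≤ D := hD1.trans hDD1
  have hD0 : 0 < D := by linarith
  have hD10 : 0 < D1 := by linarith
  have hΛ0 : 0 < Λ := by linarith
  obtain ⟨v, hv, hv16, hvr⟩ : ∃ v : ℝ, 0 < v ∧ v ≤ 1 / 16 ∧ v ≤ r :=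
    ⟨min r (1 / 16), lt_min hr (by norm_num), min_le_right _ _, min_le_left _ _⟩
  obtain ⟨B, hB8⟩ : ∃ B : ℕ, 8 * D ^ 2 ≤ (B : ℝ) := ⟨⌈8 * D ^ 2⌉₊, Nat.le_ceil _⟩
  have hB1 : 1 ≤ B := by
    have h1 : (1 : ℝ) ≤ B := by nlinarith
    exact_mod_cast h1
  obtain ⟨m, hm70⟩ : ∃ m : ℕ, 70000 * D ^ 4 * Λ ^ 2 / v ≤ (m : ℝ) := ⟨⌈70000 * D ^ 4 * Λ ^ 2 / v⌉₊, Nat.le_ceil _⟩
  have hm1 : 1 ≤ m := by
    have h1 : (0 : ℝ) < m := lt_of_lt_of_le (by positivity) hm70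
    have h2 : 0 < m := by exact_mod_cast h1
    omega
  set w : ℕ → ℝ := vs B m v with hw
  have hw1 : 0 < w 1 := CoB_vs_pos hB1 hv le_rfl
  have hwm : Monotone w := vs_mono hB1 hv.le
  have hw0 : ∀ a, 0 ≤ w a := vs_nonneg hv.le
  have hwv : ∀ a, w a ≤ v := vs_le hB1 hv.le
  have hwz : w 0 = 0 := by simp [hw, vs]
  obtain ⟨N, hN1, hNv⟩ : ∃ N : ℕ, 1 ≤ N ∧ 1 / w 1 ≤ (N : ℝ) := by
    refine ⟨⌈1 / w 1⌉₊, ?_, Nat.le_ceil _⟩
    exact Nat.one_le_ceil_iff.2 (by positivity)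
  obtain ⟨C, hcoA⟩ := coA N
  obtain ⟨ε, hε, hεv, hε1, hCb, hexp, hbig⟩ := epsch N m C hD hΛ hw1
  set b0 := ⌊1 / (60 * ε)⌋₊ with hb0
  set Γ : ℝ := 2 * D / ε with hΓ
  set M := ⌈2 / ε⌉₊ with hM
  set M' := ⌈2 * (A + 1 + 2) / ε⌉₊ with hM'
  have hΓ1 : 1 ≤ Γ := by
    rw [hΓ, le_div_iff₀ hε]
    linarith
  set κ0 : ℝ := Real.exp (-(b0 : ℝ)) * (4 * Γ ^ 5) ^ (2 * N + 1) with hκ0
  have hκ : 0 < κ0 := by positivity
  have hεw : ε ≤ w 1 / (4 * D1) := by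
    refine hεv.trans (div_le_div_of_nonneg_left hw1.le (by positivity) (by linarith))
  have hεv' : ε ≤ v := by
    refine hεv.trans (le_trans ?_ (hwv 1))
    rw [div_le_iff₀ (by positivity)]
    nlinarith
  obtain ⟨xm, hxm⟩ := hmub Λ ε hΛ hε
  obtain ⟨xe, hxe1, hxe⟩ := evt N C hε hε1 hv hv16 (show 0 < A + 1 by linarith) hΓ1 hκ
  have hU0 : 0 < 8 * D * Λ / ε := by positivity
  refine ⟨1 / (4 * ((1 + (m : ℝ) * (2 * Γ * 2 ^ M')) ^ (4 * N) * ((4 * N).factorial : ℝ) * 2 ^ (4 * N + 1) *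
    (1 + 8 * D * Λ / ε) ^ (4 * N))), by positivity, max (Real.exp (2 / ε)) (max xm xe), ?_⟩
  intro x hx ι _ _ W Q0 T hcard hWK hT hQT cc hFm hcc
  have hx1 : Real.exp (2 / ε) ≤ x := (le_max_left _ _).trans hx
  have hx2 : xm ≤ x := ((le_max_left _ _).trans (le_max_right _ _)).trans hx
  have hx3 : xe ≤ x := ((le_max_right _ _).trans (le_max_right _ _)).trans hx
  have hx0 : 1 ≤ x := hxe1.trans hx3
  have hxpos : 0 < x := by linarith
  have m1 := hxm x hx2 W hFm.Wpos hWK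
  obtain ⟨e1, e2, e3, e4, e5, e6, e7, e8, e9, e10, e11, e12⟩ := hxe x hx3 W T hT
  have h2ε : 2 ≤ ε * Real.log x := by
    have h1 : 2 / ε ≤ Real.log x := (Real.le_log_iff_exp_le hxpos).2 hx1
    rw [div_le_iff₀ hε] at h1
    linarith
  obtain ⟨w1, w2, w3, w4⟩ := hwbu W B m v v ε x hFm.Wpos (cond_mono (by omega) e2 hWK) (by nlinarith) hm1 hv (by linarith) hv (by linarith)
    hε hεw hεv' hx0 h2ε
  set K := ⌊Real.log x ^ 4⌋₊ with hK
  set z := zf ε x with hz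
  set R := zf v x with hR
  set Z : ℕ → ℕ := fun a => zf (w a) x with hZ
  have hVV1 : 0 < VV W K z 1 := vv_pos (by omega)
  set μ : ℝ := (Fintype.card ι : ℝ) * VV W K z 1 with hμ
  have hμ0 : 0 ≤ μ := by positivity
  have hμU : μ ≤ 8 * D * Λ / ε := by
    have h1 : μ ≤ 8 * D2 * Λ / ε := (mul_le_mul_of_nonneg_right hcard hVV1.le).trans m1
    refine h1.trans ?_
    gcongr
  -- the coefficients
  obtain ⟨cφ, hc0, hcE, hs1, hs2, hs3⟩ := CoB_f0 (m := m) hm1 (w := w) (W := wA Z (primorial z * W)) (v1 := w 1) (E := 4 * D * ε)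
    hw1 (fun a ha => hwm (Finset.mem_Icc.1 ha).1) (by positivity) (fun a ha => by
      refine le_trans ?_ (w1 a ha)
      refine div_le_div_of_nonneg_left (hw0 a) (by positivity) ?_
      gcongr)
  set f0 : ℕ → ℝ := fun a => if a = 0 then 0 else cφ / w a with hf0
  have hf0' : ∀ a ∈ Icc 1 m, f0 a = cφ / w a := by
    intro a ha
    have := (Finset.mem_Icc.1 ha).1
    simp only [hf0]
    rw [if_neg (by omega)]
  have hf0n : ∀ a, 0 ≤ f0 a := by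
    intro a
    simp only [hf0]
    split_ifs
    · exact le_rfl
    · exact div_nonneg hc0.le (hw0 a)
  have hmpos : (0 : ℝ) < m := by exact_mod_cast hm1
  have hf0le : ∀ a, |f0 a| ≤ 1 := by
    intro a
    rw [abs_of_nonneg (hf0n a)]
    simp only [hf0]
    split_ifs with ha
    · norm_num
    · have hwa : w 1 ≤ w a := hwm (by omega)
      have hwa0 : 0 < w a := lt_of_lt_of_le hw1 hwa
      rw [div_le_one hwa0]
      refine le_trans ?_ hwa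
      refine hcE.trans ?_
      rw [div_le_iff₀ hmpos]
      have h1 : ε * (4 * D) ≤ w 1 := by rwa [le_div_iff₀ (by positivity)] at hεv
      have h2 : (1 : ℝ) ≤ m := by exact_mod_cast hm1
      calc 4 * D * ε = ε * (4 * D) := by ring
        _ ≤ w 1 := h1
        _ ≤ w 1 * m := le_mul_of_one_le_right hw1.le h2
  have hsum1 : ∑ a ∈ Icc 1 m, f0 a * wA Z (primorial z * W) a = 1 := by
    rw [← hs1]
    exact Finset.sum_congr rfl fun a ha => by rw [hf0' a ha]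
  have hsum2 : ∑ a ∈ Icc 1 m, f0 a ^ 2 * wA Z (primorial z * W) a ≤ cφ / w 1 := by
    refine le_trans (le_of_eq ?_) hs2
    exact Finset.sum_congr rfl fun a ha => by rw [hf0' a ha]
  have hsum3 : ∑ a ∈ Icc 1 m, f0 a ^ 2 * wA Z (primorial z * W) a * w a = cφ := by
    refine Eq.trans ?_ hs3
    exact Finset.sum_congr rfl fun a ha => by rw [hf0' a ha]
  have hzfM : ∀ e : ℝ, e ≤ 1 → zf e x ≤ z ^ M := by
    intro e he
    have h1 : (zf e x : ℝ) ≤ x := by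
      refine (zf_le hxpos.le).trans ?_
      calc x ^ e ≤ x ^ (1 : ℝ) := Real.rpow_le_rpow_of_exponent_le hx0 he
        _ = x := Real.rpow_one x
    have h2 : (zf e x : ℝ) ≤ ((z ^ M : ℕ) : ℝ) := by
      push_cast
      exact h1.trans e5
    exact_mod_cast h2
  have hw1' : ∀ a, w a ≤ 1 := fun a => (hwv a).trans (by linarith)
  have hsys : Sys C N m M W K z Q0 T R b0 Z w f0 (1 / 8) Γ (x ^ (1 / 8 : ℝ)) (3 * κ0) cc := by
    refine ⟨hFm, hN1, e1, e2, e3, hCb, ?_, ?_, ?_, ?_, e8, e4, e7, hΓ1, ?_, ?_, hf0le, ?_, ?_, ?_, ?_⟩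
    · simp only [hZ, hwz]
      exact zf_zero x
    · intro a b hab
      exact zf_mono hx0 (hwm hab)
    · intro a _
      exact hzfM _ (hw1' a)
    · exact hzfM _ (by linarith)
    · intro a ha
      refine (w2 a ha).trans ?_
      rw [hΓ]
      gcongr
    · refine w3.trans ?_
      rw [hΓ]
      gcongr
    · exact Real.one_le_rpow hx0 (by norm_num)
    · intro n hn
      unfold Cf at hn
      rw [Finset.mem_filter] at hn
      calc ∏ i, (Z (n i) : ℝ) ≤ ∏ i, x ^ (w (n i)) := by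
            refine Finset.prod_le_prod (fun i _ => Nat.cast_nonneg _) fun i _ => zf_le hxpos.le
        _ = x ^ (∑ i, w (n i)) := (Real.rpow_sum_of_pos hxpos _ _).symm
        _ ≤ x ^ (1 / 8 : ℝ) := Real.rpow_le_rpow_of_exponent_le hx0 hn.2.2
    · have h1 : Real.exp (-(b0 : ℝ)) * (4 * Γ ^ 5) ^ (2 * N + 1) = κ0 := rfl
      rw [h1]
      linarith only [e9, e10]
    · linarith only [hexp, e11, e12]
  have hmle : (0 : ℝ) ≤ ((m : ℝ) + 1) ^ 2 := by positivity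
  have hη : 3 * κ0 * ((2 * (N : ℝ) + 1) * (1 + ((m : ℝ) + 1) ^ 2 * μ) ^ (2 * N + 1)) ≤ 1 / 8 := by
    refine le_trans ?_ hbig
    have h1 : (1 + ((m : ℝ) + 1) ^ 2 * μ) ^ (2 * N + 1) ≤ (1 + ((m : ℝ) + 1) ^ 2 * (8 * D * Λ / ε)) ^ (2 * N + 1) := by
      refine pow_le_pow_left₀ (by positivity) ?_ _
      have := mul_le_mul_of_nonneg_left hμU hmle
      linarith only [this]
    have h2 : 3 * κ0 = 3 * Real.exp (-(b0 : ℝ)) * (4 * (2 * D / ε) ^ 5) ^ (2 * N + 1) := by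
      rw [hκ0, hΓ]; ring
    rw [h2]
    refine mul_le_mul_of_nonneg_left (mul_le_mul_of_nonneg_left h1 (by positivity)) (by positivity)
  have hη' : 3 * κ0 * (1 + ((m : ℝ) + 1) ^ 2 * μ) ^ (2 * N) ≤ 1 / 8 := by
    refine le_trans ?_ hη
    refine mul_le_mul_of_nonneg_left ?_ (by positivity)
    have h1 : (1 : ℝ) ≤ 1 + ((m : ℝ) + 1) ^ 2 * μ := by
      have := mul_nonneg hmle hμ0
      linarith only [this]
    have h2 : (1 + ((m : ℝ) + 1) ^ 2 * μ) ^ (2 * N) ≤ (1 + ((m : ℝ) + 1) ^ 2 * μ) ^ (2 * N + 1) :=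
      pow_le_pow_right₀ h1 (by omega)
    have h3 : 0 ≤ (1 + ((m : ℝ) + 1) ^ 2 * μ) ^ (2 * N + 1) := by positivity
    have h4 : (1 : ℝ) ≤ 2 * (N : ℝ) + 1 := by
      have : (0 : ℝ) ≤ N := Nat.cast_nonneg _
      linarith only [this]
    exact h2.trans (le_mul_of_one_le_left h3 h4)
  have hG0 : 0 ≤ 1 / GG (primorial z * W) R := by
    have := CoA_GG (primorial z * W) R
    positivity
  have hthird : 1 / GG (primorial z * W) R * (μ *
      (μ * (∑ a ∈ Icc 1 m, f0 a ^ 2 * wA Z (primorial z * W) a) / N +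
        μ * (∑ a ∈ Icc 1 m, f0 a ^ 2 * wA Z (primorial z * W) a * w a) / (1 / 8 - v))) ≤ 1 / 8 := by
    refine CoB_num (D := D) (Λ := Λ) (r' := v) (ε := ε) (m := (m : ℝ)) (cφ := cφ) (v1 := w 1) hD hΛ hv hε hm70 ?_ hG0 hμ0 hμU hc0 ?_
      hsum2 hsum3 hw1 hNv (by linarith)
    · refine w4.trans ?_
      gcongr
    · exact hcE
  have hres := hcoA ι C m M M' W K z Q0 T R b0 R Z w f0 (1 / 8) v Γ (x ^ (1 / 8 : ℝ)) (3 * κ0) cc le_rfl hsys hw0 hwz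
    (fun a _ => hwv a) (by linarith) (by norm_num) hf0n hsum1 le_rfl (zf_mono hx0 hεv') (fun a _ => zf_mono hx0 (hwv a))
    (fun i t ht => by
      have h3 : ((Q0 * t + cc i : ℕ) : ℝ) ≤ ((z ^ M' : ℕ) : ℝ) := by
        push_cast
        have h1 : (t : ℝ) ≤ T := by exact_mod_cast ht.le
        have h2 : (Q0 : ℝ) * t ≤ Q0 * T := mul_le_mul_of_nonneg_left h1 (Nat.cast_nonneg _)
        have h4 := hcc i
        have h5 : x ^ (A + 1) = x ^ A * x := by rw [Real.rpow_add hxpos, Real.rpow_one]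
        have h6 : 1 ≤ x ^ A := Real.one_le_rpow hx0 (by linarith)
        rw [h5] at e6
        have h7 : (2 : ℝ) ≤ x := by
          have a1 := Real.log_le_sub_one_of_pos hxpos
          have a2 : 0 ≤ Real.log x := Real.log_nonneg hx0
          have a3 : ε * Real.log x ≤ 1 * Real.log x := mul_le_mul_of_nonneg_right (by linarith) a2
          linarith
        have h8 : x ^ A * 2 ≤ x ^ A * x := mul_le_mul_of_nonneg_left h7 (by linarith)
        linarith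
      exact_mod_cast h3)
    hη' hη hthird
  have hfin := CoB_fin (N := N) (m := (m : ℝ)) (Γ := Γ) (M2 := 2 ^ M') (μ := μ) (U := 8 * D * Λ / ε) (T := (T : ℝ))
    (F := ((4 * N).factorial : ℝ)) (by positivity) (by positivity) (by positivity) hμ0 hμU (Nat.cast_nonneg _)
    (by exact_mod_cast Nat.factorial_pos _) hres
  refine hfin.trans ?_
  have hsub : ((range T).filter (fun t => ∀ i, ∃ p : ℕ, p.Prime ∧ p ≤ R ∧ p ∣ Q0 * t + cc i)) ⊆
      ((range T).filter (fun t => ∀ i, ∃ p : ℕ, p.Prime ∧ (p : ℝ) ≤ x ^ r ∧ p ∣ Q0 * t + cc i)) := by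
    intro t ht
    rw [Finset.mem_filter] at ht ⊢
    refine ⟨ht.1, fun i => ?_⟩
    obtain ⟨p, hp1, hp2, hp3⟩ := ht.2 i
    refine ⟨p, hp1, ?_, hp3⟩
    have h1 : (p : ℝ) ≤ R := by exact_mod_cast hp2
    refine h1.trans ((zf_le hxpos.le).trans (Real.rpow_le_rpow_of_exponent_le hx0 hvr))
  exact_mod_cast Finset.card_le_card hsub

end H52GS
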