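import Pool.Agent.H52.GS.CoV
import Pool.Agent.H52.GS.Wbu
import Pool.Agent.H82.LX.Epu
import Pool.Agent.H82.LX.Cor

/-!
# CRC: `coreG` with a count: at least `T exp(-√(log x))` of the `t < T`
-/

open Finset EG H69PG H82LX

namespace H52GS

theorem Crc_num {D Nr m ci H : ℝ} {N A : ℕ} (hD : 1 ≤ D) (hN : Nr = N) (hN1 : 4 * A + 35 ≤ N) (hND : 4 * D ≤ Nr) (hm : 0 ≤ m)
    (hmN : m ≤ Nr) (hci0 : 0 ≤ ci) (hci : ci ≤ H) (hH : H ≤ Nr ^ 9) (hH8 : Nr ^ 8 ≤ H) {ε : ℝ} (hε : ε = 1 / Nr ^ 2) :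
    16 * (1 + m * (2 * (2 * D / ε) * 2 ^ (2 * N ^ 2 * (A + 1))) * ci) ^ (2 * N) ≤ Real.exp (Real.sqrt H) := by
  have hNr : (4 * (A : ℝ) + 35) ≤ Nr := by rw [hN]; exact_mod_cast hN1
  have hA0 : (0 : ℝ) ≤ A := Nat.cast_nonneg _
  have hNr35 : 35 ≤ Nr := by linarith
  have hNr0 : 0 < Nr := by linarith
  obtain ⟨E, hE⟩ : ∃ E : ℝ, E = 2 ^ (2 * N ^ 2 * (A + 1)) := ⟨_, rfl⟩
  rw [← hE]
  have hE1 : 1 ≤ E := by rw [hE]; exact one_le_pow₀ (by norm_num)
  have h1 : 2 * (2 * D / ε) = 4 * D * Nr ^ 2 := by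
    rw [hε]
    field_simp
    ring
  rw [h1]
  have hP13 : (0 : ℝ) ≤ Nr ^ 13 * E := by positivity
  have h2 : 1 + m * (4 * D * Nr ^ 2 * E) * ci ≤ Nr ^ 14 * E := by
    have h3 : m * (4 * D * Nr ^ 2 * E) * ci ≤ Nr ^ 13 * E := by
      have a1 : ci ≤ Nr ^ 9 := hci.trans hH
      have a2 : 4 * D * Nr ^ 2 * E ≤ Nr * Nr ^ 2 * E := by
        refine mul_le_mul_of_nonneg_right (mul_le_mul_of_nonneg_right hND (by positivity)) (by linarith)
      calc m * (4 * D * Nr ^ 2 * E) * ci ≤ Nr * (Nr * Nr ^ 2 * E) * Nr ^ 9 := by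
            refine mul_le_mul (mul_le_mul hmN a2 (by positivity) hNr0.le) a1 hci0 (by positivity)
        _ = Nr ^ 13 * E := by ring
    have h4 : 1 ≤ Nr ^ 13 * E := by
      have : 1 ≤ Nr ^ 13 := one_le_pow₀ (by linarith)
      nlinarith
    have h5 : Nr ^ 14 * E = Nr * (Nr ^ 13 * E) := by ring
    rw [h5]
    nlinarith
  have h0 : 0 ≤ 1 + m * (4 * D * Nr ^ 2 * E) * ci := by positivity
  have h3 : (1 + m * (4 * D * Nr ^ 2 * E) * ci) ^ (2 * N) ≤ (Nr ^ 14 * E) ^ (2 * N) := pow_le_pow_left₀ h0 h2 _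
  have hlogN : Real.log Nr ≤ Nr := (Real.log_le_sub_one_of_pos hNr0).trans (by linarith)
  have hl2 : Real.log 2 ≤ 1 := by
    have := Real.log_two_lt_d9
    linarith
  have h4 : 16 * (Nr ^ 14 * E) ^ (2 * N) ≤ Real.exp (Nr ^ 4) := by
    rw [← Real.log_le_iff_le_exp (by positivity), Real.log_mul (by norm_num) (by positivity), Real.log_pow,
      Real.log_mul (by positivity) (by positivity), Real.log_pow, hE, Real.log_pow]
    have h16 : Real.log 16 ≤ 4 := by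
      have : (16 : ℝ) = 2 ^ 4 := by norm_num
      rw [this, Real.log_pow]
      push_cast
      linarith
    push_cast
    rw [← hN]
    have b1 : 2 * Nr * (14 * Real.log Nr + 2 * Nr ^ 2 * (A + 1) * Real.log 2) ≤
        2 * Nr * (14 * Nr + 2 * Nr ^ 2 * (A + 1) * 1) := by
      refine mul_le_mul_of_nonneg_left (add_le_add (by linarith) (mul_le_mul_of_nonneg_left hl2 (by positivity))) (by positivity)
    have b2 : 2 * Nr * (14 * Nr + 2 * Nr ^ 2 * (A + 1) * 1) = 28 * Nr ^ 2 + (4 * A + 4) * Nr ^ 3 := by ring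
    have b3 : (4 * (A : ℝ) + 35) * Nr ^ 3 ≤ Nr * Nr ^ 3 := mul_le_mul_of_nonneg_right hNr (by positivity)
    have b4 : 28 * Nr ^ 2 ≤ 28 * Nr ^ 3 := by
      have : Nr ^ 2 ≤ Nr ^ 3 := pow_le_pow_right₀ (by linarith) (by norm_num)
      linarith
    have b5 : (4 : ℝ) ≤ 3 * Nr ^ 3 := by
      have : 1 ≤ Nr ^ 3 := one_le_pow₀ (by linarith)
      nlinarith
    have b6 : Nr * Nr ^ 3 = Nr ^ 4 := by ring
    nlinarith
  have h5 : Nr ^ 4 ≤ Real.sqrt H := by
    apply Real.le_sqrt_of_sq_le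
    calc (Nr ^ 4) ^ 2 = Nr ^ 8 := by ring
      _ ≤ H := hH8
  calc 16 * (1 + m * (4 * D * Nr ^ 2 * E) * ci) ^ (2 * N) ≤ 16 * (Nr ^ 14 * E) ^ (2 * N) := by linarith
    _ ≤ Real.exp (Nr ^ 4) := h4
    _ ≤ Real.exp (Real.sqrt H) := Real.exp_le_exp.2 h5

theorem Crc_one {r D A C2 lB : ℝ} (hr : r ≤ 1 / 16) (hD : 1 ≤ D) (hA : 1 ≤ A) (hC : 1 ≤ C2) (hl : 1 ≤ lB) :
    r / (256 * D) / (64 * A * C2 * lB) ≤ 1 := by
  have h1 : 1 ≤ A * C2 := one_le_mul_of_one_le_of_one_le hA hC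
  have h2 : 1 ≤ A * C2 * lB := one_le_mul_of_one_le_of_one_le h1 hl
  have h3 : 1 ≤ D * (A * C2 * lB) := one_le_mul_of_one_le_of_one_le hD h2
  have h4 : 256 * D * (64 * A * C2 * lB) = 16384 * (D * (A * C2 * lB)) := by ring
  rw [div_div, h4, div_le_one (by linarith)]
  linarith

open Classical in
theorem coreGc (A : ℕ) (hA : 1 ≤ A) {r : ℝ} (hr : 0 < r) (hr1 : r ≤ 1 / 16) : ∃ c0 : ℝ, 0 < c0 ∧ ∃ x0 : ℝ, 1 ≤ x0 ∧ ∀ x : ℝ, x0 ≤ x →
    ∀ (ι : Type) [Fintype ι] [DecidableEq ι] (W K Q0 T : ℕ) (cc : ι → ℕ),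
      Real.log x ≤ K → (K : ℝ) ≤ Real.log x ^ A → Fm W K Q0 cc → Real.log W ≤ 1 / 2 * (K * Real.log K) → (Fintype.card ι : ℝ) ≤ c0 * Real.log x →
      x ^ (7 / 10 : ℝ) ≤ T → (Q0 : ℝ) * T ≤ x ^ A → (∀ i, (cc i : ℝ) ≤ x ^ A) →
      (T : ℝ) ≤ Real.exp (Real.sqrt (Real.log x)) *
        (((range T).filter (fun t => ∀ i, ∃ p : ℕ, p.Prime ∧ (p : ℝ) ≤ x ^ r ∧ p ∣ Q0 * t + cc i)).card : ℝ) := by
  obtain ⟨D, hD, hwbu⟩ := wbu
  obtain ⟨C, hco⟩ := coV
  obtain ⟨C2, hC2, hvv1⟩ := vv1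
  obtain ⟨C3, hC3, hvvl⟩ := vv_low
  obtain ⟨N1, hepu⟩ := epu hD hC3
  obtain ⟨m1, hnum2⟩ := num2
  have hD0 : 0 < D := by linarith
  have hC20 : 0 < C2 := by linarith
  obtain ⟨B, hB16, hB8⟩ : ∃ B : ℕ, 16 ≤ B ∧ 8 * D ^ 2 ≤ (B : ℝ) := by
    refine ⟨⌈8 * D ^ 2⌉₊ + 16, by omega, ?_⟩
    push_cast
    linarith [Nat.le_ceil (8 * D ^ 2)]
  have hBr : (16 : ℝ) ≤ B := by exact_mod_cast hB16
  have hB0 : (0 : ℝ) < B := by linarith
  have hlB : 0 < Real.log B := Real.log_pos (by linarith)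
  have hAr : (1 : ℝ) ≤ A := by exact_mod_cast hA
  obtain ⟨rr, hrr⟩ : ∃ n : ℕ, 2 / r ≤ (n : ℝ) := ⟨⌈2 / r⌉₊, Nat.le_ceil _⟩
  obtain ⟨H0, hH0⟩ := mch B (N1 + m1 + 40 + 240 * C + 18 * A + rr + ⌈4 * D⌉₊) (by omega)
  refine ⟨r / (256 * D) / (64 * A * C2 * Real.log B), by positivity, Real.exp (max H0 1), ?_, ?_⟩
  · exact Real.one_le_exp (by positivity)
  intro x hx ι _ _ W K Q0 T cc hK1 hK2 hFm hWK hcard hT hQT hccA
  have hx0 : 0 < x := (Real.exp_pos _).trans_le hx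
  have hH : max H0 1 ≤ Real.log x := (Real.le_log_iff_exp_le hx0).2 hx
  obtain ⟨m, hm, hB1, hB2⟩ := hH0 (Real.log x) ((le_max_left _ _).trans hH)
  have hHpos : 1 ≤ Real.log x := (le_max_right _ _).trans hH
  have hx1 : 1 ≤ x := by
    rw [← Real.log_nonneg_iff hx0]
    linarith
  have hceil := Nat.le_ceil (4 * D)
  set H := Real.log x with hHdef
  obtain ⟨N, hN⟩ : ∃ N : ℕ, N = B ^ (2 * m) := ⟨_, rfl⟩
  obtain ⟨hmN, hN8, hN9, hlH⟩ := Cor_B hB16 (by omega) hN hB1 hB2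
  have hNbig : N1 + m1 + 40 + 240 * C + 18 * A + rr + ⌈4 * D⌉₊ ≤ N := by omega
  have hN2 : 8 ≤ N := by omega
  have hNr : (8 : ℝ) ≤ N := by exact_mod_cast hN2
  have hN0 : (0 : ℝ) < N := by linarith
  have hm1 : 1 ≤ m := by omega
  have hmr : (0 : ℝ) < m := by exact_mod_cast hm1
  obtain ⟨ε, hε⟩ : ∃ ε : ℝ, ε = 1 / (N : ℝ) ^ 2 := ⟨_, rfl⟩
  have hε0 : 0 < ε := by rw [hε]; positivity
  have hBm : (0 : ℝ) < (B : ℝ) ^ m := by positivity
  obtain ⟨v, hv⟩ : ∃ v : ℝ, v = 1 / (B : ℝ) ^ m := ⟨_, rfl⟩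
  have hv0 : 0 < v := by rw [hv]; positivity
  have hBm16 : (B : ℝ) ≤ (B : ℝ) ^ m := by
    calc (B : ℝ) = (B : ℝ) ^ 1 := (pow_one _).symm
      _ ≤ (B : ℝ) ^ m := pow_le_pow_right₀ (by linarith) hm1
  have hv16 : v ≤ 1 / 16 := by
    rw [hv]
    exact one_div_le_one_div_of_le (by norm_num) (by linarith)
  -- powers of N
  have hεH : (N : ℝ) ^ 6 ≤ ε * H := by
    rw [hε, one_div, inv_mul_eq_div, le_div_iff₀ (by positivity)]
    refine le_trans (le_of_eq ?_) hN8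
    ring
  have hN6 : (2 : ℝ) ≤ (N : ℝ) ^ 6 := by
    calc (2 : ℝ) ≤ 8 ^ 6 := by norm_num
      _ ≤ (N : ℝ) ^ 6 := pow_le_pow_left₀ (by norm_num) hNr 6
  have h2ε : 2 ≤ ε * Real.log x := hN6.trans hεH
  have hvr : v ≤ r := by
    -- 1/B^m ≤ r since B^m ≥ m ≥ 2/r
    have h1 : (m : ℝ) ≤ (B : ℝ) ^ m := by
      have h2 : m < 2 ^ m := Nat.lt_two_pow_self
      have h3 : 2 ^ m ≤ B ^ m := Nat.pow_le_pow_left (by omega) _
      have h4 : m ≤ B ^ m := by omega
      exact_mod_cast h4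
    have h5 : 2 / r ≤ (m : ℝ) := by
      refine hrr.trans ?_
      have : rr ≤ m := by omega
      exact_mod_cast this
    have h6 : 1 / r ≤ (B : ℝ) ^ m := by
      have : 1 / r ≤ 2 / r := div_le_div_of_nonneg_right (by norm_num) hr.le
      linarith
    rw [hv, one_div_le hBm hr]
    exact h6
  have hεv : ε ≤ v := by
    rw [hε, hv]
    apply one_div_le_one_div_of_le hBm
    rw [hN]
    push_cast
    rw [← pow_mul]
    exact pow_le_pow_right₀ (by linarith) (by omega)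
  set w : ℕ → ℝ := vs B m v with hw
  have hB1' : 1 ≤ B := by omega
  have hw1 : 0 < w 1 := CoB_vs_pos hB1' hv0 le_rfl
  have hwm : Monotone w := vs_mono hB1' hv0.le
  have hw0 : ∀ a, 0 ≤ w a := vs_nonneg hv0.le
  have hwv : ∀ a, w a ≤ v := vs_le hB1' hv0.le
  have hwz : w 0 = 0 := by simp [hw, vs]
  have hw1N : 1 / (N : ℝ) ≤ w 1 := by
    have e1 : w 1 = v / (B : ℝ) ^ (m - 1) := by simp [hw, vs]
    rw [e1, hv, hN, div_div]
    push_cast
    apply one_div_le_one_div_of_le (by positivity)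
    rw [← pow_add]
    exact pow_le_pow_right₀ (by linarith) (by omega)
  have hεw : ε ≤ w 1 / (4 * D) := by
    rw [le_div_iff₀ (by positivity)]
    refine le_trans ?_ hw1N
    rw [hε, one_div_mul_eq_div, div_le_div_iff₀ (by positivity) hN0]
    have h1 : 4 * D ≤ N := by
      refine hceil.trans ?_
      have : ⌈4 * D⌉₊ ≤ N := by omega
      exact_mod_cast this
    nlinarith
  obtain ⟨z1, z2, z3, z4⟩ := zfu hx1 h2ε
  obtain ⟨r1, r2, r3, r4⟩ := zfu (ε := r) hx1 (h2ε.trans (mul_le_mul_of_nonneg_right (hεv.trans hvr) (by linarith)))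
  have hzK0 : K ≤ zf ε x := by
    have h1 : (K : ℝ) ≤ zf ε x := by
      refine hK2.trans (le_trans ?_ z3)
      rw [← Real.log_le_iff_le_exp (by positivity), Real.log_pow]
      have h2 : Real.log H ≤ 9 * N := by
        have h3 : Real.log H ≤ Real.log ((N : ℝ) ^ 9) := Real.log_le_log (by linarith) hN9
        rw [Real.log_pow] at h3
        have h4 : Real.log N ≤ N := (Real.log_le_sub_one_of_pos hN0).trans (by linarith)
        push_cast at h3
        linarith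
      have h5 : (A : ℝ) * Real.log H ≤ A * (9 * N) := mul_le_mul_of_nonneg_left h2 (by linarith)
      have h6 : ε / 2 * Real.log x = ε * H / 2 := by ring
      rw [h6]
      have h7 : 18 * (A : ℝ) ≤ N := by
        have : 18 * A ≤ N := by omega
        exact_mod_cast this
      have h8 : (N : ℝ) * N ≤ (N : ℝ) ^ 6 := by
        rw [← pow_two]
        exact pow_le_pow_right₀ (by linarith) (by norm_num)
      nlinarith
    exact_mod_cast h1
  obtain ⟨w1, w2, w3, w4⟩ := hwbu W B m v r ε x hFm.Wpos (cond_mono (by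
      have : (1 : ℝ) ≤ K := hHpos.trans hK1
      exact_mod_cast this) hzK0 hWK) hB8 hm1 hv0 (by linarith) hr (by linarith) hε0 hεw (hεv.trans hvr) hx1 h2ε
  set z := zf ε x with hz
  set R := zf r x with hR
  set Z : ℕ → ℕ := fun a => zf (w a) x with hZ
  have hzK : K ≤ z := hzK0
  have hKN : 8 * N + 8 ≤ K := by
    have h1 : ((8 * N + 8 : ℕ) : ℝ) ≤ K := by
      refine le_trans ?_ hK1
      refine le_trans ?_ hN8
      push_cast
      have h2 : (N : ℝ) ^ 2 * (N : ℝ) ^ 6 = (N : ℝ) ^ 8 := by ring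
      rw [← h2]
      have h3 : 8 * (N : ℝ) + 8 ≤ (N : ℝ) ^ 2 * 2 := by nlinarith
      exact h3.trans (mul_le_mul_of_nonneg_left hN6 (by positivity))
    exact_mod_cast h1
  have hVV1 : 0 < VV W K z 1 := vv_pos (by omega)
  set μ : ℝ := (Fintype.card ι : ℝ) * VV W K z 1 with hμ
  have hμ0 : 0 ≤ μ := by positivity
  have hμU : μ ≤ r * m * (N : ℝ) ^ 2 / (256 * D) := by
    have h1 := hvv1 W K z (by omega) hzK hFm.Wpos hWK
    have h2 : Real.log K ≤ A * (32 * m * Real.log B) := by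
      have h3 : Real.log K ≤ Real.log (H ^ A) := by
        refine Real.log_le_log ?_ hK2
        have : 0 < K := by omega
        exact_mod_cast this
      rw [Real.log_pow] at h3
      exact h3.trans (mul_le_mul_of_nonneg_left hlH (by linarith))
    have hlz : 0 < Real.log z := lt_of_lt_of_le (by positivity) z1
    have h4 : VV W K z 1 ≤ C2 * (A * (32 * m * Real.log B)) / (ε / 2 * Real.log x) := by
      refine h1.trans ?_
      apply div_le_div₀ (by positivity) (mul_le_mul_of_nonneg_left h2 hC20.le) (by positivity) z1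
    rw [hμ]
    calc (Fintype.card ι : ℝ) * VV W K z 1 ≤ (r / (256 * D) / (64 * A * C2 * Real.log B) * H) *
          (C2 * (A * (32 * m * Real.log B)) / (ε / 2 * Real.log x)) := mul_le_mul hcard h4 hVV1.le (by positivity)
      _ = r * m * (N : ℝ) ^ 2 / (256 * D) := by
          rw [hε, ← hHdef]
          field_simp
          ring
  have hμN : μ ≤ m * (N : ℝ) ^ 2 := by
    refine hμU.trans ?_
    rw [div_le_iff₀ (by positivity)]
    have h1 : 0 ≤ (m : ℝ) * (N : ℝ) ^ 2 := by positivity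
    nlinarith
  -- the coefficients
  obtain ⟨cφ, hc0, hcE, hs1, -, hs3⟩ := CoB_f0 (m := m) hm1 (w := w) (W := wA Z (primorial z * W)) (v1 := w 1) (E := 4 * D * ε)
    hw1 (fun a ha => hwm (Finset.mem_Icc.1 ha).1) (by positivity) (fun a ha => w1 a ha)
  set f0 : ℕ → ℝ := fun a => if a = 0 then 0 else cφ / w a with hf0
  have hf0' : ∀ a ∈ Icc 1 m, f0 a = cφ / w a := by
    intro a ha
    have := (Finset.mem_Icc.1 ha).1
    simp only [hf0]
    rw [if_neg (by omega)]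
  have hf0n : ∀ a, 0 ≤ f0 a := by
    intro a
    simp only [hf0]
    split_ifs
    · exact le_rfl
    · exact div_nonneg hc0.le (hw0 a)
  have hf0le : ∀ a, |f0 a| ≤ 1 := by
    intro a
    rw [abs_of_nonneg (hf0n a)]
    simp only [hf0]
    split_ifs with ha
    · norm_num
    · have hwa : w 1 ≤ w a := hwm (by omega)
      have hwa0 : 0 < w a := lt_of_lt_of_le hw1 hwa
      rw [div_le_one hwa0]
      refine le_trans ?_ hwa
      refine hcE.trans ?_
      rw [div_le_iff₀ hmr]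
      have h1 : ε * (4 * D) ≤ w 1 := by rwa [le_div_iff₀ (by positivity)] at hεw
      have h2 : (1 : ℝ) ≤ m := by exact_mod_cast hm1
      calc 4 * D * ε = ε * (4 * D) := by ring
        _ ≤ w 1 := h1
        _ ≤ w 1 * m := le_mul_of_one_le_right hw1.le h2
  have hsum1 : ∑ a ∈ Icc 1 m, f0 a * wA Z (primorial z * W) a = 1 := by
    rw [← hs1]
    exact Finset.sum_congr rfl fun a ha => by rw [hf0' a ha]
  have hsum3 : ∑ a ∈ Icc 1 m, f0 a ^ 2 * wA Z (primorial z * W) a * w a = cφ := by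
    refine Eq.trans ?_ hs3
    exact Finset.sum_congr rfl fun a ha => by rw [hf0' a ha]
  have hxz : x ≤ (z : ℝ) ^ (2 * N ^ 2) := by
    calc x = Real.exp (ε / 2 * Real.log x) ^ (2 * N ^ 2) := by
          rw [← Real.exp_nat_mul, hε]
          push_cast
          have e1 : 2 * (N : ℝ) ^ 2 * (1 / (N : ℝ) ^ 2 / 2 * Real.log x) = Real.log x := by
            field_simp
          rw [e1, Real.exp_log hx0]
      _ ≤ (z : ℝ) ^ (2 * N ^ 2) := pow_le_pow_left₀ (Real.exp_pos _).le z3 _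
  have hzfM : ∀ e : ℝ, e ≤ 1 → zf e x ≤ z ^ (2 * N ^ 2) := by
    intro e he
    have h1 : (zf e x : ℝ) ≤ x := by
      refine (zf_le hx0.le).trans ?_
      calc x ^ e ≤ x ^ (1 : ℝ) := Real.rpow_le_rpow_of_exponent_le hx1 he
        _ = x := Real.rpow_one x
    have h2 : (zf e x : ℝ) ≤ ((z ^ (2 * N ^ 2) : ℕ) : ℝ) := by
      push_cast
      exact h1.trans hxz
    exact_mod_cast h2
  have hw1' : ∀ a, w a ≤ 1 := fun a => (hwv a).trans (by linarith)
  have hΓ1 : 1 ≤ 2 * D / ε := by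
    rw [le_div_iff₀ hε0]
    have : ε ≤ 1 := hεv.trans (by linarith)
    linarith
  have hT1 : 1 ≤ T := by
    have h1 : (1 : ℝ) ≤ T := (Real.one_le_rpow hx1 (by norm_num)).trans hT
    exact_mod_cast h1
  have hV := hvvl W K z (2 * N + 1) (by omega) (by omega) hzK
  have hsys : SysU C N m (2 * N ^ 2) W K z Q0 T R (N ^ 2 / 60) Z w f0 (1 / 8) (2 * D / ε) (x ^ (1 / 8 : ℝ))
      ((Real.exp (-((N ^ 2 / 60 : ℕ) : ℝ)) + 9 * (2 * (N : ℝ) + 1) ^ 2 / z) * (4 * (2 * D / ε) ^ 5) ^ (2 * N + 1) +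
        (z : ℝ) ^ (3 * (4 * (N ^ 2 / 60) + 10)) * (4 * (2 * D / ε) ^ 2) ^ (2 * N + 1) *
        ((x ^ (1 / 8 : ℝ)) ^ 2 * (R : ℝ) ^ 2) / (T * VV W K z (2 * N + 1))) cc := by
    refine ⟨hFm, by omega, hKN, hzK, ?_, ?_, ?_, ?_, ?_, by omega, ?_, hT1, hΓ1, ?_, w3, hf0le, ?_, ?_, le_rfl⟩
    · rw [Nat.le_div_iff_mul_le (by norm_num)]
      have h1 : 240 * C ≤ N := by omega
      nlinarith
    · simp only [hZ, hwz]
      exact zf_zero x
    · intro a b hab
      exact zf_mono hx1 (hwm hab)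
    · intro a _
      exact hzfM _ (hw1' a)
    · exact hzfM _ (by linarith)
    · have h1 : ((2 * (2 * N ^ 2) : ℕ) : ℝ) ≤ z := by
        refine le_trans ?_ z3
        have h2 := Real.add_one_le_exp (ε / 2 * Real.log x)
        refine le_trans ?_ h2
        have h3 : ε / 2 * Real.log x = ε * H / 2 := by ring
        rw [h3]
        push_cast
        have h4 : (N : ℝ) ^ 2 * (N : ℝ) ^ 4 = (N : ℝ) ^ 6 := by ring
        have h5 : (8 : ℝ) ≤ (N : ℝ) ^ 4 := by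
          calc (8 : ℝ) ≤ 8 ^ 4 := by norm_num
            _ ≤ (N : ℝ) ^ 4 := pow_le_pow_left₀ (by norm_num) hNr 4
        have h6 : 8 * (N : ℝ) ^ 2 ≤ (N : ℝ) ^ 6 := by
          rw [← h4, mul_comm]
          exact mul_le_mul_of_nonneg_left h5 (by positivity)
        linarith
      exact_mod_cast h1
    · intro a ha
      exact w2 a ha
    · exact Real.one_le_rpow hx1 (by norm_num)
    · intro n hn
      unfold Cf at hn
      rw [Finset.mem_filter] at hn
      calc ∏ i, (Z (n i) : ℝ) ≤ ∏ i, x ^ (w (n i)) := by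
            refine Finset.prod_le_prod (fun i _ => Nat.cast_nonneg _) fun i _ => zf_le hx0.le
        _ = x ^ (∑ i, w (n i)) := (Real.rpow_sum_of_pos hx0 _ _).symm
        _ ≤ x ^ (1 / 8 : ℝ) := Real.rpow_le_rpow_of_exponent_le hx1 hn.2.2
  have hη := hepu N (by omega) m z R T x μ (VV W K z (2 * N + 1)) hx1 hN8 hN9 hmN hμ0 hμN
    (by rw [← hε]; exact zf_le hx0.le) (by rw [← hε]; exact z3)
    ((zf_le hx0.le).trans (Real.rpow_le_rpow_of_exponent_le hx1 hr1)) hT hV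
  rw [← hε] at hη
  have hzR : z ≤ R := zf_mono hx1 (hεv.trans hvr)
  have hZR : ∀ a ≤ m, Z a ≤ R := fun a _ => zf_mono hx1 ((hwv a).trans hvr)
  have hres := hco ι C N m (2 * N ^ 2) (2 * N ^ 2 * (A + 1)) W K z Q0 T R (N ^ 2 / 60) R Z w f0 (1 / 8) v ((B : ℝ) ^ m) (2 * D / ε)
    (x ^ (1 / 8 : ℝ)) _ cc le_rfl hsys hw0 hwz (fun a _ => hwv a) (by
      intro a ha
      have h1 : w 1 ≤ w a := hwm (Finset.mem_Icc.1 ha).1
      have h2 : (N : ℝ) * (1 / N) ≤ N * w a := mul_le_mul_of_nonneg_left (hw1N.trans h1) hN0.le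
      have h3 : (N : ℝ) * (1 / N) = 1 := by field_simp
      linarith) (by norm_num) hBm.le hf0n hsum1 le_rfl hzR hZR hη (by
      refine Cor_num (D := D) (r := r) (Nr := N) (m := m) (cφ := cφ) hD hr (by linarith) hN0 hmr ?_ ?_ hμ0 hμU hc0 ?_ hBm.le
        (Cor_S hBm.le ?_ ?_ hsum3) (by linarith) rfl (hnum2 m B (by omega) (by omega))
      · have hGG : 1 ≤ GG (primorial z * W) R := gg_ge_one _ (by omega)
        exact div_nonneg (by norm_num) (by linarith)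
      · rw [← hε]
        exact w4
      · rw [← hε]
        exact hcE
      · intro a ha
        refine ⟨hw0 a, ?_⟩
        calc (B : ℝ) ^ m * w a ≤ (B : ℝ) ^ m * v := mul_le_mul_of_nonneg_left (hwv a) hBm.le
          _ = 1 := by rw [hv]; field_simp
      · intro a _
        exact wA_nonneg _ (fun a b hab => zf_mono hx1 (hwm hab)) a) (by
      intro i t ht
      have h3 : ((Q0 * t + cc i : ℕ) : ℝ) ≤ ((z ^ (2 * N ^ 2 * (A + 1)) : ℕ) : ℝ) := by
        push_cast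
        have h1 : (t : ℝ) ≤ T := by exact_mod_cast ht.le
        have h2 : (Q0 : ℝ) * t ≤ Q0 * T := mul_le_mul_of_nonneg_left h1 (Nat.cast_nonneg _)
        have h4 := hccA i
        have h6 : 1 ≤ x ^ A := one_le_pow₀ hx1
        have h7 : (2 : ℝ) ≤ x := by
          have a1 := Real.log_le_sub_one_of_pos hx0
          have a2 : ε * H ≤ 1 * H := mul_le_mul_of_nonneg_right (hεv.trans (by linarith)) (by linarith)
          have a3 : (N : ℝ) ^ 6 ≤ H := by linarith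
          linarith
        have h8 : x ^ A * 2 ≤ x ^ A * x := mul_le_mul_of_nonneg_left h7 (by linarith)
        have h9 : x ^ (A + 1) ≤ (z : ℝ) ^ (2 * N ^ 2 * (A + 1)) := by
          rw [pow_mul]
          exact pow_le_pow_left₀ hx0.le hxz _
        have h10 : x ^ (A + 1) = x ^ A * x := pow_succ x A
        linarith
      exact_mod_cast h3)
  have hfin : 16 * (1 + (m : ℝ) * (2 * (2 * D / ε) * 2 ^ (2 * N ^ 2 * (A + 1))) * (Fintype.card ι : ℝ)) ^ (2 * N) ≤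
      Real.exp (Real.sqrt H) := by
    refine Crc_num (Nr := (N : ℝ)) (A := A) hD rfl (by omega) ?_ (Nat.cast_nonneg _) ?_ (Nat.cast_nonneg _) ?_ hN9 hN8 hε
    · refine hceil.trans ?_
      have : ⌈4 * D⌉₊ ≤ N := by omega
      exact_mod_cast this
    · have hmN' : m ≤ N := by omega
      exact_mod_cast hmN'
    · refine hcard.trans ?_
      have hlB1 : 1 ≤ Real.log B := by
        rw [Real.le_log_iff_exp_le hB0]
        have := Real.exp_one_lt_d9
        linarith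
      have h1 := Crc_one hr1 hD hAr hC2 hlB1
      have h2 : r / (256 * D) / (64 * A * C2 * Real.log B) * H ≤ 1 * H := mul_le_mul_of_nonneg_right h1 (by linarith)
      linarith
  refine hres.trans ?_
  have hsub : ((range T).filter (fun t => ∀ i, ∃ p : ℕ, p.Prime ∧ p ≤ R ∧ p ∣ Q0 * t + cc i)) ⊆
      ((range T).filter (fun t => ∀ i, ∃ p : ℕ, p.Prime ∧ (p : ℝ) ≤ x ^ r ∧ p ∣ Q0 * t + cc i)) := by
    intro t ht
    rw [Finset.mem_filter] at ht ⊢
    refine ⟨ht.1, fun i => ?_⟩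
    obtain ⟨p, hp1, hp2, hp3⟩ := ht.2 i
    refine ⟨p, hp1, ?_, hp3⟩
    calc (p : ℝ) ≤ R := by exact_mod_cast hp2
      _ ≤ x ^ r := zf_le hx0.le
  refine mul_le_mul hfin (by exact_mod_cast Finset.card_le_card hsub) (Nat.cast_nonneg _) (Real.exp_pos _).le

end H52GS
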