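import Pool.Agent.H52.GS.Df

/-!
# CRT: counting with prescribed divisors

For `p ∈ P` (`p > K`, so `p ∤ Q0`) the condition `∃ i, p ∣ Q0 t + c i` means that `t` is in one of `card ι` residue classes modulo `p`, which are different: `p ∣ c i - c i'` is
impossible for `i ≠ i'`, as `0 < |c i - c i'| ≤ K < p`. `D i ∣ Q0 t + c i` is one class modulo `D i` (`D i` is coprime to `primorial z * W`, so its prime factors are `> z ≥ K`, hence coprime to `Q0`). The
numbers `p ∈ P` (`p ≤ z`) and `D i` are pairwise coprime. By the Chinese remainder theorem the condition is that `t` is in one of `(card ι)^|P|` classes modulo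
`W = ∏_{p ∈ P} p ∏ D i`, and each class contains `T/W + O(1)` numbers `t < T` (error at most `1`: `⌊T/W⌋` or `⌈T/W⌉`, `Nat.count_modEq_card`).
-/

open Finset EG H69PG

namespace H52GS

theorem Crt_lin {Q m c : ℕ} (hm : 0 < m) (hQ : Nat.Coprime m Q) :
    ∃ r : ℕ, ∀ t : ℕ, m ∣ Q * t + c ↔ t ≡ r [MOD m] := by
  have hu : IsUnit ((Q : ℕ) : ZMod m) := by
    rw [ZMod.isUnit_iff_coprime]
    exact hQ.symm
  obtain ⟨u, hu⟩ := hu
  have : NeZero m := ⟨hm.ne'⟩
  refine ⟨(-(↑u⁻¹ : ZMod m) * (c : ZMod m)).val, fun t => ?_⟩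
  rw [← ZMod.natCast_eq_natCast_iff, ZMod.natCast_val, ZMod.cast_id, ← ZMod.natCast_eq_zero_iff]
  push_cast
  rw [← hu]
  constructor
  · intro h
    have h2 : (u : ZMod m) * (t : ZMod m) = -(c : ZMod m) := by
      rw [eq_neg_iff_add_eq_zero]; exact h
    calc (t : ZMod m) = (↑u⁻¹ : ZMod m) * ((u : ZMod m) * (t : ZMod m)) := by
          rw [← mul_assoc, Units.inv_mul, one_mul]
      _ = _ := by rw [h2]; ring
  · intro h
    rw [h]
    calc (u : ZMod m) * (-(↑u⁻¹ : ZMod m) * (c : ZMod m)) + (c : ZMod m)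
        = -((u : ZMod m) * (↑u⁻¹ : ZMod m)) * (c : ZMod m) + (c : ZMod m) := by ring
      _ = 0 := by rw [Units.mul_inv]; ring

theorem Crt_sys {ι : Type} [Fintype ι] {Q : ℕ} {c m : ι → ℕ} (hm : ∀ i, 0 < m i)
    (hQ : ∀ i, Nat.Coprime (m i) Q) (hco : ∀ i j, i ≠ j → Nat.Coprime (m i) (m j)) :
    ∃ r : ℕ, ∀ t : ℕ, (∀ i, m i ∣ Q * t + c i) ↔ t ≡ r [MOD ∏ i, m i] := by
  classical
  choose r hr using fun i => Crt_lin (c := c i) (hm i) (hQ i)
  obtain ⟨k, hk⟩ := Nat.chineseRemainderOfFinset r m Finset.univ (fun i _ => (hm i).ne')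
    (fun i _ j _ hij => hco i j hij)
  refine ⟨k, fun t => ?_⟩
  constructor
  · intro h
    rw [Nat.modEq_iff_dvd]
    push_cast
    apply Finset.prod_dvd_of_coprime
    · intro i _ j _ hij
      exact Nat.isCoprime_iff_coprime.2 (hco i j hij)
    · intro i _
      have h1 : t ≡ r i [MOD m i] := (hr i t).1 (h i)
      have h2 : k ≡ r i [MOD m i] := hk i (Finset.mem_univ _)
      exact (Nat.modEq_iff_dvd.1 (h1.trans h2.symm))
  · intro h i
    rw [hr i t]
    have h2 : k ≡ r i [MOD m i] := hk i (Finset.mem_univ _)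
    exact (h.of_dvd (Finset.dvd_prod_of_mem m (Finset.mem_univ i))).trans h2

theorem Crt_count {W : ℕ} (hW : 0 < W) (r T : ℕ) :
    |(((range T).filter (fun t => t ≡ r [MOD W])).card : ℝ) - (T : ℝ) / W| ≤ 1 := by
  have h1 : ((range T).filter (fun t => t ≡ r [MOD W])).card = Nat.count (· ≡ r [MOD W]) T := by
    rw [Nat.count_eq_card_filter_range]
  rw [h1, Nat.count_modEq_card T hW r]
  have h2 : (T : ℝ) = W * (T / W : ℕ) + (T % W : ℕ) := by
    exact_mod_cast (Nat.div_add_mod T W).symm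
  have hW' : (0 : ℝ) < W := by exact_mod_cast hW
  have h3 : (T : ℝ) / W = (T / W : ℕ) + (T % W : ℕ) / W := by
    rw [h2, add_div, mul_div_cancel_left₀ _ hW'.ne']
  have h4 : (0 : ℝ) ≤ (T % W : ℕ) / W := by positivity
  have h5 : ((T % W : ℕ) : ℝ) / W ≤ 1 := by
    rw [div_le_one hW']
    exact_mod_cast (Nat.mod_lt T hW).le
  rw [h3]
  push_cast
  rw [abs_le]
  split_ifs <;> constructor <;> linarith

open Classical in
theorem crt {ι : Type} [Fintype ι] [DecidableEq ι] {W K z Q0 : ℕ} (hKz : K ≤ z) {c : ι → ℕ} (h : Fm W K Q0 c) (T : ℕ)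
    (D : ι → ℕ) (hD : ∀ i, Squarefree (D i) ∧ Nat.Coprime (D i) (primorial z * W))
    (hco : ∀ i i', i ≠ i' → Nat.Coprime (D i) (D i')) (P : Finset ℕ) (hP : P ⊆ PK W K z) :
    |(((range T).filter (fun t => (∀ i, D i ∣ Q0 * t + c i) ∧ ∀ p ∈ P, ∃ i, p ∣ Q0 * t + c i)).card : ℝ) -
        (T : ℝ) / (∏ i, (D i : ℝ)) * ∏ p ∈ P, ((Fintype.card ι : ℝ) / p)| ≤ (Fintype.card ι : ℝ) ^ P.card := by
  have hPp : ∀ p ∈ P, p.Prime ∧ K < p ∧ p ≤ z := by
    intro p hp
    have := hP hp
    rw [PK, Finset.mem_filter, Finset.mem_Ioc] at this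
    exact ⟨this.2.1, this.1.1, this.1.2⟩
  have hDP : ∀ i, ∀ p ∈ P, Nat.Coprime (D i) p := by
    intro i p hp
    obtain ⟨h1, h2, h3⟩ := hPp p hp
    exact Nat.Coprime.coprime_dvd_right (((h1.dvd_primorial_iff).2 h3).mul_right W) (hD i).2
  have hDQ : ∀ i, Nat.Coprime (D i) Q0 := by
    intro i
    apply Nat.Coprime.symm
    apply Nat.coprime_of_dvd
    intro q hq hqQ hqD
    have h1 : q ∣ primorial z * W := by
      by_cases hqK : q ≤ K
      · exact ((hq.dvd_primorial_iff).2 (hqK.trans hKz)).mul_right W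
      · exact (h.pr q hq hqQ (by omega)).mul_left _
    have h2 : Nat.Coprime (D i) q := Nat.Coprime.coprime_dvd_right h1 (hD i).2
    have h3 := Nat.Coprime.eq_one_of_dvd h2.symm hqD
    exact hq.one_lt.ne' h3
  have hPQ : ∀ p ∈ P, Nat.Coprime p Q0 := by
    intro p hp
    obtain ⟨h1, h2, h3⟩ := hPp p hp
    rw [h1.coprime_iff_not_dvd]
    intro h4
    have h5 := h.pr p h1 h4 h2
    have h6 := hP hp
    rw [PK, Finset.mem_filter] at h6
    exact h6.2.2 h5
  have huniq : ∀ p ∈ P, ∀ t : ℕ, ∀ i j, p ∣ Q0 * t + c i → p ∣ Q0 * t + c j → i = j := by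
    intro p hp t i j hi hj
    obtain ⟨h1, h2, h3⟩ := hPp p hp
    by_contra hij
    have h4 : ((p : ℕ) : ℤ) ∣ (c i : ℤ) - c j := by
      have e : (c i : ℤ) - c j = ((Q0 * t + c i : ℕ) : ℤ) - ((Q0 * t + c j : ℕ) : ℤ) := by
        push_cast; ring
      rw [e]
      exact dvd_sub (by exact_mod_cast hi) (by exact_mod_cast hj)
    have h5 := h.df i j hij p h1 h2 h4
    have h6 := hP hp
    rw [PK, Finset.mem_filter] at h6
    exact h6.2.2 h5
  -- the moduli for a choice function
  set m : (P → ι) → ι → ℕ := fun e i => D i * ∏ p ∈ Finset.univ.filter (fun p : P => e p = i), (p : ℕ)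
    with hm
  have hmpos : ∀ e i, 0 < m e i := by
    intro e i
    apply Nat.mul_pos
    · exact Nat.pos_of_ne_zero (hD i).1.ne_zero
    · exact Finset.prod_pos fun p _ => (hPp p p.2).1.pos
  have hmQ : ∀ e i, Nat.Coprime (m e i) Q0 := by
    intro e i
    apply Nat.Coprime.mul_left (hDQ i)
    exact Nat.Coprime.prod_left fun p _ => hPQ p p.2
  have hmco : ∀ e i j, i ≠ j → Nat.Coprime (m e i) (m e j) := by
    intro e i j hij
    apply Nat.Coprime.mul_left
    · apply Nat.Coprime.mul_right (hco i j hij)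
      exact Nat.Coprime.prod_right fun p _ => hDP i p p.2
    · apply Nat.Coprime.mul_right
      · apply Nat.Coprime.symm
        exact Nat.Coprime.prod_right fun p _ => hDP j p p.2
      · apply Nat.Coprime.prod_left
        intro p hp
        apply Nat.Coprime.prod_right
        intro q hq
        rw [Nat.coprime_primes (hPp p p.2).1 (hPp q q.2).1]
        intro hpq
        have hpq' : p = q := Subtype.ext hpq
        rw [Finset.mem_filter] at hp hq
        apply hij
        rw [← hp.2, ← hq.2, hpq']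
  have hmdvd : ∀ e t, (∀ i, m e i ∣ Q0 * t + c i) ↔
      ((∀ i, D i ∣ Q0 * t + c i) ∧ ∀ p : P, (p : ℕ) ∣ Q0 * t + c (e p)) := by
    intro e t
    constructor
    · intro h1
      refine ⟨fun i => (Dvd.intro _ rfl).trans (h1 i), fun p => ?_⟩
      refine dvd_trans ?_ (h1 (e p))
      apply Dvd.dvd.mul_left
      exact Finset.dvd_prod_of_mem (fun p : P => (p : ℕ)) (by simp)
    · rintro ⟨h1, h2⟩ i
      apply Nat.Coprime.mul_dvd_of_dvd_of_dvd
      · exact Nat.Coprime.prod_right fun p _ => hDP i p p.2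
      · exact h1 i
      · have h3 : ((∏ p ∈ Finset.univ.filter (fun p : P => e p = i), (p : ℕ) : ℕ) : ℤ) ∣
            ((Q0 * t + c i : ℕ) : ℤ) := by
          rw [Nat.cast_prod]
          apply Finset.prod_dvd_of_coprime
          · intro p _ q _ hpq
            apply Nat.isCoprime_iff_coprime.2
            rw [Nat.coprime_primes (hPp p p.2).1 (hPp q q.2).1]
            intro h4
            exact hpq (Subtype.ext h4)
          · intro p hp
            rw [Finset.mem_filter] at hp
            have := h2 p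
            rw [hp.2] at this
            exact_mod_cast this
        exact_mod_cast h3
  have hmprod : ∀ e, ∏ i, m e i = (∏ i, D i) * ∏ p ∈ P, p := by
    intro e
    simp only [hm]
    rw [Finset.prod_mul_distrib]
    congr 1
    rw [Finset.prod_fiberwise (s := (Finset.univ : Finset P)) (g := e) (f := fun p : P => (p : ℕ))]
    rw [Finset.prod_coe_sort P (fun p => p)]
  -- the count as a sum over choice functions
  have hcount : (((range T).filter (fun t => (∀ i, D i ∣ Q0 * t + c i) ∧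
      ∀ p ∈ P, ∃ i, p ∣ Q0 * t + c i)).card : ℝ)
      = ∑ e : P → ι, (((range T).filter (fun t => ∀ i, m e i ∣ Q0 * t + c i)).card : ℝ) := by
    rw [Finset.card_filter]
    push_cast
    have h1 : ∀ e : P → ι, (((range T).filter (fun t => ∀ i, m e i ∣ Q0 * t + c i)).card : ℝ)
        = ∑ t ∈ range T, (if ∀ i, m e i ∣ Q0 * t + c i then (1 : ℝ) else 0) := by
      intro e
      rw [Finset.card_filter]
      push_cast
      rfl
    simp only [h1]
    rw [Finset.sum_comm]
    refine Finset.sum_congr rfl fun t _ => ?_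
    by_cases hDt : ∀ i, D i ∣ Q0 * t + c i
    · by_cases hPt : ∀ p ∈ P, ∃ i, p ∣ Q0 * t + c i
      · rw [if_pos ⟨hDt, hPt⟩]
        choose g hg using hPt
        rw [Finset.sum_eq_single (fun p : P => g p p.2)]
        · rw [if_pos]
          rw [hmdvd]
          exact ⟨hDt, fun p => hg p p.2⟩
        · intro e _ he
          rw [if_neg]
          rw [hmdvd]
          rintro ⟨_, h2⟩
          apply he
          funext p
          exact huniq p p.2 t _ _ (h2 p) (hg p p.2)
        · intro h2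
          exact absurd (Finset.mem_univ _) h2
      · rw [if_neg (fun hh => hPt hh.2)]
        symm
        apply Finset.sum_eq_zero
        intro e _
        rw [if_neg]
        rw [hmdvd]
        rintro ⟨_, h2⟩
        exact hPt fun p hp => ⟨_, h2 ⟨p, hp⟩⟩
    · rw [if_neg (fun hh => hDt hh.1)]
      symm
      apply Finset.sum_eq_zero
      intro e _
      rw [if_neg]
      rw [hmdvd]
      rintro ⟨h2, _⟩
      exact hDt h2
  have hone : ∀ e : P → ι, |(((range T).filter (fun t => ∀ i, m e i ∣ Q0 * t + c i)).card : ℝ)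
      - (T : ℝ) / ((∏ i, (D i : ℝ)) * ∏ p ∈ P, (p : ℝ))| ≤ 1 := by
    intro e
    obtain ⟨r, hr⟩ := Crt_sys (c := c) (hmpos e) (hmQ e) (hmco e)
    have h1 : (range T).filter (fun t => ∀ i, m e i ∣ Q0 * t + c i)
        = (range T).filter (fun t => t ≡ r [MOD ∏ i, m e i]) := by
      apply Finset.filter_congr
      intro t _
      exact hr t
    rw [h1]
    have h2 : (∏ i, (D i : ℝ)) * ∏ p ∈ P, (p : ℝ) = ((∏ i, m e i : ℕ) : ℝ) := by
      rw [hmprod]
      push_cast
      rfl
    rw [h2]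
    exact Crt_count (Finset.prod_pos fun i _ => hmpos e i) r T
  have hcardE : (Finset.univ : Finset (P → ι)).card = Fintype.card ι ^ P.card := by
    rw [Finset.card_univ, Fintype.card_fun, Fintype.card_coe]
  have hmain : (T : ℝ) / (∏ i, (D i : ℝ)) * ∏ p ∈ P, ((Fintype.card ι : ℝ) / p)
      = ∑ e : P → ι, (T : ℝ) / ((∏ i, (D i : ℝ)) * ∏ p ∈ P, (p : ℝ)) := by
    rw [Finset.sum_const, hcardE, nsmul_eq_mul, Finset.prod_div_distrib, Finset.prod_const]
    push_cast
    have hD0 : (∏ i, (D i : ℝ)) ≠ 0 := by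
      apply Finset.prod_ne_zero_iff.2
      intro i _
      exact_mod_cast (hD i).1.ne_zero
    have hP0 : (∏ p ∈ P, (p : ℝ)) ≠ 0 := by
      apply Finset.prod_ne_zero_iff.2
      intro p hp
      exact_mod_cast (hPp p hp).1.ne_zero
    field_simp
  rw [hcount, hmain, ← Finset.sum_sub_distrib]
  calc |∑ e : P → ι, ((((range T).filter (fun t => ∀ i, m e i ∣ Q0 * t + c i)).card : ℝ)
        - (T : ℝ) / ((∏ i, (D i : ℝ)) * ∏ p ∈ P, (p : ℝ)))|
      ≤ ∑ e : P → ι, |(((range T).filter (fun t => ∀ i, m e i ∣ Q0 * t + c i)).card : ℝ)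
        - (T : ℝ) / ((∏ i, (D i : ℝ)) * ∏ p ∈ P, (p : ℝ))| := Finset.abs_sum_le_sum_abs _ _
    _ ≤ ∑ e : P → ι, (1 : ℝ) := Finset.sum_le_sum fun e _ => hone e
    _ = _ := by
        rw [Finset.sum_const, hcardE, nsmul_eq_mul, mul_one]
        push_cast
        rfl

end H52GS
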