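import Pool.Agent.H69.PG.Ar0

/-!
# MP_2497bc: the amplitude of `Pool/Agent/H69/PG` for arbitrary sets of shifts, definitions

The primes `p > K` which divide a difference `c i - c j` divide a fixed number `W`; they are removed from the sieve and from the Selberg weights.
-/

open Finset EG H69PG

namespace H52GS

/-- the primes in `(K, z]` which do not divide `W` -/
def PK (W K z : ℕ) : Finset ℕ := (Ioc K z).filter (fun p => p.Prime ∧ ¬ p ∣ W)

/-- `∏_{K < p ≤ z, p ∤ W} (1 - j/p)` -/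
noncomputable def VV (W K z j : ℕ) : ℝ := ∏ p ∈ PK W K z, (1 - (j : ℝ) / p)

open Classical in
/-- `1` if `L` has no prime factor in `(K, z]` which does not divide `W`, else `0` -/
noncomputable def th0 (W K z L : ℕ) : ℝ := if ∀ p ∈ PK W K z, ¬ p ∣ L then 1 else 0

/-- the linear forms `Q0 t + c i` -/
structure Fm {ι : Type} (W K Q0 : ℕ) (c : ι → ℕ) : Prop where
  pos : 1 ≤ Q0
  Wpos : 1 ≤ W
  pr : ∀ p : ℕ, p.Prime → p ∣ Q0 → K < p → p ∣ W
  inj : Function.Injective c
  df : ∀ i j, i ≠ j → ∀ p : ℕ, p.Prime → K < p → (p : ℤ) ∣ (c i : ℤ) - c j → p ∣ W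
  cpos : ∀ i, 1 ≤ c i

/-- the function `V` of the abstract argument -/
noncomputable def Vf {ι : Type} (N W K z : ℕ) (U : Finset ι) : ℝ := if U.card ≤ 4 * N + 2 then VV W K z U.card else 0

/-- the amplitudes -/
noncomputable def gA {ι : Type} (W K z Q0 : ℕ) (Z : ℕ → ℕ) (f0 : ℕ → ℝ) (c : ι → ℕ) (i : ι) (a t : ℕ) : ℝ :=
  if a = 0 then 1 else
    - f0 a * (th0 W K z (Q0 * t + c i) * Fn (sq (primorial z * W) (Z a)) (lamA Z (primorial z * W) a) (Q0 * t + c i))

/-- the majorant of the rough numbers -/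
noncomputable def bA {ι : Type} (W K z Q0 R : ℕ) (c : ι → ℕ) (i : ι) (t : ℕ) : ℝ :=
  th0 W K z (Q0 * t + c i) * be (primorial z * W) R (Q0 * t + c i)

end H52GS
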