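import Pool.Agent.H52.GS.Sc

/-!
# EL: means of products of divisor sums

Expand `∏_i Fn (D i) (f i) (L_i) = ∑_{B ∈ piFinset D} ∏ f_i(B_i) [B_i ∣ L_i]`. If `B_i` and `B_i'` (`i ≠ i'`) have a common prime factor `p`, then `p > z ≥ K` (coprime to `primorial z * W`), and `p ∣ L_i, L_i'` would give
`p ∣ c i - c i'`, `0 < |c i - c i'| ≤ K < p`: impossible, so these `B` contribute `0`. For pairwise coprime `B` use `sc` (with `D = B`) times `∏ f_i(B_i)`; the main terms add up to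
`T VV (Mm D f 1)`, and the sum of the errors over all pairwise coprime `B` is at most the sum over all `B`, which factors.
(`VV W K z j ≥ 0` because `2 j ≤ K`.)
-/

open Finset EG H69PG

namespace H52GS

theorem el_vv_nonneg {W K z j : ℕ} (h : 2 * j ≤ K) : 0 ≤ VV W K z j := by
  refine Finset.prod_nonneg (fun p hp => ?_)
  have hp' : K < p := by
    simp only [PK, Finset.mem_filter, Finset.mem_Ioc] at hp
    exact hp.1.1
  have h1 : (j : ℝ) ≤ p := by exact_mod_cast (by omega : j ≤ p)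
  have h2 : (0 : ℝ) < p := by exact_mod_cast (by omega : 0 < p)
  have : (j : ℝ) / p ≤ 1 := (div_le_one h2).2 h1
  linarith

open Classical in
/-- the value for the tuple `B` -/
noncomputable def elS {ι : Type} [Fintype ι] (W K z Q0 T : ℕ) (c B : ι → ℕ) : ℝ :=
  ∑ t ∈ range T, ∏ i, (th0 W K z (Q0 * t + c i) * (if B i ∣ Q0 * t + c i then 1 else 0))

theorem el_zero {ι : Type} [Fintype ι] {W K z Q0 : ℕ} {c : ι → ℕ} (hKz : K ≤ z) (hF : Fm W K Q0 c) (T : ℕ) {B : ι → ℕ}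
    (hB : ∀ i, Nat.Coprime (B i) (primorial z * W)) {i i' : ι} (hii : i ≠ i') (hnc : ¬ Nat.Coprime (B i) (B i')) :
    elS W K z Q0 T c B = 0 := by
  classical
  refine Finset.sum_eq_zero (fun t _ => ?_)
  obtain ⟨p, hp, hpi, hpi'⟩ := Nat.Prime.not_coprime_iff_dvd.1 hnc
  by_cases h1 : B i ∣ Q0 * t + c i
  · by_cases h2 : B i' ∣ Q0 * t + c i'
    · exfalso
      have hpz : z < p := by
        by_contra hle
        have hdv : p ∣ primorial z * W := ((hp.dvd_primorial_iff).2 (not_lt.1 hle)).mul_right W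
        have := Nat.dvd_gcd hpi hdv
        rw [hB i] at this
        exact hp.one_lt.ne' (Nat.dvd_one.1 this)
      have d1 : (p : ℤ) ∣ ((Q0 * t + c i : ℕ) : ℤ) := Int.natCast_dvd_natCast.2 (hpi.trans h1)
      have d2 : (p : ℤ) ∣ ((Q0 * t + c i' : ℕ) : ℤ) := Int.natCast_dvd_natCast.2 (hpi'.trans h2)
      have d3 : (p : ℤ) ∣ (c i : ℤ) - c i' := by
        have := dvd_sub d1 d2
        push_cast at this
        have e : ((Q0 : ℤ) * t + c i) - (Q0 * t + c i') = (c i : ℤ) - c i' := by ring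
        rwa [e] at this
      have h5 : p ∣ primorial z * W := (hF.df i i' hii p hp (by omega) d3).mul_left _
      have h6 := Nat.dvd_gcd hpi h5
      rw [hB i] at h6
      exact hp.one_lt.ne' (Nat.dvd_one.1 h6)
    · exact Finset.prod_eq_zero (Finset.mem_univ i') (by rw [if_neg h2, mul_zero])
  · exact Finset.prod_eq_zero (Finset.mem_univ i) (by rw [if_neg h1, mul_zero])

theorem el_expand {ι : Type} [Fintype ι] [DecidableEq ι] (W K z Q0 T : ℕ) (c : ι → ℕ) (D : ι → Finset ℕ) (f : ι → ℕ → ℝ) :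
    ∑ t ∈ range T, ∏ i, (th0 W K z (Q0 * t + c i) * Fn (D i) (f i) (Q0 * t + c i)) =
      ∑ B ∈ Fintype.piFinset D, (∏ i, f i (B i)) * elS W K z Q0 T c B := by
  classical
  have h1 : ∀ t, ∏ i, (th0 W K z (Q0 * t + c i) * Fn (D i) (f i) (Q0 * t + c i)) =
      ∑ B ∈ Fintype.piFinset D, ((∏ i, f i (B i)) *
        ∏ i, (th0 W K z (Q0 * t + c i) * (if B i ∣ Q0 * t + c i then 1 else 0))) := by
    intro t
    have h2 : ∀ i, th0 W K z (Q0 * t + c i) * Fn (D i) (f i) (Q0 * t + c i) =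
        ∑ B ∈ D i, f i B * (th0 W K z (Q0 * t + c i) * (if B ∣ Q0 * t + c i then 1 else 0)) := by
      intro i
      unfold Fn
      rw [Finset.sum_filter, Finset.mul_sum]
      refine Finset.sum_congr rfl (fun B _ => ?_)
      split_ifs <;> ring
    simp_rw [h2]
    rw [Finset.prod_univ_sum]
    refine Finset.sum_congr rfl (fun B _ => ?_)
    rw [Finset.prod_mul_distrib]
  simp_rw [h1]
  rw [Finset.sum_comm]
  refine Finset.sum_congr rfl (fun B _ => ?_)
  unfold elS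
  rw [Finset.mul_sum]

theorem el (j : ℕ) : ∃ C : ℕ, ∀ b0 : ℕ, C ≤ b0 → ∀ (ι : Type) [Fintype ι] [DecidableEq ι], Fintype.card ι = j →
    ∀ W K z Q0 : ℕ, 2 * j ≤ K → 2 ≤ K → K ≤ z → ∀ c : ι → ℕ, Fm W K Q0 c → ∀ T : ℕ, ∀ (D : ι → Finset ℕ) (f : ι → ℕ → ℝ),
    (∀ i, Good (primorial z * W) (D i)) →
    |∑ t ∈ range T, ∏ i, (th0 W K z (Q0 * t + c i) * Fn (D i) (f i) (Q0 * t + c i)) - (T : ℝ) * VV W K z j * Mm D f 1| ≤
      Real.exp (-(b0 : ℝ)) * ((T : ℝ) * VV W K z j * ∏ i, ∑ B ∈ D i, |f i B| / (B : ℝ)) +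
        (z : ℝ) ^ (3 * (4 * b0 + 10)) * ∏ i, ∑ B ∈ D i, |f i B| := by
  obtain ⟨C, hC⟩ := sc j
  refine ⟨C, ?_⟩
  intro b0 hb0 ι _ _ hcard W K z Q0 hjK hK hKz c hF T D f hD
  classical
  have hV : 0 ≤ VV W K z j := el_vv_nonneg hjK
  have hT : (0 : ℝ) ≤ T := Nat.cast_nonneg T
  set E : ℝ := Real.exp (-(b0 : ℝ)) with hE
  have hE0 : 0 ≤ E := (Real.exp_pos _).le
  set Z : ℝ := (z : ℝ) ^ (3 * (4 * b0 + 10)) with hZ
  have hZ0 : 0 ≤ Z := by positivity
  set F : Finset (ι → ℕ) := (Fintype.piFinset D).filter (fun B => ∀ i i', i ≠ i' → Nat.Coprime (B i) (B i')) with hFdef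
  have hmem : ∀ B ∈ Fintype.piFinset D, ∀ i, B i ∈ D i := fun B hB i => (Fintype.mem_piFinset.1 hB) i
  have hsum : ∑ B ∈ Fintype.piFinset D, (∏ i, f i (B i)) * elS W K z Q0 T c B =
      ∑ B ∈ F, (∏ i, f i (B i)) * elS W K z Q0 T c B := by
    symm
    refine Finset.sum_subset (Finset.filter_subset _ _) (fun B hB hBn => ?_)
    have : ¬ ∀ i i', i ≠ i' → Nat.Coprime (B i) (B i') := fun h => hBn (Finset.mem_filter.2 ⟨hB, h⟩)
    push Not at this
    obtain ⟨i, i', hii, hnc⟩ := this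
    rw [el_zero hKz hF T (fun k => (hD k (B k) (hmem B hB k)).2) hii hnc, mul_zero]
  have hMm : Mm D f 1 = ∑ B ∈ F, ∏ i, f i (B i) / (B i : ℝ) := by
    unfold Mm
    refine Finset.sum_congr ?_ (fun _ _ => rfl)
    ext B
    simp [hFdef]
  rw [el_expand, hsum, hMm, Finset.mul_sum, ← Finset.sum_sub_distrib]
  have hterm : ∀ B ∈ F, |(∏ i, f i (B i)) * elS W K z Q0 T c B - (T : ℝ) * VV W K z j * ∏ i, f i (B i) / (B i : ℝ)| ≤
      E * ((T : ℝ) * VV W K z j * ∏ i, |f i (B i)| / (B i : ℝ)) + Z * ∏ i, |f i (B i)| := by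
    intro B hB
    obtain ⟨hB1, hB2⟩ := Finset.mem_filter.1 hB
    have h1 := hC b0 hb0 ι hcard W K z Q0 hjK hK hKz c hF T B (fun i => hD i (B i) (hmem B hB1 i)) hB2
    have h2 : elS W K z Q0 T c B = ∑ t ∈ range T, ∏ i, (th0 W K z (Q0 * t + c i) * (if B i ∣ Q0 * t + c i then 1 else 0)) := rfl
    rw [← h2] at h1
    have h3 : (∏ i, f i (B i)) * elS W K z Q0 T c B - (T : ℝ) * VV W K z j * ∏ i, f i (B i) / (B i : ℝ) =
        (∏ i, f i (B i)) * (elS W K z Q0 T c B - (T : ℝ) / (∏ i, (B i : ℝ)) * VV W K z j) := by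
      rw [Finset.prod_div_distrib]
      ring
    rw [h3, abs_mul, Finset.abs_prod]
    have h4 : 0 ≤ ∏ i, |f i (B i)| := Finset.prod_nonneg (fun i _ => abs_nonneg _)
    refine (mul_le_mul_of_nonneg_left h1 h4).trans (le_of_eq ?_)
    rw [Finset.prod_div_distrib]
    ring
  refine (Finset.abs_sum_le_sum_abs _ _).trans ((Finset.sum_le_sum hterm).trans ?_)
  have hnn : ∀ B : ι → ℕ, 0 ≤ E * ((T : ℝ) * VV W K z j * ∏ i, |f i (B i)| / (B i : ℝ)) + Z * ∏ i, |f i (B i)| := by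
    intro B
    have a1 : 0 ≤ ∏ i, |f i (B i)| / (B i : ℝ) :=
      Finset.prod_nonneg (fun i _ => div_nonneg (abs_nonneg _) (Nat.cast_nonneg _))
    have a2 : 0 ≤ ∏ i, |f i (B i)| := Finset.prod_nonneg (fun i _ => abs_nonneg _)
    have := mul_nonneg hE0 (mul_nonneg (mul_nonneg hT hV) a1)
    have := mul_nonneg hZ0 a2
    linarith
  refine (Finset.sum_le_sum_of_subset_of_nonneg (Finset.filter_subset _ _) (fun B _ _ => hnn B)).trans (le_of_eq ?_)
  rw [Finset.sum_add_distrib, ← Finset.mul_sum, ← Finset.mul_sum, ← Finset.mul_sum]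
  rw [Finset.prod_univ_sum, Finset.prod_univ_sum]

end H52GS
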