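import Pool.Agent.H52.GS.Esc

/-!
# ES: balanced multisets of exponents, choice of the parameters
-/

open Finset

namespace H52GS

theorem Es_pow {κ l : ℝ} {r J : ℕ} (hr : 2 ≤ r) (hκ : 0 < κ) (hl : 0 < l)
    (hy : 4 ≤ (κ * l) ^ (1 / ((r : ℝ) - 1))) (hJ : J = ⌊(κ * l) ^ (1 / ((r : ℝ) - 1))⌋₊ - 2) :
    ((J : ℝ) + 2) ^ (r - 1) ≤ κ * l ∧ (κ * l) ^ (1 / ((r : ℝ) - 1)) / 2 ≤ (J : ℝ) + 1 ∧ (J : ℝ) + 1 ≤ κ * l := by
  have hr1 : (1 : ℝ) ≤ (r : ℝ) - 1 := by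
    have : (2 : ℝ) ≤ r := by exact_mod_cast hr
    linarith
  have hκl : 0 < κ * l := mul_pos hκ hl
  obtain ⟨y, hyd⟩ : ∃ y : ℝ, y = (κ * l) ^ (1 / ((r : ℝ) - 1)) := ⟨_, rfl⟩
  rw [← hyd] at hy hJ ⊢
  have hy0 : 0 ≤ y := by linarith
  have h1 : (⌊y⌋₊ : ℝ) ≤ y := Nat.floor_le hy0
  have h2 : y < (⌊y⌋₊ : ℝ) + 1 := Nat.lt_floor_add_one y
  have h4 : 4 ≤ ⌊y⌋₊ := Nat.le_floor (by exact_mod_cast hy)
  have hJ2 : J + 2 = ⌊y⌋₊ := by omega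
  have hJr : (J : ℝ) + 2 = (⌊y⌋₊ : ℝ) := by exact_mod_cast hJ2
  have hpow : y ^ (r - 1) = κ * l := by
    rw [hyd, ← Real.rpow_natCast, ← Real.rpow_mul hκl.le]
    have h5 : (((r - 1 : ℕ)) : ℝ) = (r : ℝ) - 1 := by
      rw [Nat.cast_sub (by omega)]
      norm_num
    rw [h5, one_div, inv_mul_cancel₀ (by linarith), Real.rpow_one]
  have h6 : ((J : ℝ) + 2) ^ (r - 1) ≤ κ * l := by
    rw [← hpow]
    exact pow_le_pow_left₀ (by positivity) (by linarith) _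
  refine ⟨h6, by linarith, ?_⟩
  have h7 : (J : ℝ) + 2 ≤ ((J : ℝ) + 2) ^ (r - 1) := le_self_pow₀ (by
    have : (0 : ℝ) ≤ J := Nat.cast_nonneg J
    linarith) (by omega)
  linarith

theorem Es_ev (r : ℕ) (hr : 2 ≤ r) (κ a C1 : ℝ) (hκ : 0 < κ) (ha : 0 < a) : ∃ N0 : ℕ, ∀ N : ℕ, N0 ≤ N →
    3 ≤ N ∧ 8 ≤ Real.log N ∧ 1 ≤ Real.log (Real.log N) ∧ Real.log (Real.log N) ≤ Real.sqrt (Real.log N) ∧
    4 ≤ (κ * Real.log (Real.log N)) ^ (1 / ((r : ℝ) - 1)) ∧ 8 * C1 ≤ (Real.log (Real.log N)) ^ (1 / ((r : ℝ) - 1)) ∧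
    2 * (C1 + 3) ≤ (Real.log (Real.log N)) ^ (1 / ((r : ℝ) - 1)) ∧ 1 ≤ a * (Real.log N * Real.log (Real.log N)) ∧
    (4 * Real.log N) ^ (r + 2) ≤ Real.exp (Real.log N / 2) := by
  have hr1 : (0 : ℝ) < 1 / ((r : ℝ) - 1) := by
    have : (2 : ℝ) ≤ r := by exact_mod_cast hr
    have h2 : 0 < (r : ℝ) - 1 := by linarith
    positivity
  have t1 : Filter.Tendsto (fun N : ℕ => Real.log (N : ℝ)) Filter.atTop Filter.atTop := Real.tendsto_log_atTop.comp tendsto_natCast_atTop_atTop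
  have t2 : Filter.Tendsto (fun N : ℕ => Real.log (Real.log (N : ℝ))) Filter.atTop Filter.atTop := Real.tendsto_log_atTop.comp t1
  have t3 : Filter.Tendsto (fun N : ℕ => (Real.log (Real.log (N : ℝ))) ^ (1 / ((r : ℝ) - 1))) Filter.atTop Filter.atTop :=
    (tendsto_rpow_atTop hr1).comp t2
  have t4 : Filter.Tendsto (fun N : ℕ => (κ * Real.log (Real.log (N : ℝ))) ^ (1 / ((r : ℝ) - 1))) Filter.atTop Filter.atTop :=
    (tendsto_rpow_atTop hr1).comp (t2.const_mul_atTop hκ)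
  have b1 := (isLittleO_log_rpow_atTop (show (0 : ℝ) < 1 / 2 by norm_num)).bound (show (0 : ℝ) < 1 by norm_num)
  have b2 := (isLittleO_pow_exp_pos_mul_atTop (r + 2) (show (0 : ℝ) < 1 / 2 by norm_num)).bound (show (0 : ℝ) < 1 / 4 ^ (r + 2) by positivity)
  have e0 : ∀ᶠ N : ℕ in Filter.atTop, 3 ≤ N := Filter.eventually_ge_atTop 3
  have e1 := t1.eventually_ge_atTop 8
  have e2 := t2.eventually_ge_atTop (max 1 (1 / a))
  have e3 := t1.eventually b1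
  have e4 := t4.eventually_ge_atTop 4
  have e5 := t3.eventually_ge_atTop (max (8 * C1) (2 * (C1 + 3)))
  have e6 := t1.eventually b2
  obtain ⟨N0, h⟩ := Filter.eventually_atTop.1 (e0.and (e1.and (e2.and (e3.and (e4.and (e5.and e6))))))
  refine ⟨N0, fun N hN => ?_⟩
  obtain ⟨f0, f1, f2, f3, f4, f5, f6⟩ := h N hN
  have f2a : 1 ≤ Real.log (Real.log N) := (le_max_left _ _).trans f2
  have f2b : 1 / a ≤ Real.log (Real.log N) := (le_max_right _ _).trans f2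
  have hL0 : 0 < Real.log N := by linarith
  refine ⟨f0, f1, f2a, ?_, f4, (le_max_left _ _).trans f5, (le_max_right _ _).trans f5, ?_, ?_⟩
  · have h1 := (le_abs_self _).trans f3
    rw [one_mul, Real.norm_eq_abs, abs_of_pos (Real.rpow_pos_of_pos hL0 _), ← Real.sqrt_eq_rpow] at h1
    exact h1
  · rw [div_le_iff₀ ha] at f2b
    have h1 : 1 * 1 ≤ Real.log N * (Real.log (Real.log N) * a) := mul_le_mul (by linarith) f2b zero_le_one hL0.le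
    linarith
  · have h1 := (le_abs_self _).trans f6
    rw [Real.norm_eq_abs, abs_of_pos (Real.exp_pos _)] at h1
    have h2 : (4 * Real.log N) ^ (r + 2) = 4 ^ (r + 2) * Real.log N ^ (r + 2) := mul_pow _ _ _
    rw [h2]
    have h3 : (0 : ℝ) < 4 ^ (r + 2) := by positivity
    have h4 : (4 : ℝ) ^ (r + 2) * Real.log N ^ (r + 2) ≤ 4 ^ (r + 2) * (1 / 4 ^ (r + 2) * Real.exp (1 / 2 * Real.log N)) :=
      mul_le_mul_of_nonneg_left h1 h3.le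
    refine h4.trans (le_of_eq ?_)
    rw [← mul_assoc, mul_one_div_cancel h3.ne', one_mul]
    congr 1
    ring

theorem Es_L {N : ℕ} (hN : 3 ≤ N) : Real.log N - 1 ≤ ((Nat.log 2 N : ℕ) : ℝ) := by
  have h1 : N < 2 ^ (Nat.log 2 N + 1) := Nat.lt_pow_succ_log_self (by norm_num) N
  have h2 : (N : ℝ) ≤ (2 : ℝ) ^ (Nat.log 2 N + 1) := by exact_mod_cast h1.le
  have hN0 : (0 : ℝ) < N := by exact_mod_cast (by omega : 0 < N)
  have h3 := Real.log_le_log hN0 h2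
  rw [Real.log_pow] at h3
  push_cast at h3
  have h4 := Real.log_two_lt_d9
  have h5 : (0 : ℝ) ≤ ((Nat.log 2 N : ℕ) : ℝ) := Nat.cast_nonneg _
  nlinarith

theorem es (r : ℕ) (hr : 2 ≤ r) : ∃ C c : ℝ, 0 < c ∧ ∃ N0 : ℕ, ∀ N : ℕ, N0 ≤ N → ∀ S : Finset ℕ,
    (S.card : ℝ) ≤ c * Real.log N * Real.log (Real.log N) →
    (N : ℝ) * Real.exp (-(C * Real.log N / Real.log (Real.log N) ^ (1 / ((r : ℝ) - 1)))) ≤
      ({n : ℕ | n ≤ N ∧ Odd n ∧ (∀ s ∈ S, ∀ p a : ℕ, p.Prime → n ≠ p ^ (a + 1) + s) ∧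
        ∀ K : Multiset ℕ, K.card ≤ r → (∃ q j : ℕ, q.Prime ∧ Bal q j K ∧
          ((q : ℝ) ^ j ≤ Real.log N / (2 * Real.log (Real.log N)) ∨ ∀ a ∈ K, ∀ b ∈ K, a ≡ b [MOD q ^ j])) →
          ∀ p a : ℕ, p.Prime → n ≠ p ^ (a + 1) + (K.map (fun e => 2 ^ e)).sum}.ncard : ℝ) := by
  obtain ⟨c0, hc0, N1, hesc⟩ := esc
  have hr0 : (0 : ℝ) < r := by exact_mod_cast (by omega : 0 < r)
  have hr1 : (1 : ℝ) ≤ (r : ℝ) - 1 := by
    have : (2 : ℝ) ≤ r := by exact_mod_cast hr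
    linarith
  obtain ⟨δ, hδ⟩ : ∃ δ : ℝ, δ = c0 * Real.exp (-(10 * r)) / 3 := ⟨_, rfl⟩
  have hδ0 : 0 < δ := by rw [hδ]; have := Real.exp_pos (-(10 * (r : ℝ))); positivity
  obtain ⟨κ, hκd⟩ : ∃ κ : ℝ, κ = min 1 (δ / (3 * r)) := ⟨_, rfl⟩
  have hκ0 : 0 < κ := by rw [hκd]; exact lt_min one_pos (by positivity)
  have hκ1 : κ ≤ 1 := by rw [hκd]; exact min_le_left _ _
  have hκ2 : 3 * r * κ ≤ δ := by
    have h1 : κ ≤ δ / (3 * r) := by rw [hκd]; exact min_le_right _ _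
    rw [le_div_iff₀ (by positivity)] at h1
    linarith
  obtain ⟨κ', hκ'⟩ : ∃ κ' : ℝ, κ' = κ ^ (1 / ((r : ℝ) - 1)) := ⟨_, rfl⟩
  have hκ'0 : 0 < κ' := by rw [hκ']; exact Real.rpow_pos_of_pos hκ0 _
  obtain ⟨C1, hC1⟩ : ∃ C1 : ℝ, C1 = 2 * (r : ℝ) ^ 2 / κ' := ⟨_, rfl⟩
  have hC10 : 0 < C1 := by rw [hC1]; positivity
  obtain ⟨N2, hev⟩ := Es_ev r hr κ δ C1 hκ0 hδ0
  refine ⟨C1 + 3, δ, hδ0, max N1 N2, ?_⟩
  intro N hN S hS
  obtain ⟨v1, v2, v3, v4, v5, v6, v7, v8, v9⟩ := hev N ((le_max_right _ _).trans hN)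
  have hlog2 := log2_le v1
  have hEsL := Es_L v1
  have hNpos : (0 : ℝ) < N := by exact_mod_cast (by omega : 0 < N)
  obtain ⟨Lg, hLg⟩ : ∃ Lg : ℝ, Lg = Real.log N := ⟨_, rfl⟩
  rw [← hLg] at hS v2 v3 v4 v5 v6 v7 v8 v9 hlog2 hEsL ⊢
  obtain ⟨l, hl⟩ : ∃ l : ℝ, l = Real.log Lg := ⟨_, rfl⟩
  rw [← hl] at hS v3 v4 v5 v6 v7 v8 ⊢
  obtain ⟨y', hy'⟩ : ∃ y' : ℝ, y' = l ^ (1 / ((r : ℝ) - 1)) := ⟨_, rfl⟩
  rw [← hy'] at v6 v7 ⊢
  have hl0 : 0 < l := by linarith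
  have hLg0 : 0 < Lg := by linarith
  have hy'0 : 0 < y' := by rw [hy']; exact Real.rpow_pos_of_pos hl0 _
  have hyy : (κ * l) ^ (1 / ((r : ℝ) - 1)) = κ' * y' := by
    rw [hκ', hy', Real.mul_rpow hκ0.le hl0.le]
  obtain ⟨J, hJ⟩ : ∃ J : ℕ, J = ⌊(κ * l) ^ (1 / ((r : ℝ) - 1))⌋₊ - 2 := ⟨_, rfl⟩
  obtain ⟨j1, j2, j3⟩ := Es_pow hr hκ0 hl0 v5 hJ
  rw [hyy] at j2
  have hJ0 : (0 : ℝ) < (J : ℝ) + 1 := by positivity
  have hJl : (J : ℝ) + 1 ≤ l := by nlinarith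
  have hlL : l ≤ Lg - 1 := by
    rw [hl]
    exact Real.log_le_sub_one_of_pos hLg0
  have hJL : J + 1 ≤ Nat.log 2 N := by
    have : (J : ℝ) + 1 ≤ ((Nat.log 2 N : ℕ) : ℝ) := by linarith
    exact_mod_cast this
  have hX : (r : ℝ) ^ 2 * Lg / ((J : ℝ) + 1) ≤ C1 * Lg / y' := by
    rw [hC1, div_le_div_iff₀ hJ0 hy'0, div_mul_eq_mul_div, div_mul_eq_mul_div, le_div_iff₀ hκ'0]
    have h1 : (r : ℝ) ^ 2 * Lg * (κ' * y') ≤ (r : ℝ) ^ 2 * Lg * (2 * ((J : ℝ) + 1)) :=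
      mul_le_mul_of_nonneg_left (by linarith) (by positivity)
    calc (r : ℝ) ^ 2 * Lg * y' * κ' = (r : ℝ) ^ 2 * Lg * (κ' * y') := by ring
      _ ≤ _ := h1
      _ = _ := by ring
  obtain ⟨E, hE⟩ : ∃ E : ℝ, E = Lg / y' := ⟨_, rfl⟩
  have hE0 : 0 < E := by rw [hE]; positivity
  have hCE : C1 * Lg / y' = C1 * E := by rw [hE]; ring
  rw [hCE] at hX
  have hy'l : y' ≤ l := by
    rw [hy']
    calc l ^ (1 / ((r : ℝ) - 1)) ≤ l ^ (1 : ℝ) := Real.rpow_le_rpow_of_exponent_le v3 (by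
          rw [div_le_one (by linarith)]
          exact hr1)
      _ = l := Real.rpow_one l
  have hsq : Real.sqrt Lg ≤ E := by
    rw [hE, le_div_iff₀ hy'0]
    calc Real.sqrt Lg * y' ≤ Real.sqrt Lg * Real.sqrt Lg := mul_le_mul_of_nonneg_left (hy'l.trans v4) (Real.sqrt_nonneg _)
      _ = Lg := Real.mul_self_sqrt hLg0.le
  have hsq2 : 2 ≤ Real.sqrt Lg := Real.le_sqrt_of_sq_le (by linarith)
  have hE2 : 2 ≤ E := hsq2.trans hsq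
  have hE8 : C1 * E ≤ Lg / 8 := by
    rw [hE, ← mul_div_assoc, div_le_iff₀ hy'0]
    have : Lg / 8 * (8 * C1) ≤ Lg / 8 * y' := mul_le_mul_of_nonneg_left v6 (by positivity)
    linarith
  have hE9 : (C1 + 3) * E ≤ Lg / 2 := by
    rw [hE, ← mul_div_assoc, div_le_iff₀ hy'0]
    have : Lg / 2 * (2 * (C1 + 3)) ≤ Lg / 2 * y' := mul_le_mul_of_nonneg_left v7 (by positivity)
    linarith
  have hNexp : (N : ℝ) = Real.exp Lg := by rw [hLg, Real.exp_log hNpos]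
  have hmain := hesc N ((le_max_left _ _).trans hN) r J hJL (by
    rw [← hLg]
    have h1 : (N : ℝ) ^ (1 / 4 : ℝ) = Real.exp (Lg * (1 / 4)) := by rw [Real.rpow_def_of_pos hNpos, ← hLg]
    rw [h1]
    have h2 : (2 : ℝ) ≤ Real.exp 1 := by
      have := Real.add_one_le_exp (1 : ℝ)
      linarith
    calc 2 * Real.exp ((r : ℝ) ^ 2 * Lg / ((J : ℝ) + 1)) ≤ Real.exp 1 * Real.exp (C1 * E) :=
          mul_le_mul h2 (Real.exp_le_exp.2 hX) (Real.exp_pos _).le (Real.exp_pos _).le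
      _ = Real.exp (1 + C1 * E) := (Real.exp_add _ _).symm
      _ ≤ _ := Real.exp_le_exp.2 (by linarith)) S (by
    rw [← hLg, ← hl]
    have h1 : r * (((Nat.log 2 N : ℕ) : ℝ) + 1) * ((J : ℝ) + 2) ^ (r - 1) ≤ δ * (Lg * l) := by
      calc r * (((Nat.log 2 N : ℕ) : ℝ) + 1) * ((J : ℝ) + 2) ^ (r - 1) ≤ r * (3 * Lg) * (κ * l) :=
            mul_le_mul (mul_le_mul_of_nonneg_left hlog2 hr0.le) j1 (by positivity) (by positivity)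
        _ = (3 * r * κ) * (Lg * l) := by ring
        _ ≤ δ * (Lg * l) := mul_le_mul_of_nonneg_right hκ2 (by positivity)
    have h2 : c0 * Real.exp (-(10 * r)) * (Lg * l) = 3 * (δ * (Lg * l)) := by rw [hδ]; ring
    rw [h2]
    linarith)
  rw [← hLg] at hmain
  have hsub : GG2 N r J S ⊆ {n : ℕ | n ≤ N ∧ Odd n ∧ (∀ s ∈ S, ∀ p a : ℕ, p.Prime → n ≠ p ^ (a + 1) + s) ∧
        ∀ K : Multiset ℕ, K.card ≤ r → (∃ q j : ℕ, q.Prime ∧ Bal q j K ∧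
          ((q : ℝ) ^ j ≤ Lg / (2 * l) ∨ ∀ a ∈ K, ∀ b ∈ K, a ≡ b [MOD q ^ j])) →
          ∀ p a : ℕ, p.Prime → n ≠ p ^ (a + 1) + (K.map (fun e => 2 ^ e)).sum} := by
    rintro n ⟨h1, h2, h3, h4⟩
    refine ⟨h1, h2, h3, ?_⟩
    rintro K hK ⟨q, j, hq, hbal, hcase⟩
    refine h4 K hK ⟨q, j, hq, hbal, ?_⟩
    rcases hcase with h | h
    · left
      have h5 : (((J + 1) * q ^ j : ℕ) : ℝ) ≤ ((Nat.log 2 N : ℕ) : ℝ) := by
        push_cast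
        calc ((J : ℝ) + 1) * (q : ℝ) ^ j ≤ l * (Lg / (2 * l)) := mul_le_mul hJl h (by positivity) hl0.le
          _ = Lg / 2 := by field_simp
          _ ≤ _ := by linarith
      exact_mod_cast h5
    · exact Or.inr h
  have hfin : {n : ℕ | n ≤ N ∧ Odd n ∧ (∀ s ∈ S, ∀ p a : ℕ, p.Prime → n ≠ p ^ (a + 1) + s) ∧
        ∀ K : Multiset ℕ, K.card ≤ r → (∃ q j : ℕ, q.Prime ∧ Bal q j K ∧
          ((q : ℝ) ^ j ≤ Lg / (2 * l) ∨ ∀ a ∈ K, ∀ b ∈ K, a ≡ b [MOD q ^ j])) →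
          ∀ p a : ℕ, p.Prime → n ≠ p ^ (a + 1) + (K.map (fun e => 2 ^ e)).sum}.Finite :=
    (Set.finite_Iic N).subset (fun n hn => hn.1)
  have hcard0 := Set.ncard_le_ncard hsub hfin
  refine le_trans ?_ (Nat.cast_le.2 hcard0)
  have hCE3 : (C1 + 3) * Lg / y' = (C1 + 3) * E := by rw [hE]; ring
  rw [hCE3]
  have hpoly : (((Nat.log 2 N : ℕ) : ℝ) + 2) ^ (r + 2) ≤ Real.exp (Lg / 2) := by
    refine le_trans (pow_le_pow_left₀ (by positivity) ?_ _) v9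
    linarith
  have hlow1 : Real.exp (Lg / 2) ≤ (N : ℝ) * Real.exp (-((C1 + 3) * E)) := by
    rw [hNexp, ← Real.exp_add]
    exact Real.exp_le_exp.2 (by linarith)
  have hlow2 : 4 * ((N : ℝ) * Real.exp (-((C1 + 3) * E))) ≤ (N : ℝ) * Real.exp (-((r : ℝ) ^ 2 * Lg / ((J : ℝ) + 1) + Real.sqrt Lg)) := by
    have h4 : (4 : ℝ) ≤ Real.exp (2 * E) := by
      have := Real.add_one_le_exp (2 * E)
      linarith
    calc 4 * ((N : ℝ) * Real.exp (-((C1 + 3) * E))) = (N : ℝ) * (4 * Real.exp (-((C1 + 3) * E))) := by ring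
      _ ≤ (N : ℝ) * (Real.exp (2 * E) * Real.exp (-((C1 + 3) * E))) :=
          mul_le_mul_of_nonneg_left (mul_le_mul_of_nonneg_right h4 (Real.exp_pos _).le) hNpos.le
      _ = (N : ℝ) * Real.exp (2 * E + -((C1 + 3) * E)) := by rw [Real.exp_add]
      _ ≤ _ := mul_le_mul_of_nonneg_left (Real.exp_le_exp.2 (by linarith)) hNpos.le
  linarith

end H52GS
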