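import Pool.Agent.H52.GS.Pg

/-!
# SP: consequences for primes plus powers of two
-/

open Finset EG H69PG

namespace H52GS

/-- residue classes containing odd numbers: positive proportion -/
theorem spA (lam : ℝ) (hlam : 0 < lam) (q : ℕ) (hq : 1 ≤ q) : ∃ c : ℝ, 0 < c ∧ ∃ N0 : ℕ, ∀ N : ℕ, N0 ≤ N →
    ∀ b : ℕ, Odd b → ∀ S : Finset ℕ, (S.card : ℝ) ≤ lam * Real.log N →
      c * N ≤ ({n : ℕ | 1 ≤ n ∧ n ≤ N ∧ n ≡ b [MOD q] ∧ Odd n ∧ ∀ s ∈ S, s < n → ¬ IsPrimePow (n - s)}.ncard : ℝ) := by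
  classical
  have hM : 1 ≤ 2 * q := by omega
  have hMr : (0 : ℝ) < ((2 * q : ℕ) : ℝ) := by exact_mod_cast hM
  have hφ : (1 : ℝ) ≤ Nat.totient (2 * q) := by exact_mod_cast Nat.totient_pos.2 hM
  obtain ⟨c, hc, N1, h⟩ := pg (Λ := lam * ((2 * q : ℕ) : ℝ)) (mul_pos hlam hMr)
  refine ⟨c / ((2 * q : ℕ) : ℝ), div_pos hc hMr, max N1 ((2 * q) ^ 4), ?_⟩
  intro N hN b hb S hS
  have hN1 : N1 ≤ N := (le_max_left _ _).trans hN
  have hN2 : (2 * q) ^ 4 ≤ N := (le_max_right _ _).trans hN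
  have hlog : 0 ≤ Real.log N := Real.log_natCast_nonneg N
  have h1 := h N hN1 (2 * q) (b % (2 * q)) hM (Nat.mod_lt _ hM) (by
    have h2 : (((2 * q) ^ 4 : ℕ) : ℝ) ≤ (N : ℝ) := by exact_mod_cast hN2
    have h3 : ((2 * q : ℕ) : ℝ) = ((((2 * q) ^ 4 : ℕ) : ℝ)) ^ (1 / 4 : ℝ) := by
      have h5 : ((((2 * q) ^ 4 : ℕ) : ℝ)) = ((2 * q : ℕ) : ℝ) ^ (4 : ℝ) := by
        rw [show (4 : ℝ) = ((4 : ℕ) : ℝ) by norm_num, Real.rpow_natCast, Nat.cast_pow]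
      rw [h5, ← Real.rpow_mul hMr.le]
      norm_num
    rw [h3]
    exact Real.rpow_le_rpow (Nat.cast_nonneg _) h2 (by norm_num)) S (by
    refine hS.trans ?_
    have h2 : lam * ((2 * q : ℕ) : ℝ) * Real.log N * ((Nat.totient (2 * q) : ℝ) / ((2 * q : ℕ) : ℝ)) =
        lam * Real.log N * Nat.totient (2 * q) := by
      field_simp
    rw [h2]
    have h3 : 0 ≤ lam * Real.log N := mul_nonneg hlam.le hlog
    calc lam * Real.log N = lam * Real.log N * 1 := (mul_one _).symm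
      _ ≤ _ := mul_le_mul_of_nonneg_left hφ h3)
  have e1 : c / ((2 * q : ℕ) : ℝ) * N = c * ((N : ℝ) / ((2 * q : ℕ) : ℝ)) := by ring
  rw [e1]
  refine h1.trans ?_
  norm_cast
  rw [← Set.ncard_coe_finset]
  refine Set.ncard_le_ncard ?_ ((Set.finite_Icc 1 N).subset (fun n hn => ⟨hn.1, hn.2.1⟩))
  intro n hn
  rw [Finset.mem_coe, Finset.mem_filter, Finset.mem_Icc] at hn
  obtain ⟨⟨hn1, hn2⟩, hn3, hn4⟩ := hn
  have hmod : n ≡ b [MOD 2 * q] := by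
    show n % (2 * q) = b % (2 * q)
    exact hn3
  refine ⟨hn1, hn2, Nat.ModEq.of_mul_left 2 hmod, ?_, hn4⟩
  have h5 : n ≡ b [MOD 2] := Nat.ModEq.of_mul_right q hmod
  rw [Nat.odd_iff] at hb ⊢
  rw [← hb]
  exact h5

/-- at most `c log N log log N` shifts -/
theorem spB : ∃ c : ℝ, 0 < c ∧ ∃ N0 : ℕ, ∀ N : ℕ, N0 ≤ N →
    ∀ S : Finset ℕ, (S.card : ℝ) ≤ c * Real.log N * Real.log (Real.log N) →
      (N : ℝ) * Real.exp (- Real.sqrt (Real.log N)) / 2 ≤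
        ({n : ℕ | 1 ≤ n ∧ n ≤ N ∧ Odd n ∧ ∀ s ∈ S, s < n → ¬ IsPrimePow (n - s)}.ncard : ℝ) := by
  classical
  obtain ⟨c, hc, N1, h⟩ := pag
  refine ⟨c / 2, by positivity, max N1 16, ?_⟩
  intro N hN S hS
  have hN1 : N1 ≤ N := (le_max_left _ _).trans hN
  have hN2 : 16 ≤ N := (le_max_right _ _).trans hN
  have hN2r : (16 : ℝ) ≤ N := by exact_mod_cast hN2
  have h1 := h N hN1 2 1 (by norm_num) (by norm_num) (by
    have h2 : (16 : ℝ) ^ (1 / 4 : ℝ) ≤ (N : ℝ) ^ (1 / 4 : ℝ) := Real.rpow_le_rpow (by norm_num) hN2r (by norm_num)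
    have h3 : (16 : ℝ) ^ (1 / 4 : ℝ) = 2 := by
      rw [show (16 : ℝ) = (2 : ℝ) ^ (4 : ℝ) by norm_num, ← Real.rpow_mul (by norm_num)]
      norm_num
    rw [h3] at h2
    exact_mod_cast h2) S (by
    refine hS.trans (le_of_eq ?_)
    rw [Nat.totient_two]
    push_cast
    ring)
  have hE := Real.exp_pos (Real.sqrt (Real.log N))
  have h2 : (N : ℝ) * Real.exp (- Real.sqrt (Real.log N)) / 2 ≤
      (((Icc 1 N).filter (fun n => n % 2 = 1 ∧ ∀ s ∈ S, s < n → ¬ IsPrimePow (n - s))).card : ℝ) := by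
    rw [Real.exp_neg]
    have h3 : (N : ℝ) * (Real.exp (Real.sqrt (Real.log N)))⁻¹ / 2 = (Real.exp (Real.sqrt (Real.log N)))⁻¹ * ((N : ℝ) / 2) := by ring
    rw [h3, inv_mul_le_iff₀ hE]
    exact_mod_cast h1
  refine h2.trans ?_
  norm_cast
  rw [← Set.ncard_coe_finset]
  refine Set.ncard_le_ncard ?_ ((Set.finite_Icc 1 N).subset (fun n hn => ⟨hn.1, hn.2.1⟩))
  intro n hn
  rw [Finset.mem_coe, Finset.mem_filter, Finset.mem_Icc] at hn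
  obtain ⟨⟨hn1, hn2⟩, hn3, hn4⟩ := hn
  exact ⟨hn1, hn2, Nat.odd_iff.2 hn3, hn4⟩

/-- the sums `u + 2^k v` -/
noncomputable def TS (U N : ℕ) : Finset ℕ :=
  ((range (U + 1)) ×ˢ ((range (U + 1)) ×ˢ (range (Nat.log 2 N + 1)))).image (fun q => q.1 + q.2.1 * 2 ^ q.2.2)

theorem TS_card (U N : ℕ) : (TS U N).card ≤ (U + 1) * ((U + 1) * (Nat.log 2 N + 1)) := by
  unfold TS
  refine Finset.card_image_le.trans ?_
  rw [Finset.card_product, Finset.card_product]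
  simp

theorem sum_le_card (K : Multiset ℕ) (f : ℕ → ℕ) (B : ℕ) (h : ∀ e ∈ K, f e ≤ B) : (K.map f).sum ≤ K.card * B := by
  have := Multiset.sum_le_card_nsmul (K.map f) B (by
    intro x hx
    obtain ⟨e, he, rfl⟩ := Multiset.mem_map.1 hx
    exact h e he)
  rwa [Multiset.card_map, smul_eq_mul] at this

theorem mem_TS {r w k N : ℕ} {K : Multiset ℕ} (hK : K.card ≤ r) (h : ∀ e ∈ K, e ≤ w ∨ (k ≤ e ∧ e ≤ k + w))
    (hN : (K.map (fun e => 2 ^ e)).sum ≤ N) (hN1 : 1 ≤ N) : (K.map (fun e => 2 ^ e)).sum ∈ TS (r * 2 ^ w) N := by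
  classical
  obtain ⟨K1, hK1⟩ : ∃ K1 : Multiset ℕ, K1 = K.filter (fun e => e ≤ w) := ⟨_, rfl⟩
  obtain ⟨K2, hK2⟩ : ∃ K2 : Multiset ℕ, K2 = K.filter (fun e => ¬ e ≤ w) := ⟨_, rfl⟩
  have hKK : K = K1 + K2 := by rw [hK1, hK2]; exact (Multiset.filter_add_not _ _).symm
  have hc1 : K1.card ≤ r := by
    have : K1.card ≤ K.card := by rw [hK1]; exact Multiset.card_le_card (Multiset.filter_le _ _)
    omega
  have hc2 : K2.card ≤ r := by
    have : K2.card ≤ K.card := by rw [hK2]; exact Multiset.card_le_card (Multiset.filter_le _ _)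
    omega
  have hu : (K1.map (fun e => 2 ^ e)).sum ≤ r * 2 ^ w := by
    refine (sum_le_card K1 _ (2 ^ w) (fun e he => ?_)).trans (Nat.mul_le_mul_right _ hc1)
    rw [hK1] at he
    exact Nat.pow_le_pow_right (by norm_num) (Multiset.mem_filter.1 he).2
  have hmem2 : ∀ e ∈ K2, k ≤ e ∧ e ≤ k + w := by
    intro e he
    rw [hK2] at he
    obtain ⟨h1, h2⟩ := Multiset.mem_filter.1 he
    rcases h e h1 with h3 | h3
    · exact absurd h3 h2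
    · exact h3
  have hv0 : (K2.map (fun e => 2 ^ e)).sum = (K2.map (fun e => 2 ^ (e - k))).sum * 2 ^ k := by
    rw [← Multiset.sum_map_mul_right]
    congr 1
    refine Multiset.map_congr rfl fun e he => ?_
    rw [← pow_add]
    congr 1
    have := (hmem2 e he).1
    omega
  have hv : (K2.map (fun e => 2 ^ (e - k))).sum ≤ r * 2 ^ w := by
    refine (sum_le_card K2 _ (2 ^ w) (fun e he => ?_)).trans (Nat.mul_le_mul_right _ hc2)
    have := hmem2 e he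
    exact Nat.pow_le_pow_right (by norm_num) (by omega)
  have hsum : (K.map (fun e => 2 ^ e)).sum = (K1.map (fun e => 2 ^ e)).sum + (K2.map (fun e => 2 ^ (e - k))).sum * 2 ^ k := by
    rw [hKK, Multiset.map_add, Multiset.sum_add, hv0]
  unfold TS
  rw [Finset.mem_image]
  by_cases hz : (K2.map (fun e => 2 ^ (e - k))).sum = 0
  · refine ⟨((K1.map (fun e => 2 ^ e)).sum, (0, 0)), ?_, ?_⟩
    · rw [Finset.mem_product, Finset.mem_product]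
      exact ⟨Finset.mem_range.2 (Nat.lt_succ_of_le hu), Finset.mem_range.2 (Nat.succ_pos _), Finset.mem_range.2 (Nat.succ_pos _)⟩
    · show (K1.map (fun e => 2 ^ e)).sum + 0 * 2 ^ 0 = _
      rw [hsum, hz]
      simp
  · refine ⟨((K1.map (fun e => 2 ^ e)).sum, ((K2.map (fun e => 2 ^ (e - k))).sum, k)), ?_, hsum.symm⟩
    rw [Finset.mem_product, Finset.mem_product]
    refine ⟨Finset.mem_range.2 (Nat.lt_succ_of_le hu), Finset.mem_range.2 (Nat.lt_succ_of_le hv), Finset.mem_range.2 (Nat.lt_succ_of_le ?_)⟩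
    have h1 : 1 ≤ (K2.map (fun e => 2 ^ (e - k))).sum := Nat.one_le_iff_ne_zero.2 hz
    have h2 : 1 * 2 ^ k ≤ (K2.map (fun e => 2 ^ (e - k))).sum * 2 ^ k := Nat.mul_le_mul_right _ h1
    have h3 : 2 ^ k ≤ N := by
      refine le_trans ?_ hN
      rw [hsum]
      omega
    exact Nat.le_log_of_pow_le (by norm_num) h3

theorem log2_le {N : ℕ} (hN : 3 ≤ N) : ((Nat.log 2 N : ℕ) : ℝ) + 1 ≤ 3 * Real.log N := by
  have hNr : (3 : ℝ) ≤ N := by exact_mod_cast hN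
  have h1 : (2 : ℝ) ^ (Nat.log 2 N) ≤ N := by exact_mod_cast Nat.pow_log_le_self 2 (by omega)
  have h2 := Real.log_le_log (by positivity) h1
  rw [Real.log_pow] at h2
  have h3 := Real.log_two_gt_d9
  have h4 : (0 : ℝ) ≤ (Nat.log 2 N : ℝ) := Nat.cast_nonneg _
  have h5 : 1 ≤ Real.log N := by
    rw [Real.le_log_iff_exp_le (by linarith)]
    have := Real.exp_one_lt_d9
    linarith
  nlinarith

/-- restricted exponents: positive proportion -/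
theorem spC (r w : ℕ) : ∃ c : ℝ, 0 < c ∧ ∃ N0 : ℕ, ∀ N : ℕ, N0 ≤ N →
    c * N ≤ ({n : ℕ | 1 ≤ n ∧ n ≤ N ∧ Odd n ∧ ∀ (K : Multiset ℕ) (k : ℕ), K.card ≤ r →
      (∀ e ∈ K, e ≤ w ∨ (k ≤ e ∧ e ≤ k + w)) → (K.map (fun e => 2 ^ e)).sum < n →
        ¬ IsPrimePow (n - (K.map (fun e => 2 ^ e)).sum)}.ncard : ℝ) := by
  obtain ⟨c, hc, N0, h⟩ := spA (3 * ((r * 2 ^ w + 1 : ℕ) : ℝ) ^ 2) (by positivity) 1 le_rfl
  refine ⟨c, hc, max N0 3, fun N hN => ?_⟩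
  have hN0 : N0 ≤ N := (le_max_left _ _).trans hN
  have hN3 : 3 ≤ N := (le_max_right _ _).trans hN
  have h1 := h N hN0 1 odd_one (TS (r * 2 ^ w) N) (by
    have h2 : ((TS (r * 2 ^ w) N).card : ℝ) ≤ ((r * 2 ^ w + 1 : ℕ) : ℝ) * (((r * 2 ^ w + 1 : ℕ) : ℝ) * ((Nat.log 2 N : ℕ) + 1)) := by
      exact_mod_cast TS_card (r * 2 ^ w) N
    refine h2.trans ?_
    have h3 := log2_le hN3
    have h4 : (0 : ℝ) ≤ ((r * 2 ^ w + 1 : ℕ) : ℝ) ^ 2 := by positivity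
    calc ((r * 2 ^ w + 1 : ℕ) : ℝ) * (((r * 2 ^ w + 1 : ℕ) : ℝ) * ((Nat.log 2 N : ℕ) + 1)) =
        ((r * 2 ^ w + 1 : ℕ) : ℝ) ^ 2 * ((Nat.log 2 N : ℕ) + 1) := by ring
      _ ≤ ((r * 2 ^ w + 1 : ℕ) : ℝ) ^ 2 * (3 * Real.log N) := mul_le_mul_of_nonneg_left h3 h4
      _ = _ := by ring)
  refine h1.trans ?_
  norm_cast
  refine Set.ncard_le_ncard ?_ ((Set.finite_Icc 1 N).subset (fun n hn => ⟨hn.1, hn.2.1⟩))
  rintro n ⟨hn1, hn2, _, hn4, hn5⟩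
  refine ⟨hn1, hn2, hn4, ?_⟩
  intro K k hK hKe hlt
  exact hn5 _ (mem_TS hK hKe (by omega) (by omega)) hlt

/-- the shifts `2^k + 2 h` -/
noncomputable def TH (H N : ℕ) : Finset ℕ :=
  ((range (H + 1)) ×ˢ (range (Nat.log 2 N + 1))).image (fun q => 2 ^ q.2 + 2 * (H - q.1))

theorem TH_card (H N : ℕ) : (TH H N).card ≤ (H + 1) * (Nat.log 2 N + 1) := by
  unfold TH
  refine Finset.card_image_le.trans ?_
  rw [Finset.card_product]
  simp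

theorem run_sub {H N : ℕ} : {n : ℕ | 1 ≤ n ∧ n ≤ N ∧ Odd n ∧ ∀ s ∈ TH H N, s < n → ¬ IsPrimePow (n - s)}.ncard ≤
    {n : ℕ | 1 ≤ n ∧ n ≤ N ∧ Odd n ∧ ∀ h k : ℕ, h ≤ H → 2 ^ k < n + 2 * h → ¬ IsPrimePow (n + 2 * h - 2 ^ k)}.ncard + 2 * H := by
  have hfin : {n : ℕ | 1 ≤ n ∧ n ≤ N ∧ Odd n ∧ ∀ h k : ℕ, h ≤ H → 2 ^ k < n + 2 * h → ¬ IsPrimePow (n + 2 * h - 2 ^ k)}.Finite :=
    (Set.finite_Icc 1 N).subset (fun n hn => ⟨hn.1, hn.2.1⟩)
  have hsub : {n : ℕ | 1 ≤ n ∧ n ≤ N ∧ Odd n ∧ ∀ s ∈ TH H N, s < n → ¬ IsPrimePow (n - s)} ⊆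
      ((fun n => n + 2 * H) '' {n : ℕ | 1 ≤ n ∧ n ≤ N ∧ Odd n ∧ ∀ h k : ℕ, h ≤ H → 2 ^ k < n + 2 * h →
        ¬ IsPrimePow (n + 2 * h - 2 ^ k)}) ∪ (Set.Icc 1 (2 * H)) := by
    rintro n ⟨hn1, hn2, hn3, hn4⟩
    by_cases hnH : n ≤ 2 * H
    · exact Or.inr ⟨hn1, hnH⟩
    · left
      refine ⟨n - 2 * H, ⟨by omega, by omega, ?_, ?_⟩, ?_⟩
      · rw [Nat.odd_iff] at hn3 ⊢
        omega
      · intro h k hh hlt
        have e1 : n - 2 * H + 2 * h - 2 ^ k = n - (2 ^ k + 2 * (H - h)) := by omega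
        rw [e1]
        refine hn4 _ ?_ (by omega)
        unfold TH
        rw [Finset.mem_image]
        refine ⟨(h, k), ?_, rfl⟩
        rw [Finset.mem_product]
        refine ⟨Finset.mem_range.2 (Nat.lt_succ_of_le hh), Finset.mem_range.2 (Nat.lt_succ_of_le ?_)⟩
        have h3 : 2 ^ k ≤ N := by omega
        exact Nat.le_log_of_pow_le (by norm_num) h3
      · show n - 2 * H + 2 * H = n
        omega
  refine (Set.ncard_le_ncard hsub ((hfin.image _).union (Set.finite_Icc _ _))).trans ?_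
  refine (Set.ncard_union_le _ _).trans ?_
  refine Nat.add_le_add (Set.ncard_image_le hfin) ?_
  rw [← Finset.coe_Icc, Set.ncard_coe_finset, Nat.card_Icc]
  omega

/-- long runs of consecutive odd numbers, positive proportion -/
theorem spD (H : ℕ) : ∃ c : ℝ, 0 < c ∧ ∃ N0 : ℕ, ∀ N : ℕ, N0 ≤ N →
    c * N ≤ ({n : ℕ | 1 ≤ n ∧ n ≤ N ∧ Odd n ∧ ∀ h k : ℕ, h ≤ H → 2 ^ k < n + 2 * h →
      ¬ IsPrimePow (n + 2 * h - 2 ^ k)}.ncard : ℝ) := by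
  obtain ⟨c, hc, N0, h⟩ := spA (3 * ((H + 1 : ℕ) : ℝ)) (by positivity) 1 le_rfl
  obtain ⟨N1, hN1⟩ := exists_nat_ge (4 * (H : ℝ) / c)
  refine ⟨c / 2, by positivity, max N0 (max 3 N1), fun N hN => ?_⟩
  have hN0 : N0 ≤ N := (le_max_left _ _).trans hN
  have hN3 : 3 ≤ N := ((le_max_left _ _).trans (le_max_right _ _)).trans hN
  have hN4 : N1 ≤ N := ((le_max_right _ _).trans (le_max_right _ _)).trans hN
  have h1 := h N hN0 1 odd_one (TH H N) (by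
    have h2 : ((TH H N).card : ℝ) ≤ ((H + 1 : ℕ) : ℝ) * ((Nat.log 2 N : ℕ) + 1) := by exact_mod_cast TH_card H N
    refine h2.trans ?_
    have h3 := log2_le hN3
    calc ((H + 1 : ℕ) : ℝ) * ((Nat.log 2 N : ℕ) + 1) ≤ ((H + 1 : ℕ) : ℝ) * (3 * Real.log N) :=
          mul_le_mul_of_nonneg_left h3 (by positivity)
      _ = _ := by ring)
  have h2 : ({n : ℕ | 1 ≤ n ∧ n ≤ N ∧ n ≡ 1 [MOD 1] ∧ Odd n ∧ ∀ s ∈ TH H N, s < n → ¬ IsPrimePow (n - s)}.ncard : ℝ) ≤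
      ({n : ℕ | 1 ≤ n ∧ n ≤ N ∧ Odd n ∧ ∀ s ∈ TH H N, s < n → ¬ IsPrimePow (n - s)}.ncard : ℝ) := by
    norm_cast
    refine Set.ncard_le_ncard ?_ ((Set.finite_Icc 1 N).subset (fun n hn => ⟨hn.1, hn.2.1⟩))
    rintro n ⟨a1, a2, _, a4, a5⟩
    exact ⟨a1, a2, a4, a5⟩
  have h3 : ({n : ℕ | 1 ≤ n ∧ n ≤ N ∧ Odd n ∧ ∀ s ∈ TH H N, s < n → ¬ IsPrimePow (n - s)}.ncard : ℝ) ≤
    ({n : ℕ | 1 ≤ n ∧ n ≤ N ∧ Odd n ∧ ∀ h k : ℕ, h ≤ H → 2 ^ k < n + 2 * h → ¬ IsPrimePow (n + 2 * h - 2 ^ k)}.ncard : ℝ) + 2 * H := by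
    exact_mod_cast run_sub (H := H) (N := N)
  have h4 : 4 * (H : ℝ) / c ≤ N := hN1.trans (by exact_mod_cast hN4)
  rw [div_le_iff₀ hc] at h4
  linarith

/-- growing runs -/
theorem spE : ∃ c : ℝ, 0 < c ∧ ∃ N0 : ℕ, ∀ N : ℕ, N0 ≤ N →
    (N : ℝ) * Real.exp (- Real.sqrt (Real.log N)) / 4 ≤
      ({n : ℕ | 1 ≤ n ∧ n ≤ N ∧ Odd n ∧ ∀ h k : ℕ, (h : ℝ) ≤ c * Real.log (Real.log N) → 2 ^ k < n + 2 * h →
        ¬ IsPrimePow (n + 2 * h - 2 ^ k)}.ncard : ℝ) := by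
  obtain ⟨c0, hc0, N1, h⟩ := spB
  have e1 := Real.tendsto_log_atTop.eventually_ge_atTop (max 4 (Real.exp (6 / c0 + 1)))
  have e2 : ∀ᶠ x : ℝ in Filter.atTop, 4 * (2 * ((c0 / 6) * Real.log (Real.log x) + 1)) ≤ x * Real.exp (- Real.sqrt (Real.log x)) := by
    have a1 := (isLittleO_log_rpow_atTop (show (0 : ℝ) < 1 / 2 by norm_num)).bound (show (0 : ℝ) < 1 / (8 * (c0 + 2)) by positivity)
    filter_upwards [a1, Real.tendsto_log_atTop.eventually_ge_atTop 4, Filter.eventually_ge_atTop (1 : ℝ)] with x b1 b2 b3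
    have hx0 : 0 < x := by linarith
    obtain ⟨L, hL⟩ : ∃ L : ℝ, L = Real.log x := ⟨_, rfl⟩
    rw [← hL] at b2 ⊢
    have hxs : 0 < x ^ (1 / 2 : ℝ) := Real.rpow_pos_of_pos hx0 _
    have b4 : L ≤ 1 / (8 * (c0 + 2)) * x ^ (1 / 2 : ℝ) := by
      have := (le_abs_self _).trans b1
      rwa [Real.norm_eq_abs, abs_of_pos hxs, ← hL] at this
    have b5 : Real.log L ≤ L := (Real.log_le_sub_one_of_pos (by linarith)).trans (by linarith)
    have b6 : Real.sqrt L ≤ L / 2 := by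
      rw [Real.sqrt_le_left (by linarith)]
      nlinarith
    have b7 : x ^ (1 / 2 : ℝ) ≤ x * Real.exp (- Real.sqrt L) := by
      have e1 : x = Real.exp L := by rw [hL, Real.exp_log hx0]
      rw [Real.rpow_def_of_pos hx0, ← hL]
      conv_rhs => rw [e1, ← Real.exp_add]
      apply Real.exp_le_exp.2
      linarith
    refine le_trans ?_ b7
    have b8 : 8 * (c0 + 2) * L ≤ x ^ (1 / 2 : ℝ) := by
      have h9 : 0 < 8 * (c0 + 2) := by positivity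
      rw [one_div_mul_eq_div, le_div_iff₀ h9] at b4
      linarith
    refine le_trans ?_ b8
    have b9 : c0 / 6 * Real.log L ≤ c0 * L := by
      have : c0 / 6 * Real.log L ≤ c0 / 6 * L := mul_le_mul_of_nonneg_left b5 (by positivity)
      have h10 : 0 ≤ c0 * L := mul_nonneg hc0.le (by linarith)
      linarith
    nlinarith
  obtain ⟨N2, hN2⟩ := Filter.eventually_atTop.1 (tendsto_natCast_atTop_atTop.eventually (e1.and e2))
  refine ⟨c0 / 6, by positivity, max N1 (max 3 N2), fun N hN => ?_⟩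
  have hN1 : N1 ≤ N := (le_max_left _ _).trans hN
  have hN3 : 3 ≤ N := ((le_max_left _ _).trans (le_max_right _ _)).trans hN
  obtain ⟨f1, f2⟩ := hN2 N (((le_max_right _ _).trans (le_max_right _ _)).trans hN)
  have f1a : 4 ≤ Real.log N := (le_max_left _ _).trans f1
  have f1b : Real.exp (6 / c0 + 1) ≤ Real.log N := (le_max_right _ _).trans f1
  have hLL : 6 / c0 + 1 ≤ Real.log (Real.log N) := (Real.le_log_iff_exp_le (by linarith)).2 f1b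
  have hLL0 : 0 ≤ Real.log (Real.log N) := by
    have : 0 < 6 / c0 := by positivity
    linarith
  obtain ⟨H, hH⟩ : ∃ H : ℕ, H = ⌊c0 / 6 * Real.log (Real.log N)⌋₊ := ⟨_, rfl⟩
  have hHle : (H : ℝ) ≤ c0 / 6 * Real.log (Real.log N) := by
    rw [hH]
    exact Nat.floor_le (by positivity)
  have h1 := h N hN1 (TH H N) (by
    have h2 : ((TH H N).card : ℝ) ≤ ((H + 1 : ℕ) : ℝ) * ((Nat.log 2 N : ℕ) + 1) := by exact_mod_cast TH_card H N
    refine h2.trans ?_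
    have h3 := log2_le hN3
    have h4 : ((H + 1 : ℕ) : ℝ) ≤ c0 / 3 * Real.log (Real.log N) := by
      push_cast
      have h5 : 1 ≤ c0 / 6 * Real.log (Real.log N) := by
        have h6 : c0 / 6 * (6 / c0 + 1) ≤ c0 / 6 * Real.log (Real.log N) := mul_le_mul_of_nonneg_left hLL (by positivity)
        have h7 : c0 / 6 * (6 / c0 + 1) = 1 + c0 / 6 := by field_simp
        linarith
      linarith
    calc ((H + 1 : ℕ) : ℝ) * ((Nat.log 2 N : ℕ) + 1) ≤ (c0 / 3 * Real.log (Real.log N)) * (3 * Real.log N) :=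
          mul_le_mul h4 h3 (by positivity) (by positivity)
      _ = c0 * Real.log N * Real.log (Real.log N) := by ring)
  have h3 : ({n : ℕ | 1 ≤ n ∧ n ≤ N ∧ Odd n ∧ ∀ s ∈ TH H N, s < n → ¬ IsPrimePow (n - s)}.ncard : ℝ) ≤
    ({n : ℕ | 1 ≤ n ∧ n ≤ N ∧ Odd n ∧ ∀ h k : ℕ, h ≤ H → 2 ^ k < n + 2 * h → ¬ IsPrimePow (n + 2 * h - 2 ^ k)}.ncard : ℝ) + 2 * H := by
    exact_mod_cast run_sub (H := H) (N := N)
  have h5 : ({n : ℕ | 1 ≤ n ∧ n ≤ N ∧ Odd n ∧ ∀ h k : ℕ, h ≤ H → 2 ^ k < n + 2 * h → ¬ IsPrimePow (n + 2 * h - 2 ^ k)}.ncard : ℝ) ≤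
      ({n : ℕ | 1 ≤ n ∧ n ≤ N ∧ Odd n ∧ ∀ h k : ℕ, (h : ℝ) ≤ c0 / 6 * Real.log (Real.log N) → 2 ^ k < n + 2 * h →
        ¬ IsPrimePow (n + 2 * h - 2 ^ k)}.ncard : ℝ) := by
    norm_cast
    refine Set.ncard_le_ncard ?_ ((Set.finite_Icc 1 N).subset (fun n hn => ⟨hn.1, hn.2.1⟩))
    rintro n ⟨a1, a2, a4, a5⟩
    refine ⟨a1, a2, a4, fun h k hh hlt => a5 h k ?_ hlt⟩
    rw [hH]
    exact Nat.le_floor hh
  have h6 : 2 * (H : ℝ) ≤ (N : ℝ) * Real.exp (- Real.sqrt (Real.log N)) / 4 := by linarith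
  linarith

end H52GS
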