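import Mathlib

/-!
# TOT: `φ(M)/M` for products of numbers `2 ^ (q ^ m) - 1`

The primes dividing `2 ^ (q ^ m) - 1` are those of order `q ^ j`, `1 ≤ j ≤ m`; those of order `d` are `≡ 1` modulo `d` and at most `d` in number, so the sum of their reciprocals is at most `(2 + log d)/d ≤ 2/√d`.
-/

open Finset

namespace H52GS

/-- the primes dividing `2 ^ d - 1` which are `1` modulo `d` -/
def Ad (d : ℕ) : Finset ℕ := (2 ^ d - 1).primeFactors.filter (fun p => d ∣ p - 1)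

theorem Ad_card (d : ℕ) (hd : 1 ≤ d) : (Ad d).card ≤ d := by
  have h1 : ∏ p ∈ Ad d, p ∣ 2 ^ d - 1 := (Finset.prod_dvd_prod_of_subset _ _ _ (Finset.filter_subset _ _)).trans (Nat.prod_primeFactors_dvd _)
  have h0 : 0 < 2 ^ d - 1 := by
    have : 2 ^ 1 ≤ 2 ^ d := Nat.pow_le_pow_right (by norm_num) hd
    omega
  have h2 : ∏ p ∈ Ad d, p ≤ 2 ^ d - 1 := Nat.le_of_dvd h0 h1
  have h3 : 2 ^ (Ad d).card ≤ ∏ p ∈ Ad d, p := by
    rw [← Finset.prod_const]
    refine Finset.prod_le_prod' fun p hp => ?_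
    exact (Nat.prime_of_mem_primeFactors (Finset.mem_filter.1 hp).1).two_le
  have h4 : 2 ^ (Ad d).card < 2 ^ d := by omega
  exact ((Nat.pow_lt_pow_iff_right (by norm_num)).1 h4).le

theorem Ad_sum (d : ℕ) (hd : 1 ≤ d) : ∑ p ∈ Ad d, (1 : ℝ) / p ≤ (2 + Real.log d) / d := by
  have hd0 : (0 : ℝ) < d := by exact_mod_cast hd
  have hp : ∀ p ∈ Ad d, p.Prime ∧ 1 ≤ (p - 1) / d ∧ p = 1 + d * ((p - 1) / d) := by
    intro p hp
    obtain ⟨h1, h2⟩ := Finset.mem_filter.1 hp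
    have hpp := Nat.prime_of_mem_primeFactors h1
    have h3 := hpp.two_le
    have h4 : d * ((p - 1) / d) = p - 1 := Nat.mul_div_cancel' h2
    refine ⟨hpp, ?_, by omega⟩
    rw [Nat.one_le_iff_ne_zero]
    intro h5
    rw [h5] at h4
    omega
  have hle : ∀ p ∈ Ad d, (1 : ℝ) / p ≤ 1 / (d * (((p - 1) / d : ℕ) : ℝ)) := by
    intro p hp'
    obtain ⟨h1, h2, h3⟩ := hp p hp'
    have h4 : (0 : ℝ) < (((p - 1) / d : ℕ) : ℝ) := by exact_mod_cast h2
    refine one_div_le_one_div_of_le (by positivity) ?_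
    have h5 : d * ((p - 1) / d) ≤ p := by omega
    exact_mod_cast h5
  refine (Finset.sum_le_sum hle).trans ?_
  rw [← Finset.sum_filter_add_sum_filter_not (Ad d) (fun p => (p - 1) / d ≤ d)]
  have hA : ∑ p ∈ (Ad d).filter (fun p => (p - 1) / d ≤ d), 1 / (d * (((p - 1) / d : ℕ) : ℝ)) ≤ (1 + Real.log d) / d := by
    have h1 : ∑ p ∈ (Ad d).filter (fun p => (p - 1) / d ≤ d), 1 / (d * (((p - 1) / d : ℕ) : ℝ)) =
        ∑ k ∈ ((Ad d).filter (fun p => (p - 1) / d ≤ d)).image (fun p => (p - 1) / d), 1 / (d * (k : ℝ)) := by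
      rw [Finset.sum_image]
      intro p hp1 p' hp1' e
      have e1 := (hp p (Finset.mem_filter.1 hp1).1).2.2
      have e2 := (hp p' (Finset.mem_filter.1 hp1').1).2.2
      have e' : (p - 1) / d = (p' - 1) / d := e
      rw [e1, e2, e']
    rw [h1]
    have h2 : ((Ad d).filter (fun p => (p - 1) / d ≤ d)).image (fun p => (p - 1) / d) ⊆ Icc 1 d := by
      intro k hk
      obtain ⟨p, hp1, rfl⟩ := Finset.mem_image.1 hk
      obtain ⟨h3, h4⟩ := Finset.mem_filter.1 hp1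
      exact Finset.mem_Icc.2 ⟨(hp p h3).2.1, h4⟩
    refine (Finset.sum_le_sum_of_subset_of_nonneg h2 (fun k _ _ => by positivity)).trans ?_
    have h3 : ∑ k ∈ Icc 1 d, 1 / ((d : ℝ) * (k : ℝ)) = (1 / d) * ∑ k ∈ Icc 1 d, (k : ℝ)⁻¹ := by
      rw [Finset.mul_sum]
      refine Finset.sum_congr rfl fun k _ => ?_
      rw [one_div, mul_inv]
      ring
    rw [h3]
    have h4 := harmonic_le_one_add_log d
    rw [harmonic_eq_sum_Icc] at h4
    push_cast at h4
    calc 1 / (d : ℝ) * ∑ k ∈ Icc 1 d, (k : ℝ)⁻¹ ≤ 1 / (d : ℝ) * (1 + Real.log d) := mul_le_mul_of_nonneg_left h4 (by positivity)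
      _ = (1 + Real.log d) / d := by ring
  have hB : ∑ p ∈ (Ad d).filter (fun p => ¬ (p - 1) / d ≤ d), 1 / (d * (((p - 1) / d : ℕ) : ℝ)) ≤ 1 / d := by
    have h1 : ∀ p ∈ (Ad d).filter (fun p => ¬ (p - 1) / d ≤ d), 1 / (d * (((p - 1) / d : ℕ) : ℝ)) ≤ 1 / ((d : ℝ) * d) := by
      intro p hp1
      have h2 := (Finset.mem_filter.1 hp1).2
      have h3 : (d : ℝ) ≤ (((p - 1) / d : ℕ) : ℝ) := by exact_mod_cast (not_le.1 h2).le
      exact one_div_le_one_div_of_le (by positivity) (mul_le_mul_of_nonneg_left h3 hd0.le)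
    refine (Finset.sum_le_card_nsmul _ _ _ h1).trans ?_
    rw [nsmul_eq_mul]
    have h2 : (((Ad d).filter (fun p => ¬ (p - 1) / d ≤ d)).card : ℝ) ≤ d := by
      exact_mod_cast (Finset.card_filter_le _ _).trans (Ad_card d hd)
    calc (((Ad d).filter (fun p => ¬ (p - 1) / d ≤ d)).card : ℝ) * (1 / ((d : ℝ) * d)) ≤ d * (1 / ((d : ℝ) * d)) :=
          mul_le_mul_of_nonneg_right h2 (by positivity)
      _ = 1 / d := by field_simp
  calc _ ≤ (1 + Real.log d) / d + 1 / d := add_le_add hA hB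
    _ = (2 + Real.log d) / d := by ring

theorem Ad_geom (q j : ℕ) (hq : 2 ≤ q) : ∑ p ∈ Ad (q ^ j), (1 : ℝ) / p ≤ 2 * (5 / 7) ^ j := by
  have hd1 : 1 ≤ q ^ j := Nat.one_le_pow _ _ (by omega)
  refine (Ad_sum (q ^ j) hd1).trans ?_
  set d : ℕ := q ^ j with hd
  have hd1r : (1 : ℝ) ≤ d := by exact_mod_cast hd1
  have hd0 : (0 : ℝ) < d := by linarith
  have hs : 0 < Real.sqrt d := Real.sqrt_pos.2 hd0
  have h1 : Real.log d ≤ 2 * Real.sqrt d - 2 := by
    have h2 := Real.log_le_sub_one_of_pos hs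
    rw [Real.log_sqrt hd0.le] at h2
    linarith
  have h2 : (2 + Real.log d) / d ≤ 2 / Real.sqrt d := by
    rw [div_le_div_iff₀ hd0 hs]
    have h3 : Real.sqrt d * Real.sqrt d = d := Real.mul_self_sqrt hd0.le
    nlinarith
  refine h2.trans ?_
  have h4 : (7 / 5 : ℝ) ^ j ≤ Real.sqrt d := by
    apply Real.le_sqrt_of_sq_le
    rw [← pow_mul, mul_comm, pow_mul, hd]
    push_cast
    refine pow_le_pow_left₀ (by norm_num) ?_ j
    have : (2 : ℝ) ≤ q := by exact_mod_cast hq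
    norm_num
    linarith
  rw [div_le_iff₀ hs]
  have h5 : (5 / 7 : ℝ) ^ j * (7 / 5) ^ j = 1 := by
    rw [← mul_pow]
    norm_num
  have h6 : (0 : ℝ) < (5 / 7) ^ j := by positivity
  calc (2 : ℝ) = 2 * ((5 / 7 : ℝ) ^ j * (7 / 5) ^ j) := by rw [h5, mul_one]
    _ ≤ 2 * ((5 / 7 : ℝ) ^ j * Real.sqrt d) := by
        refine mul_le_mul_of_nonneg_left (mul_le_mul_of_nonneg_left h4 h6.le) (by norm_num)
    _ = _ := by ring

theorem pf_sub (q m : ℕ) (hq : q.Prime) : (2 ^ (q ^ m) - 1).primeFactors ⊆ (Icc 1 m).biUnion (fun j => Ad (q ^ j)) := by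
  intro p hp
  obtain ⟨hpp, hpd, _⟩ := Nat.mem_primeFactors.1 hp
  have : Fact p.Prime := ⟨hpp⟩
  have h1 : (2 : ZMod p) ^ (q ^ m) = 1 := by
    have h2 : ((2 ^ (q ^ m) - 1 : ℕ) : ZMod p) = 0 := (ZMod.natCast_eq_zero_iff _ _).2 hpd
    rw [Nat.cast_sub Nat.one_le_two_pow] at h2
    push_cast at h2
    exact sub_eq_zero.1 h2
  have h20 : (2 : ZMod p) ≠ 0 := by
    intro h
    rw [h, zero_pow (pow_pos hq.pos m).ne'] at h1
    exact zero_ne_one h1
  have h2 : orderOf (2 : ZMod p) ∣ q ^ m := orderOf_dvd_of_pow_eq_one h1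
  obtain ⟨j, hj, hjo⟩ := (Nat.dvd_prime_pow hq).1 h2
  have hj1 : 1 ≤ j := by
    by_contra hcon
    have : j = 0 := by omega
    rw [this, pow_zero, orderOf_eq_one_iff] at hjo
    have h3 : (1 : ZMod p) = 0 := by
      have h4 : (2 : ZMod p) = 1 + 1 := by norm_num
      rw [h4] at hjo
      exact left_eq_add.1 hjo.symm
    exact one_ne_zero h3
  rw [Finset.mem_biUnion]
  refine ⟨j, Finset.mem_Icc.2 ⟨hj1, hj⟩, ?_⟩
  unfold Ad
  rw [Finset.mem_filter, Nat.mem_primeFactors]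
  have h3 : (2 : ZMod p) ^ (q ^ j) = 1 := by rw [← hjo]; exact pow_orderOf_eq_one _
  refine ⟨⟨hpp, ?_, ?_⟩, ?_⟩
  · rw [← ZMod.natCast_eq_zero_iff, Nat.cast_sub Nat.one_le_two_pow]
    push_cast
    rw [h3, sub_self]
  · have h4 : 1 ≤ q ^ j := Nat.one_le_pow _ _ hq.pos
    have : 2 ^ 1 ≤ 2 ^ (q ^ j) := Nat.pow_le_pow_right (by norm_num) h4
    omega
  · rw [← hjo]
    exact ZMod.orderOf_dvd_card_sub_one h20

theorem sum_bU {α β : Type} [DecidableEq α] [DecidableEq β] (s : Finset α) (t : α → Finset β) (f : β → ℝ) (hf : ∀ b, 0 ≤ f b) :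
    ∑ b ∈ s.biUnion t, f b ≤ ∑ a ∈ s, ∑ b ∈ t a, f b := by
  induction s using Finset.induction_on with
  | empty => simp
  | insert a s ha ih =>
    rw [Finset.biUnion_insert, Finset.sum_insert ha]
    have h1 := Finset.sum_union_inter (s₁ := t a) (s₂ := s.biUnion t) (f := f)
    have h2 : 0 ≤ ∑ b ∈ t a ∩ s.biUnion t, f b := Finset.sum_nonneg fun b _ => hf b
    linarith

theorem pf_sum (q m : ℕ) (hq : q.Prime) : ∑ p ∈ (2 ^ (q ^ m) - 1 : ℕ).primeFactors, (1 : ℝ) / p ≤ 5 := by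
  refine (Finset.sum_le_sum_of_subset_of_nonneg (pf_sub q m hq) (fun p _ _ => by positivity)).trans ?_
  refine (sum_bU _ _ _ (fun _ => by positivity)).trans ?_
  refine (Finset.sum_le_sum fun j _ => Ad_geom q j hq.two_le).trans ?_
  have h1 : ∀ m : ℕ, ∑ j ∈ Icc 1 m, 2 * (5 / 7 : ℝ) ^ j = 5 - 5 * (5 / 7) ^ m := by
    intro m
    induction m with
    | zero => simp
    | succ m ih =>
      rw [Finset.sum_Icc_succ_top (by omega), ih, pow_succ]
      ring
  rw [h1]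
  have : (0 : ℝ) < (5 / 7) ^ m := by positivity
  linarith

theorem exp_le_one_sub {t : ℝ} (h0 : 0 ≤ t) (h1 : t ≤ 1 / 2) : Real.exp (-(2 * t)) ≤ 1 - t := by
  have h2 := Real.add_one_le_exp (2 * t)
  have h3 : Real.exp (-(2 * t)) ≤ 1 / (2 * t + 1) := by
    rw [Real.exp_neg, inv_eq_one_div]
    exact one_div_le_one_div_of_le (by linarith) h2
  refine h3.trans ?_
  rw [div_le_iff₀ (by linarith)]
  nlinarith

/-- the product of the numbers `2 ^ (q ^ (m q)) - 1`, `q ≤ r` prime -/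
def MM2 (r : ℕ) (m : ℕ → ℕ) : ℕ := ∏ q ∈ (range (r + 1)).filter Nat.Prime, (2 ^ (q ^ m q) - 1)

theorem two_pow_sub_pos {a : ℕ} (ha : 1 ≤ a) : 0 < 2 ^ a - 1 := by
  have : 2 ^ 1 ≤ 2 ^ a := Nat.pow_le_pow_right (by norm_num) ha
  omega

theorem MM2_pos (r : ℕ) (m : ℕ → ℕ) : 0 < MM2 r m := by
  unfold MM2
  refine Finset.prod_pos (fun q hq => ?_)
  exact two_pow_sub_pos (Nat.one_le_pow _ _ (Finset.mem_filter.1 hq).2.pos)

theorem MM2_tot (r : ℕ) (m : ℕ → ℕ) : Real.exp (-(10 * r)) ≤ (Nat.totient (MM2 r m) : ℝ) / (MM2 r m : ℝ) := by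
  have hM := MM2_pos r m
  have hMr : (0 : ℝ) < MM2 r m := by exact_mod_cast hM
  have e3 : (Nat.totient (MM2 r m) : ℝ) / (MM2 r m : ℝ) = ∏ p ∈ (MM2 r m).primeFactors, (1 - (p : ℝ)⁻¹) := by
    have h2 := Nat.totient_eq_mul_prod_factors (MM2 r m)
    rw [div_eq_iff hMr.ne', mul_comm]
    have h3 : ((Nat.totient (MM2 r m) : ℚ) : ℝ) = ((MM2 r m : ℚ) * ∏ p ∈ (MM2 r m).primeFactors, (1 - (p : ℚ)⁻¹) : ℚ) := by rw [h2]
    push_cast at h3
    exact h3
  rw [e3]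
  have h1 : ∑ p ∈ (MM2 r m).primeFactors, (1 : ℝ) / p ≤ 5 * r := by
    have h2 : (MM2 r m).primeFactors ⊆ ((range (r + 1)).filter Nat.Prime).biUnion (fun q => (2 ^ (q ^ m q) - 1).primeFactors) := by
      intro p hp
      obtain ⟨hpp, hpd, _⟩ := Nat.mem_primeFactors.1 hp
      unfold MM2 at hpd
      obtain ⟨q, hq, hpq⟩ := (hpp.prime.dvd_finsetProd_iff _).1 hpd
      rw [Finset.mem_biUnion]
      refine ⟨q, hq, Nat.mem_primeFactors.2 ⟨hpp, hpq, ?_⟩⟩
      exact (two_pow_sub_pos (Nat.one_le_pow _ _ (Finset.mem_filter.1 hq).2.pos)).ne'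
    refine (Finset.sum_le_sum_of_subset_of_nonneg h2 (fun p _ _ => by positivity)).trans ?_
    refine (sum_bU _ _ _ (fun _ => by positivity)).trans ?_
    refine (Finset.sum_le_sum fun q hq => pf_sum q (m q) (Finset.mem_filter.1 hq).2).trans ?_
    rw [Finset.sum_const, nsmul_eq_mul]
    have h3 : ((range (r + 1)).filter Nat.Prime).card ≤ r := by
      have h4 : (range (r + 1)).filter Nat.Prime ⊆ Icc 1 r := by
        intro q hq
        rw [Finset.mem_filter, Finset.mem_range] at hq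
        have := hq.2.pos
        rw [Finset.mem_Icc]
        omega
      have := Finset.card_le_card h4
      rwa [Nat.card_Icc, Nat.add_sub_cancel] at this
    have h4 : (((range (r + 1)).filter Nat.Prime).card : ℝ) ≤ r := by exact_mod_cast h3
    linarith
  have h2 : Real.exp (-(10 * r)) ≤ Real.exp (∑ p ∈ (MM2 r m).primeFactors, -(2 * ((1 : ℝ) / p))) := by
    apply Real.exp_le_exp.2
    rw [Finset.sum_neg_distrib, ← Finset.mul_sum]
    linarith
  refine h2.trans ?_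
  rw [Real.exp_sum]
  refine Finset.prod_le_prod (fun p _ => (Real.exp_pos _).le) fun p hp => ?_
  have hp2 : (2 : ℝ) ≤ p := by exact_mod_cast (Nat.prime_of_mem_primeFactors hp).two_le
  have h3 : (1 : ℝ) / p ≤ 1 / 2 := one_div_le_one_div_of_le (by norm_num) hp2
  have h4 := exp_le_one_sub (by positivity : (0 : ℝ) ≤ 1 / p) h3
  rw [← one_div]
  exact h4

end H52GS
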