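import Pool.Agent.H52.GS.Pg
import Pool.Agent.H52.GS.Bal
import Pool.Agent.H52.GS.Tot
import Pool.Agent.H52.GS.Sp

/-!
# ESC: balanced multisets of exponents, the core

`M = ∏_{q ≤ r prime} (2 ^ (q ^ (m q)) - 1)`, `m q` least with `L < (J + 1) q ^ (m q)`, `n ≡ M` modulo `2 M`. A multiset balanced at a level `< m q` gives a divisor of `n - s_K` which divides `M`; if all its elements are congruent
modulo `q ^ (m q)` then `s_K` is one of at most `(L + 1) (J + 2)^(r - 1)` numbers, which are added to `S`.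
-/

open Finset

namespace H52GS

theorem Esc_m (L J q : ℕ) (hq : 2 ≤ q) (hJ : J + 1 ≤ L) : ∃ m : ℕ, L < (J + 1) * q ^ m ∧ (J + 1) * q ^ m ≤ q * L ∧
    ∀ j : ℕ, (J + 1) * q ^ j ≤ L → j + 1 ≤ m := by
  classical
  have hex : ∃ m : ℕ, L < (J + 1) * q ^ m := by
    refine ⟨L, ?_⟩
    have h1 : L < q ^ L := Nat.lt_pow_self (by omega)
    calc L < q ^ L := h1
      _ ≤ (J + 1) * q ^ L := Nat.le_mul_of_pos_left _ (by omega)
  refine ⟨Nat.find hex, Nat.find_spec hex, ?_, ?_⟩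
  · obtain ⟨m, hm⟩ : ∃ m, m = Nat.find hex := ⟨_, rfl⟩
    rw [← hm]
    rcases Nat.eq_zero_or_pos m with h0 | h0
    · rw [h0, pow_zero, mul_one]
      calc J + 1 ≤ L := hJ
        _ ≤ q * L := Nat.le_mul_of_pos_left _ (by omega)
    · have h1 : ¬ L < (J + 1) * q ^ (m - 1) := by
        rw [hm]
        exact Nat.find_min hex (by omega)
      have h2 : (J + 1) * q ^ m = q * ((J + 1) * q ^ (m - 1)) := by
        have h3 : q ^ m = q ^ (m - 1) * q := by
          rw [← pow_succ]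
          congr 1
          omega
        rw [h3]
        ring
      rw [h2]
      exact Nat.mul_le_mul_left _ (not_lt.1 h1)
  · intro j hj
    by_contra hcon
    have h1 : Nat.find hex ≤ j := by omega
    have h2 : q ^ (Nat.find hex) ≤ q ^ j := Nat.pow_le_pow_right (by omega) h1
    have h3 := Nat.find_spec hex
    have h4 : (J + 1) * q ^ (Nat.find hex) ≤ (J + 1) * q ^ j := Nat.mul_le_mul_left _ h2
    omega

/-- the rows -/
def Rows (L J r Q : ℕ) : Finset ℕ :=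
  ((range (L + 1)) ×ˢ (AS ((range (J + 1)).image (fun t => 2 ^ (Q * t))) (r - 1))).image (fun x => 2 ^ x.1 * (1 + x.2))

theorem Rows_card (L J r Q : ℕ) : (Rows L J r Q).card ≤ (L + 1) * (J + 2) ^ (r - 1) := by
  unfold Rows
  refine Finset.card_image_le.trans ?_
  rw [Finset.card_product, Finset.card_range]
  refine Nat.mul_le_mul_left _ ((AS_card _ _).trans (Nat.pow_le_pow_left ?_ _))
  have : ((range (J + 1)).image (fun t => 2 ^ (Q * t))).card ≤ J + 1 := by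
    refine Finset.card_image_le.trans ?_
    rw [Finset.card_range]
  omega

theorem le_sum_of_mem (K : Multiset ℕ) (e : ℕ) (he : e ∈ K) : 2 ^ e ≤ (K.map (fun e => 2 ^ e)).sum :=
  Multiset.single_le_sum (fun _ _ => Nat.zero_le _) _ (Multiset.mem_map_of_mem _ he)

theorem Rows_mem {L J r Q N : ℕ} (hL : L = Nat.log 2 N) (hQ : L < (J + 1) * Q) {K : Multiset ℕ} (h0 : K ≠ 0)
    (hr : K.card ≤ r) (hK : ∀ a ∈ K, ∀ b ∈ K, a ≡ b [MOD Q]) (hN : (K.map (fun e => 2 ^ e)).sum ≤ N) :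
    (K.map (fun e => 2 ^ e)).sum ∈ Rows L J r Q := by
  classical
  have hQ0 : 0 < Q := by
    rcases Nat.eq_zero_or_pos Q with h | h
    · rw [h] at hQ
      omega
    · exact h
  have hne : K.toFinset.Nonempty := by
    rw [Multiset.toFinset_nonempty]
    exact h0
  obtain ⟨b, hb, hmin⟩ := Finset.exists_min_image K.toFinset id hne
  rw [Multiset.mem_toFinset] at hb
  obtain ⟨K', rfl⟩ := Multiset.exists_cons_of_mem hb
  have hle : ∀ e ∈ b ::ₘ K', e ≤ L := by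
    intro e he
    rw [hL]
    exact Nat.le_log_of_pow_le (by norm_num) ((le_sum_of_mem _ e he).trans hN)
  have hmem : ∀ e ∈ K', 2 ^ (Q * ((e - b) / Q)) ∈ (range (J + 1)).image (fun t => 2 ^ (Q * t)) := by
    intro e he
    rw [Finset.mem_image]
    refine ⟨(e - b) / Q, Finset.mem_range.2 ?_, rfl⟩
    rw [Nat.div_lt_iff_lt_mul hQ0]
    have := hle e (Multiset.mem_cons_of_mem he)
    omega
  have heq : ∀ e ∈ K', 2 ^ e = 2 ^ b * 2 ^ (Q * ((e - b) / Q)) := by
    intro e he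
    rw [← pow_add]
    congr 1
    have h1 : b ≤ e := hmin e (Multiset.mem_toFinset.2 (Multiset.mem_cons_of_mem he))
    have h2 : Q ∣ e - b := (Nat.modEq_iff_dvd' h1).1 (hK b (Multiset.mem_cons_self _ _) e (Multiset.mem_cons_of_mem he))
    rw [Nat.mul_div_cancel' h2]
    omega
  have hsum : ((b ::ₘ K').map (fun e => 2 ^ e)).sum = 2 ^ b * (1 + (K'.map (fun e => 2 ^ (Q * ((e - b) / Q)))).sum) := by
    rw [Multiset.map_cons, Multiset.sum_cons, mul_add, mul_one, ← Multiset.sum_map_mul_left]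
    congr 1
    congr 1
    exact Multiset.map_congr rfl heq
  unfold Rows
  rw [Finset.mem_image]
  refine ⟨(b, (K'.map (fun e => 2 ^ (Q * ((e - b) / Q)))).sum), ?_, hsum.symm⟩
  rw [Finset.mem_product, Finset.mem_range]
  refine ⟨Nat.lt_succ_of_le (hle b (Multiset.mem_cons_self _ _)), ?_⟩
  refine AS_mem _ _ K' (r - 1) ?_ hmem
  rw [Multiset.card_cons] at hr
  omega

/-- the exceptional numbers -/
def Exc (L r M : ℕ) : Finset ℕ :=
  ((AS ((range (L + 1)).image (fun e => 2 ^ e)) r) ×ˢ (M.primeFactors ×ˢ (range (L + 1)))).image (fun x => x.2.1 ^ x.2.2 + x.1)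

theorem omega_le {M N : ℕ} (hM : 0 < M) (hMN : M ≤ N) : M.primeFactors.card ≤ Nat.log 2 N := by
  apply Nat.le_log_of_pow_le (by norm_num)
  calc 2 ^ M.primeFactors.card ≤ ∏ p ∈ M.primeFactors, p := by
        rw [← Finset.prod_const]
        exact Finset.prod_le_prod' fun p hp => (Nat.prime_of_mem_primeFactors hp).two_le
    _ ≤ M := Nat.le_of_dvd hM (Nat.prod_primeFactors_dvd M)
    _ ≤ N := hMN

theorem Exc_card {L r M N : ℕ} (hL : L = Nat.log 2 N) (hM : 0 < M) (hMN : M ≤ N) : (Exc L r M).card ≤ (L + 2) ^ (r + 2) := by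
  unfold Exc
  refine Finset.card_image_le.trans ?_
  rw [Finset.card_product, Finset.card_product, Finset.card_range]
  have h1 : (AS ((range (L + 1)).image (fun e => 2 ^ e)) r).card ≤ (L + 2) ^ r := by
    refine (AS_card _ _).trans (Nat.pow_le_pow_left ?_ _)
    have : ((range (L + 1)).image (fun e => 2 ^ e)).card ≤ L + 1 := by
      refine Finset.card_image_le.trans ?_
      rw [Finset.card_range]
    omega
  have h2 := omega_le hM hMN
  rw [← hL] at h2
  calc _ ≤ (L + 2) ^ r * ((L + 2) * (L + 2)) := Nat.mul_le_mul h1 (Nat.mul_le_mul (by omega) (by omega))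
    _ = _ := by ring

/-- the numbers which are not a prime power plus an element of `S` or a sum over a balanced multiset -/
def GG2 (N r J : ℕ) (S : Finset ℕ) : Set ℕ :=
  {n : ℕ | n ≤ N ∧ Odd n ∧ (∀ s ∈ S, ∀ p a : ℕ, p.Prime → n ≠ p ^ (a + 1) + s) ∧
    ∀ K : Multiset ℕ, K.card ≤ r → (∃ q j : ℕ, q.Prime ∧ Bal q j K ∧ ((J + 1) * q ^ j ≤ Nat.log 2 N ∨ ∀ a ∈ K, ∀ b ∈ K, a ≡ b [MOD q ^ j])) →
      ∀ p a : ℕ, p.Prime → n ≠ p ^ (a + 1) + (K.map (fun e => 2 ^ e)).sum}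

theorem MM2_odd (r : ℕ) (m : ℕ → ℕ) : Odd (MM2 r m) := by
  unfold MM2
  refine Finset.prod_induction _ Odd (fun a b ha hb => ha.mul hb) odd_one (fun q hq => ?_)
  have h1 : q ^ m q ≠ 0 := (pow_pos (Finset.mem_filter.1 hq).2.pos _).ne'
  have h2 : Even (2 ^ (q ^ m q)) := (Nat.even_pow.2 ⟨even_two, h1⟩)
  exact Nat.Even.sub_odd Nat.one_le_two_pow h2 odd_one

theorem esc_sub {N r J : ℕ} {m : ℕ → ℕ} {S : Finset ℕ} (hm : ∀ q : ℕ, q.Prime → Nat.log 2 N < (J + 1) * q ^ m q ∧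
    ∀ j : ℕ, (J + 1) * q ^ j ≤ Nat.log 2 N → j + 1 ≤ m q) {n : ℕ} (hn : n ≤ N) (hnM : MM2 r m ∣ n)
    (hS : ∀ s ∈ S ∪ ({0} ∪ ((range (r + 1)).filter Nat.Prime).biUnion (fun q => Rows (Nat.log 2 N) J r (q ^ m q))), s < n → ¬ IsPrimePow (n - s))
    (hE : n ∉ Exc (Nat.log 2 N) r (MM2 r m)) (hodd : Odd n) : n ∈ GG2 N r J S := by
  have key : ∀ s ∈ S ∪ ({0} ∪ ((range (r + 1)).filter Nat.Prime).biUnion (fun q => Rows (Nat.log 2 N) J r (q ^ m q))),
      ∀ p a : ℕ, p.Prime → n ≠ p ^ (a + 1) + s := by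
    intro s hs p a hp hnp
    have h1 : 0 < p ^ (a + 1) := pow_pos hp.pos _
    refine hS s hs (by omega) ?_
    have h2 : n - s = p ^ (a + 1) := by omega
    rw [h2]
    exact hp.isPrimePow.pow (by omega)
  refine ⟨hn, hodd, fun s hs => key s (Finset.mem_union_left _ hs), ?_⟩
  rintro K hKr ⟨q, j, hq, hbal, hcase⟩ p a hp hnp
  by_cases h0 : K = 0
  · subst h0
    refine key 0 (Finset.mem_union_right _ (Finset.mem_union_left _ (Finset.mem_singleton_self 0))) p a hp ?_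
    simpa using hnp
  have hqr : q ≤ r := (bal_card hq.pos hbal h0).trans hKr
  have hqm : q ∈ (range (r + 1)).filter Nat.Prime := Finset.mem_filter.2 ⟨Finset.mem_range.2 (by omega), hq⟩
  obtain ⟨hm1, hm2⟩ := hm q hq
  have hsN : (K.map (fun e => 2 ^ e)).sum ≤ N := by omega
  by_cases hj : j + 1 ≤ m q
  · apply hE
    have hdM : (2 ^ (q ^ m q) - 1) ∣ MM2 r m := by
      unfold MM2
      exact Finset.dvd_prod_of_mem (fun q => 2 ^ (q ^ m q) - 1) hqm
    have hΨM : (∑ i ∈ range q, 2 ^ (q ^ j * i)) ∣ MM2 r m := (psi_dvd hj).trans hdM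
    have hΨs := bal_dvd hq.pos hbal
    have hΨn := hΨM.trans hnM
    have hΨp : (∑ i ∈ range q, 2 ^ (q ^ j * i)) ∣ p ^ (a + 1) := by
      have h1 : p ^ (a + 1) = n - (K.map (fun e => 2 ^ e)).sum := by omega
      rw [h1]
      exact Nat.dvd_sub hΨn hΨs
    have hΨ1 : (∑ i ∈ range q, 2 ^ (q ^ j * i)) ≠ 1 := by
      have h1 : 2 ^ (q ^ j * 0) + 2 ^ (q ^ j * 1) ≤ ∑ i ∈ range q, 2 ^ (q ^ j * i) := by
        have h2 : ({0, 1} : Finset ℕ) ⊆ range q := by
          intro i hi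
          rw [Finset.mem_insert, Finset.mem_singleton] at hi
          have := hq.two_le
          rw [Finset.mem_range]
          omega
        have h3 := Finset.sum_le_sum_of_subset (f := fun i => 2 ^ (q ^ j * i)) h2
        rw [Finset.sum_pair (by norm_num)] at h3
        exact h3
      have h2 : 1 ≤ 2 ^ (q ^ j * 1) := Nat.one_le_two_pow
      rw [mul_zero, pow_zero] at h1
      omega
    obtain ⟨p', hp', hp'd⟩ := Nat.exists_prime_and_dvd hΨ1
    have hpp : p' = p := (Nat.prime_dvd_prime_iff_eq hp' hp).1 (hp'.dvd_of_dvd_pow (hp'd.trans hΨp))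
    subst hpp
    unfold Exc
    rw [Finset.mem_image]
    refine ⟨((K.map (fun e => 2 ^ e)).sum, (p', a + 1)), ?_, hnp.symm⟩
    rw [Finset.mem_product, Finset.mem_product]
    refine ⟨AS_mem _ _ K r hKr ?_, Nat.mem_primeFactors.2 ⟨hp, hp'd.trans hΨM, (MM2_pos r m).ne'⟩, ?_⟩
    · intro e he
      rw [Finset.mem_image]
      refine ⟨e, Finset.mem_range.2 (Nat.lt_succ_of_le ?_), rfl⟩
      exact Nat.le_log_of_pow_le (by norm_num) ((le_sum_of_mem K e he).trans hsN)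
    · show a + 1 ∈ range (Nat.log 2 N + 1)
      rw [Finset.mem_range]
      refine Nat.lt_succ_of_le (Nat.le_log_of_pow_le (by norm_num) ?_)
      calc 2 ^ (a + 1) ≤ p' ^ (a + 1) := Nat.pow_le_pow_left hp.two_le _
        _ ≤ N := by omega
  · have hcong : ∀ a ∈ K, ∀ b ∈ K, a ≡ b [MOD q ^ m q] := by
      rcases hcase with h | h
      · exact absurd (hm2 j h) hj
      · intro a ha b hb
        exact Nat.ModEq.of_dvd (pow_dvd_pow q (by omega)) (h a ha b hb)
    refine key _ (Finset.mem_union_right _ (Finset.mem_union_right _ (Finset.mem_biUnion.2 ⟨q, hqm, ?_⟩))) p a hp hnp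
    exact Rows_mem rfl hm1 h0 hKr hcong hsN

theorem MM2_le {r J L : ℕ} {m : ℕ → ℕ} (hm : ∀ q : ℕ, q.Prime → (J + 1) * q ^ m q ≤ q * L) :
    MM2 r m ^ (J + 1) ≤ 2 ^ (r ^ 2 * L) := by
  unfold MM2
  have h1 : (∏ q ∈ (range (r + 1)).filter Nat.Prime, (2 ^ (q ^ m q) - 1)) ^ (J + 1) ≤
      ∏ q ∈ (range (r + 1)).filter Nat.Prime, 2 ^ (r * L) := by
    rw [← Finset.prod_pow]
    refine Finset.prod_le_prod' fun q hq => ?_
    obtain ⟨h1, h2⟩ := Finset.mem_filter.1 hq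
    have h3 := Finset.mem_range.1 h1
    calc (2 ^ (q ^ m q) - 1) ^ (J + 1) ≤ (2 ^ (q ^ m q)) ^ (J + 1) := Nat.pow_le_pow_left (Nat.sub_le _ _) _
      _ = 2 ^ ((J + 1) * q ^ m q) := by rw [← pow_mul, mul_comm]
      _ ≤ 2 ^ (r * L) := Nat.pow_le_pow_right (by norm_num) ((hm q h2).trans (Nat.mul_le_mul_right _ (by omega)))
  refine h1.trans ?_
  rw [Finset.prod_const, ← pow_mul]
  apply Nat.pow_le_pow_right (by norm_num)
  have h4 : ((range (r + 1)).filter Nat.Prime).card ≤ r := by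
    have h4 : (range (r + 1)).filter Nat.Prime ⊆ Icc 1 r := by
      intro q hq
      rw [Finset.mem_filter, Finset.mem_range] at hq
      have := hq.2.pos
      rw [Finset.mem_Icc]
      omega
    have := Finset.card_le_card h4
    rwa [Nat.card_Icc, Nat.add_sub_cancel] at this
  calc r * L * ((range (r + 1)).filter Nat.Prime).card ≤ r * L * r := Nat.mul_le_mul_left _ h4
    _ = r ^ 2 * L := by ring

theorem MM2_log {r J N : ℕ} {m : ℕ → ℕ} (hN : 1 ≤ N) (hm : ∀ q : ℕ, q.Prime → (J + 1) * q ^ m q ≤ q * Nat.log 2 N) :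
    Real.log (MM2 r m) ≤ (r : ℝ) ^ 2 * Real.log N / ((J : ℝ) + 1) := by
  have h1 := MM2_le (r := r) hm
  have hM : (0 : ℝ) < MM2 r m := by exact_mod_cast MM2_pos r m
  have h2 : ((MM2 r m : ℝ)) ^ (J + 1) ≤ (2 : ℝ) ^ (r ^ 2 * Nat.log 2 N) := by exact_mod_cast h1
  have h3 := Real.log_le_log (by positivity) h2
  rw [Real.log_pow, Real.log_pow] at h3
  have h4 : (2 : ℝ) ^ (Nat.log 2 N) ≤ N := by exact_mod_cast Nat.pow_log_le_self 2 (by omega)
  have h5 := Real.log_le_log (by positivity) h4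
  rw [Real.log_pow] at h5
  rw [le_div_iff₀ (by positivity)]
  push_cast at h3
  calc Real.log (MM2 r m) * ((J : ℝ) + 1) = ((J : ℝ) + 1) * Real.log (MM2 r m) := by ring
    _ ≤ (r : ℝ) ^ 2 * (Nat.log 2 N : ℝ) * Real.log 2 := h3
    _ = (r : ℝ) ^ 2 * ((Nat.log 2 N : ℝ) * Real.log 2) := by ring
    _ ≤ (r : ℝ) ^ 2 * Real.log N := mul_le_mul_of_nonneg_left h5 (by positivity)

/-- the core -/
theorem esc : ∃ c : ℝ, 0 < c ∧ ∃ N0 : ℕ, ∀ N : ℕ, N0 ≤ N → ∀ r J : ℕ, J + 1 ≤ Nat.log 2 N →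
    2 * Real.exp ((r : ℝ) ^ 2 * Real.log N / ((J : ℝ) + 1)) ≤ (N : ℝ) ^ (1 / 4 : ℝ) → ∀ S : Finset ℕ,
    (S.card : ℝ) + 1 + r * (((Nat.log 2 N : ℕ) : ℝ) + 1) * ((J : ℝ) + 2) ^ (r - 1) ≤
      c * Real.exp (-(10 * r)) * (Real.log N * Real.log (Real.log N)) →
    (N : ℝ) * Real.exp (-((r : ℝ) ^ 2 * Real.log N / ((J : ℝ) + 1) + Real.sqrt (Real.log N))) / 2 ≤
      ((GG2 N r J S).ncard : ℝ) + (((Nat.log 2 N : ℕ) : ℝ) + 2) ^ (r + 2) := by
  classical
  obtain ⟨c, hc, N0, hpag⟩ := pag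
  refine ⟨c / 2, by positivity, max N0 1, ?_⟩
  intro N hN r J hJ hsize S hS
  have hN0 : N0 ≤ N := (le_max_left _ _).trans hN
  have hN1 : 1 ≤ N := (le_max_right _ _).trans hN
  have hNr : (1 : ℝ) ≤ N := by exact_mod_cast hN1
  obtain ⟨L, hL⟩ : ∃ L : ℕ, L = Nat.log 2 N := ⟨_, rfl⟩
  have hm : ∀ q : ℕ, ∃ m : ℕ, q.Prime → (L < (J + 1) * q ^ m ∧ (J + 1) * q ^ m ≤ q * L ∧ ∀ j : ℕ, (J + 1) * q ^ j ≤ L → j + 1 ≤ m) := by
    intro q
    by_cases hq : q.Prime
    · obtain ⟨m, hm⟩ := Esc_m L J q hq.two_le (by omega)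
      exact ⟨m, fun _ => hm⟩
    · exact ⟨0, fun h => absurd h hq⟩
  choose m hm using hm
  obtain ⟨M, hMdef⟩ : ∃ M : ℕ, M = MM2 r m := ⟨_, rfl⟩
  have hM : 0 < M := by rw [hMdef]; exact MM2_pos r m
  have hModd : Odd M := by rw [hMdef]; exact MM2_odd r m
  have hMr : (0 : ℝ) < M := by exact_mod_cast hM
  have hMlog : Real.log M ≤ (r : ℝ) ^ 2 * Real.log N / ((J : ℝ) + 1) := by
    rw [hMdef]
    refine MM2_log hN1 (fun q hq => ?_)
    rw [← hL]
    exact (hm q hq).2.1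
  have hMle : (M : ℝ) ≤ Real.exp ((r : ℝ) ^ 2 * Real.log N / ((J : ℝ) + 1)) := (Real.log_le_iff_le_exp hMr).1 hMlog
  have h2M : ((2 * M : ℕ) : ℝ) ≤ (N : ℝ) ^ (1 / 4 : ℝ) := by
    push_cast
    linarith
  have hMN : M ≤ N := by
    have h1 : (N : ℝ) ^ (1 / 4 : ℝ) ≤ N := by
      calc (N : ℝ) ^ (1 / 4 : ℝ) ≤ (N : ℝ) ^ (1 : ℝ) := Real.rpow_le_rpow_of_exponent_le hNr (by norm_num)
        _ = N := Real.rpow_one _
    have h2 : ((2 * M : ℕ) : ℝ) ≤ N := h2M.trans h1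
    have h3 : 2 * M ≤ N := by exact_mod_cast h2
    omega
  obtain ⟨S', hS'⟩ : ∃ S' : Finset ℕ, S' = S ∪ ({0} ∪ ((range (r + 1)).filter Nat.Prime).biUnion (fun q => Rows L J r (q ^ m q))) := ⟨_, rfl⟩
  have hcardr : ((range (r + 1)).filter Nat.Prime).card ≤ r := by
    have h4 : (range (r + 1)).filter Nat.Prime ⊆ Icc 1 r := by
      intro q hq
      rw [Finset.mem_filter, Finset.mem_range] at hq
      have := hq.2.pos
      rw [Finset.mem_Icc]
      omega
    have := Finset.card_le_card h4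
    rwa [Nat.card_Icc, Nat.add_sub_cancel] at this
  have hS'card : S'.card ≤ S.card + (1 + r * ((L + 1) * (J + 2) ^ (r - 1))) := by
    rw [hS']
    refine (Finset.card_union_le _ _).trans (Nat.add_le_add_left ?_ _)
    refine (Finset.card_union_le _ _).trans (Nat.add_le_add (by simp) ?_)
    refine Finset.card_biUnion_le.trans ?_
    refine (Finset.sum_le_card_nsmul _ _ ((L + 1) * (J + 2) ^ (r - 1)) (fun q _ => Rows_card _ _ _ _)).trans ?_
    rw [smul_eq_mul]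
    exact Nat.mul_le_mul_right _ hcardr
  have hφ : Real.exp (-(10 * r)) / 2 ≤ (Nat.totient (2 * M) : ℝ) / ((2 * M : ℕ) : ℝ) := by
    have h1 : Nat.totient (2 * M) = Nat.totient M := by
      rw [Nat.totient_mul (Nat.coprime_two_left.2 hModd), Nat.totient_two, one_mul]
    rw [h1]
    have h2 := MM2_tot r m
    rw [← hMdef] at h2
    push_cast
    calc Real.exp (-(10 * r)) / 2 ≤ (Nat.totient M : ℝ) / M / 2 := by linarith
      _ = _ := by
          rw [div_div, mul_comm (M : ℝ) 2]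
  by_cases hLL : 0 ≤ Real.log N * Real.log (Real.log N)
  swap
  · exfalso
    push Not at hLL
    have h1 : c / 2 * Real.exp (-(10 * r)) * (Real.log N * Real.log (Real.log N)) < 0 :=
      mul_neg_of_pos_of_neg (by positivity) hLL
    have h2 : (0 : ℝ) ≤ (S.card : ℝ) + 1 + r * (((Nat.log 2 N : ℕ) : ℝ) + 1) * ((J : ℝ) + 2) ^ (r - 1) := by positivity
    linarith
  have hmain := hpag N hN0 (2 * M) M (by omega) (by omega) h2M S' (by
    have h1 : (S'.card : ℝ) ≤ S.card + (1 + r * (((L : ℝ) + 1) * ((J : ℝ) + 2) ^ (r - 1))) := by exact_mod_cast hS'card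
    have h2 : c * (Real.log N * Real.log (Real.log N)) * (Real.exp (-(10 * r)) / 2) ≤
        c * (Real.log N * Real.log (Real.log N)) * ((Nat.totient (2 * M) : ℝ) / ((2 * M : ℕ) : ℝ)) :=
      mul_le_mul_of_nonneg_left hφ (mul_nonneg hc.le hLL)
    refine le_trans ?_ h2
    rw [← hL] at hS
    linarith)
  -- the set
  obtain ⟨F, hF⟩ : ∃ F : Finset ℕ, F = (Icc 1 N).filter (fun n => n % (2 * M) = M ∧ ∀ s ∈ S', s < n → ¬ IsPrimePow (n - s)) := ⟨_, rfl⟩
  have hmain' : (N : ℝ) / ((2 * M : ℕ) : ℝ) ≤ Real.exp (Real.sqrt (Real.log N)) * (F.card : ℝ) := by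
    rw [hF]
    convert hmain using 3
  have hsub : (F : Set ℕ) ⊆ GG2 N r J S ∪ (Exc L r M : Set ℕ) := by
    intro n hn
    rw [Finset.mem_coe, hF, Finset.mem_filter, Finset.mem_Icc] at hn
    obtain ⟨⟨hn1, hn2⟩, hn3, hn4⟩ := hn
    by_cases hE : n ∈ Exc L r M
    · exact Or.inr (Finset.mem_coe.2 hE)
    · left
      have hnd : n = 2 * M * (n / (2 * M)) + M := by
        conv_lhs => rw [← Nat.div_add_mod n (2 * M), hn3]
      have hMn : M ∣ n := by
        rw [hnd]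
        exact dvd_add (Dvd.intro _ (by ring : M * (2 * (n / (2 * M))) = 2 * M * (n / (2 * M)))) dvd_rfl
      have hno : Odd n := by
        rw [hnd]
        refine Even.add_odd ?_ hModd
        exact ⟨M * (n / (2 * M)), by ring⟩
      refine esc_sub (m := m) (r := r) (J := J) (S := S) ?_ hn2 (by rw [← hMdef]; exact hMn) ?_ ?_ hno
      · intro q hq
        rw [← hL]
        exact ⟨(hm q hq).1, (hm q hq).2.2⟩
      · rw [← hL, ← hS']
        exact hn4
      · rw [← hL, ← hMdef]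
        exact hE
  have hfin : (GG2 N r J S).Finite := (Set.finite_Iic N).subset (fun n hn => hn.1)
  have hcard : F.card ≤ (GG2 N r J S).ncard + (L + 2) ^ (r + 2) := by
    have h1 := Set.ncard_le_ncard hsub (hfin.union (Finset.finite_toSet _))
    rw [Set.ncard_coe_finset] at h1
    refine h1.trans ((Set.ncard_union_le _ _).trans ?_)
    rw [Set.ncard_coe_finset]
    exact Nat.add_le_add_left (Exc_card hL hM hMN) _
  have hcard' : (F.card : ℝ) ≤ ((GG2 N r J S).ncard : ℝ) + ((L : ℝ) + 2) ^ (r + 2) := by exact_mod_cast hcard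
  rw [← hL]
  refine le_trans ?_ hcard'
  have hE0 := Real.exp_pos (Real.sqrt (Real.log N))
  have h6 : (N : ℝ) / ((2 * M : ℕ) : ℝ) / Real.exp (Real.sqrt (Real.log N)) ≤ F.card := by
    rw [div_le_iff₀ hE0]
    linarith
  refine le_trans ?_ h6
  rw [neg_add, Real.exp_add, Real.exp_neg, Real.exp_neg]
  have hX := Real.exp_pos ((r : ℝ) ^ 2 * Real.log N / ((J : ℝ) + 1))
  push_cast
  rw [div_div, div_le_div_iff₀ (by norm_num) (by positivity)]
  have h7 : (N : ℝ) * ((Real.exp ((r : ℝ) ^ 2 * Real.log N / ((J : ℝ) + 1)))⁻¹ * (Real.exp (Real.sqrt (Real.log N)))⁻¹) *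
      (2 * (M : ℝ) * Real.exp (Real.sqrt (Real.log N))) = (N : ℝ) * 2 * ((M : ℝ) / Real.exp ((r : ℝ) ^ 2 * Real.log N / ((J : ℝ) + 1))) := by
    field_simp
  rw [h7]
  have h8 : (M : ℝ) / Real.exp ((r : ℝ) ^ 2 * Real.log N / ((J : ℝ) + 1)) ≤ 1 := by
    rw [div_le_one hX]
    exact hMle
  calc (N : ℝ) * 2 * ((M : ℝ) / Real.exp ((r : ℝ) ^ 2 * Real.log N / ((J : ℝ) + 1))) ≤ (N : ℝ) * 2 * 1 :=
        mul_le_mul_of_nonneg_left h8 (by positivity)
    _ = _ := by ring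

end H52GS
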