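import Pool.Agent.H52.GS.Df

/-!
# NCO: tuples which are not pairwise coprime

`Mm D f 1` is the sum of `∏ f_i(B_i)/B_i` over the pairwise coprime tuples `B ∈ piFinset D` (coprimality with `1` is void), `∏_i SS (D i) (f i) 1` is the sum over all tuples (`Finset.prod_univ_sum`). So the difference is at
most the sum of `∏ |f_i(B_i)|/B_i` over the tuples with a pair `i ≠ i'` such that `B_i`, `B_i'` have a common prime factor `p`; `p` is coprime to `primorial z * W` (`Good`), so `p > z`, and it is in the finite set `P` of the prime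
factors of the elements of the sets `D i`. Union bound over the ordered pairs `i ≠ i'` (at most `(card ι)^2`) and `p ∈ P`: for given `i, i', p` the sum over all tuples with `p ∣ B_i`, `p ∣ B_i'` factors
(`Finset.prod_univ_sum` with `D i` replaced by `(D i).filter (p ∣ ·)` at `i` and `i'`), it is at most `(3/p)^2 ∏ A i`. Finally `∑_{p ∈ P} 9/p^2 ≤ 9 ∑_{z < n ≤ Y} 1/n^2 ≤ 9/z` (`1/n^2 ≤ 1/(n-1) - 1/n`).
(If `card ι ≤ 1` there are no pairs and the difference is `0`.)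
-/

open Finset EG H69PG

namespace H52GS

/-- the mass of the tuples with `p ∣ B_i`, `p ∣ B_j` -/
lemma nco_pair {ι : Type} [Fintype ι] [DecidableEq ι] {z : ℕ} (D : ι → Finset ℕ) (f : ι → ℕ → ℝ) (A : ι → ℝ)
    (hA : ∀ i, ∑ B ∈ D i, |f i B| / (B : ℝ) ≤ A i)
    (hp : ∀ i, ∀ p : ℕ, p.Prime → z < p → ∑ B ∈ (D i).filter (fun B => p ∣ B), |f i B| / (B : ℝ) ≤ 3 / (p : ℝ) * A i)
    {i j : ι} (hij : i ≠ j) {p : ℕ} (hpp : p.Prime) (hzp : z < p) :
    ∑ B ∈ (Fintype.piFinset D).filter (fun B => p ∣ B i ∧ p ∣ B j), ∏ k, |f k (B k)| / (B k : ℝ) ≤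
      9 * ((p : ℝ) ^ 2)⁻¹ * ∏ k, A k := by
  set D' : ι → Finset ℕ := fun k => if k = i ∨ k = j then (D k).filter (fun B => p ∣ B) else D k with hD'
  have hset : (Fintype.piFinset D).filter (fun B => p ∣ B i ∧ p ∣ B j) = Fintype.piFinset D' := by
    ext B
    simp only [mem_filter, Fintype.mem_piFinset, hD']
    constructor
    · rintro ⟨h1, h2, h3⟩ k
      split_ifs with h
      · rw [mem_filter]
        refine ⟨h1 k, ?_⟩
        rcases h with rfl | rfl
        · exact h2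
        · exact h3
      · exact h1 k
    · intro h
      refine ⟨fun k => ?_, ?_, ?_⟩
      · have hk := h k
        split_ifs at hk with h'
        · exact (mem_filter.1 hk).1
        · exact hk
      · have hk := h i
        rw [if_pos (Or.inl rfl)] at hk
        exact (mem_filter.1 hk).2
      · have hk := h j
        rw [if_pos (Or.inr rfl)] at hk
        exact (mem_filter.1 hk).2
  rw [hset, ← prod_univ_sum D' (fun k B => |f k B| / (B : ℝ))]
  have h0 : ∀ k, 0 ≤ ∑ B ∈ D' k, |f k B| / (B : ℝ) := fun k => sum_nonneg fun B _ => by positivity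
  have hp0 : (0 : ℝ) < p := by exact_mod_cast hpp.pos
  calc ∏ k, ∑ B ∈ D' k, |f k B| / (B : ℝ)
      ≤ ∏ k, ((if k = i ∨ k = j then 3 / (p : ℝ) else 1) * A k) := by
        refine prod_le_prod (fun k _ => h0 k) fun k _ => ?_
        simp only [hD']
        split_ifs with h
        · exact hp k p hpp hzp
        · rw [one_mul]
          exact hA k
    _ = (∏ k, if k = i ∨ k = j then 3 / (p : ℝ) else 1) * ∏ k, A k := prod_mul_distrib
    _ = 9 * ((p : ℝ) ^ 2)⁻¹ * ∏ k, A k := by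
        congr 1
        rw [prod_ite, prod_const, prod_const_one, mul_one]
        have hc : (univ.filter fun k => k = i ∨ k = j) = {i, j} := by
          ext k
          simp
        rw [hc, card_pair hij, div_pow]
        norm_num
        ring

theorem nco {ι : Type} [Fintype ι] [DecidableEq ι] {W z : ℕ} (hz : 1 ≤ z) (D : ι → Finset ℕ) (f : ι → ℕ → ℝ) (A : ι → ℝ)
    (hD : ∀ i, Good (primorial z * W) (D i)) (hA : ∀ i, ∑ B ∈ D i, |f i B| / (B : ℝ) ≤ A i)
    (hp : ∀ i, ∀ p : ℕ, p.Prime → z < p → ∑ B ∈ (D i).filter (fun B => p ∣ B), |f i B| / (B : ℝ) ≤ 3 / (p : ℝ) * A i) :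
    |Mm D f 1 - ∏ i, SS (D i) (f i) 1| ≤ 9 * (Fintype.card ι : ℝ) ^ 2 / z * ∏ i, A i := by
  have hA0 : ∀ i, 0 ≤ A i := fun i => (sum_nonneg fun B _ => by positivity).trans (hA i)
  have hAP : 0 ≤ ∏ i, A i := prod_nonneg fun i _ => hA0 i
  have hz0 : (0 : ℝ) < z := by exact_mod_cast hz
  have hall : ∏ i, SS (D i) (f i) 1 = ∑ B ∈ Fintype.piFinset D, ∏ i, f i (B i) / (B i : ℝ) := by
    have h1 : ∀ i, SS (D i) (f i) 1 = ∑ B ∈ D i, f i B / (B : ℝ) := by
      intro i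
      unfold SS
      rw [filter_true_of_mem fun B _ => one_dvd B]
    simp only [h1]
    exact prod_univ_sum D (fun i B => f i B / (B : ℝ))
  have hdiff : |Mm D f 1 - ∏ i, SS (D i) (f i) 1| ≤
      ∑ B ∈ (Fintype.piFinset D).filter (fun B => ¬ ((∀ i j, i ≠ j → Nat.Coprime (B i) (B j)) ∧
        ∀ i, Nat.Coprime (B i) 1)), ∏ i, |f i (B i)| / (B i : ℝ) := by
    rw [hall, ← sum_filter_add_sum_filter_not (Fintype.piFinset D)
      (fun B => (∀ i j, i ≠ j → Nat.Coprime (B i) (B j)) ∧ ∀ i, Nat.Coprime (B i) 1)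
      (fun B => ∏ i, f i (B i) / (B i : ℝ))]
    have h2 : Mm D f 1 = ∑ B ∈ (Fintype.piFinset D).filter
        (fun B => (∀ i j, i ≠ j → Nat.Coprime (B i) (B j)) ∧ ∀ i, Nat.Coprime (B i) 1),
        ∏ i, f i (B i) / (B i : ℝ) := rfl
    rw [h2, sub_add_cancel_left, abs_neg]
    refine (abs_sum_le_sum_abs _ _).trans (le_of_eq (sum_congr rfl fun B _ => ?_))
    simp only [abs_prod, abs_div, Nat.abs_cast]
  refine hdiff.trans ?_
  set Y : ℕ := ∑ i, ∑ B ∈ D i, B with hY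
  set P : Finset ℕ := (Ioc z Y).filter Nat.Prime with hP
  have hG0 : ∀ B : ι → ℕ, 0 ≤ ∏ i, |f i (B i)| / (B i : ℝ) := fun B =>
    prod_nonneg fun i _ => by positivity
  -- union bound
  have hun : ∀ B ∈ (Fintype.piFinset D).filter (fun B => ¬ ((∀ i j, i ≠ j → Nat.Coprime (B i) (B j)) ∧
        ∀ i, Nat.Coprime (B i) 1)), ∏ i, |f i (B i)| / (B i : ℝ) ≤
      ∑ q ∈ (univ : Finset ι).offDiag, ∑ p ∈ P, if p ∣ B q.1 ∧ p ∣ B q.2 then
        ∏ i, |f i (B i)| / (B i : ℝ) else 0 := by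
    intro B hB
    rw [mem_filter, Fintype.mem_piFinset] at hB
    obtain ⟨hB1, hB2⟩ := hB
    have hB3 : ∃ i j, i ≠ j ∧ ¬ Nat.Coprime (B i) (B j) := by
      by_contra hcon
      push Not at hcon
      exact hB2 ⟨hcon, fun i => Nat.coprime_one_right _⟩
    obtain ⟨i, j, hij, hnc⟩ := hB3
    obtain ⟨p, hpp, hpi, hpj⟩ := Nat.Prime.not_coprime_iff_dvd.1 hnc
    have hgood := hD i (B i) (hB1 i)
    have hzp : z < p := by
      by_contra hle
      have h1 : p ∣ primorial z * W := ((Nat.Prime.dvd_primorial_iff hpp).2 (not_lt.1 hle)).mul_right W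
      have h2 := Nat.dvd_gcd hpi h1
      rw [hgood.2] at h2
      exact hpp.one_lt.ne' (Nat.dvd_one.1 h2)
    have hpY : p ≤ Y := by
      have h1 : p ≤ B i := Nat.le_of_dvd (Nat.pos_of_ne_zero hgood.1.ne_zero) hpi
      have h2 : B i ≤ ∑ B ∈ D i, B := single_le_sum (f := fun B => B) (fun _ _ => Nat.zero_le _) (hB1 i)
      have h3 : ∑ B ∈ D i, B ≤ Y :=
        single_le_sum (f := fun i => ∑ B ∈ D i, B) (fun _ _ => Nat.zero_le _) (mem_univ i)
      omega
    have hpP : p ∈ P := mem_filter.2 ⟨mem_Ioc.2 ⟨hzp, hpY⟩, hpp⟩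
    have hq : (i, j) ∈ (univ : Finset ι).offDiag := by
      rw [mem_offDiag]
      exact ⟨mem_univ _, mem_univ _, hij⟩
    have hn : ∀ q : ι × ι, ∀ p' : ℕ, 0 ≤ (if p' ∣ B q.1 ∧ p' ∣ B q.2 then
        ∏ i, |f i (B i)| / (B i : ℝ) else 0) := by
      intro q p'
      split_ifs
      · exact hG0 B
      · exact le_rfl
    calc ∏ i, |f i (B i)| / (B i : ℝ)
        = if p ∣ B (i, j).1 ∧ p ∣ B (i, j).2 then ∏ i, |f i (B i)| / (B i : ℝ) else 0 := by
          rw [if_pos ⟨hpi, hpj⟩]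
      _ ≤ ∑ p' ∈ P, if p' ∣ B (i, j).1 ∧ p' ∣ B (i, j).2 then ∏ i, |f i (B i)| / (B i : ℝ) else 0 :=
          single_le_sum (f := fun p' => if p' ∣ B (i, j).1 ∧ p' ∣ B (i, j).2 then
            ∏ i, |f i (B i)| / (B i : ℝ) else 0) (fun p' _ => hn (i, j) p') hpP
      _ ≤ _ := single_le_sum (f := fun q : ι × ι => ∑ p' ∈ P, if p' ∣ B q.1 ∧ p' ∣ B q.2 then
            ∏ i, |f i (B i)| / (B i : ℝ) else 0) (fun q _ => sum_nonneg fun p' _ => hn q p') hq
  have hsum1 : ∑ p ∈ P, 9 * ((p : ℝ) ^ 2)⁻¹ ≤ 9 * (z : ℝ)⁻¹ := by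
    rw [← mul_sum]
    refine mul_le_mul_of_nonneg_left ?_ (by norm_num)
    rcases le_or_gt z Y with hzY | hzY
    · have h1 : ∑ p ∈ P, ((p : ℝ) ^ 2)⁻¹ ≤ ∑ p ∈ Ioc z Y, ((p : ℝ) ^ 2)⁻¹ :=
        sum_le_sum_of_subset_of_nonneg (filter_subset _ _) fun _ _ _ => by positivity
      have h2 := sum_Ioc_inv_sq_le_sub (α := ℝ) (k := z) (n := Y) (by omega) hzY
      have h3 : (0 : ℝ) ≤ (Y : ℝ)⁻¹ := by positivity
      linarith
    · have : P = ∅ := by
        rw [hP, Ioc_eq_empty (by omega), filter_empty]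
      rw [this, sum_empty]
      positivity
  calc ∑ B ∈ (Fintype.piFinset D).filter (fun B => ¬ ((∀ i j, i ≠ j → Nat.Coprime (B i) (B j)) ∧
        ∀ i, Nat.Coprime (B i) 1)), ∏ i, |f i (B i)| / (B i : ℝ)
      ≤ ∑ B ∈ (Fintype.piFinset D).filter (fun B => ¬ ((∀ i j, i ≠ j → Nat.Coprime (B i) (B j)) ∧
        ∀ i, Nat.Coprime (B i) 1)), ∑ q ∈ (univ : Finset ι).offDiag, ∑ p ∈ P,
          if p ∣ B q.1 ∧ p ∣ B q.2 then ∏ i, |f i (B i)| / (B i : ℝ) else 0 := sum_le_sum hun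
    _ ≤ ∑ B ∈ Fintype.piFinset D, ∑ q ∈ (univ : Finset ι).offDiag, ∑ p ∈ P,
          if p ∣ B q.1 ∧ p ∣ B q.2 then ∏ i, |f i (B i)| / (B i : ℝ) else 0 := by
        refine sum_le_sum_of_subset_of_nonneg (filter_subset _ _) fun B _ _ => ?_
        refine sum_nonneg fun q _ => sum_nonneg fun p _ => ?_
        split_ifs
        · exact hG0 B
        · exact le_rfl
    _ = ∑ q ∈ (univ : Finset ι).offDiag, ∑ p ∈ P, ∑ B ∈ Fintype.piFinset D,
          if p ∣ B q.1 ∧ p ∣ B q.2 then ∏ i, |f i (B i)| / (B i : ℝ) else 0 := by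
        rw [sum_comm]
        exact sum_congr rfl fun q _ => sum_comm
    _ ≤ ∑ q ∈ (univ : Finset ι).offDiag, ∑ p ∈ P, 9 * ((p : ℝ) ^ 2)⁻¹ * ∏ k, A k := by
        refine sum_le_sum fun q hq => sum_le_sum fun p hpP => ?_
        rw [← sum_filter]
        rw [mem_offDiag] at hq
        rw [hP, mem_filter, mem_Ioc] at hpP
        exact nco_pair D f A hA hp hq.2.2 hpP.2 hpP.1.1
    _ = ((univ : Finset ι).offDiag.card : ℝ) * ((∑ p ∈ P, 9 * ((p : ℝ) ^ 2)⁻¹) * ∏ k, A k) := by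
        rw [sum_const, nsmul_eq_mul, sum_mul]
    _ ≤ (Fintype.card ι : ℝ) ^ 2 * ((9 * (z : ℝ)⁻¹) * ∏ k, A k) := by
        have h1 : ((univ : Finset ι).offDiag.card : ℝ) ≤ (Fintype.card ι : ℝ) ^ 2 := by
          have : (univ : Finset ι).offDiag.card ≤ Fintype.card ι ^ 2 := by
            rw [offDiag_card, card_univ, pow_two]
            exact Nat.sub_le _ _
          exact_mod_cast this
        have h2 : 0 ≤ ∑ p ∈ P, 9 * ((p : ℝ) ^ 2)⁻¹ := sum_nonneg fun _ _ => by positivity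
        gcongr
    _ = 9 * (Fintype.card ι : ℝ) ^ 2 / z * ∏ i, A i := by
        rw [div_eq_mul_inv]
        ring

end H52GS
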