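import Pool.Agent.H52.GS.Pw
import Pool.Agent.H52.GS.Crc

/-!
# PA: arithmetic progressions and larger sets of shifts (at most `c log x log log x`), with a count
-/

open Finset EG H69PG

namespace H52GS

/-- Mertens' upper bound -/
theorem Pa_mert : ∃ C : ℝ, 1 ≤ C ∧ ∀ z0 : ℕ, 2 ≤ z0 →
    (Nat.totient (primorial z0) : ℝ) / (primorial z0 : ℝ) ≤ C / Real.log z0 := by
  obtain ⟨C, hC, h⟩ := H69PG.vv_mu
  refine ⟨C, hC, fun z0 hz => ?_⟩
  have h1 := h z0 2 2 hz le_rfl le_rfl
  have h2 : H69PG.VV 2 2 1 = 1 := by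
    unfold H69PG.VV H69PG.PK
    simp
  rw [h2, mul_one] at h1
  refine h1.trans (le_of_eq ?_)
  have h3 : 0 < Real.log 2 := Real.log_pos (by norm_num)
  have h4 : 0 < Real.log z0 := Real.log_pos (by exact_mod_cast (by omega : 1 < z0))
  push_cast
  field_simp

theorem Pa_ev (A : ℝ) : ∃ x0 : ℝ, 1 ≤ x0 ∧ ∀ x : ℝ, x0 ≤ x → 100 ≤ Real.log x ∧
    2 * ((A + 1) * 1 ^ 2 + 1) ≤ Real.log x ∧ 101 ≤ Real.log x ^ 4 ∧ 2 ≤ x ∧ x ^ (97 / 100 : ℝ) + 1 ≤ x ^ (98 / 100 : ℝ) ∧
      2 ≤ x ^ (98 / 100 : ℝ) ∧ 2 ≤ ⌊Real.log x / 100⌋₊ ∧ 1 / 2 * Real.log (Real.log x) ≤ Real.log (⌊Real.log x / 100⌋₊ : ℝ) ∧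
      x ^ (7 / 10 : ℝ) ≤ x ^ (97 / 100 : ℝ) ∧ 0 < Real.log (Real.log x) := by
  obtain ⟨x1, hx1, h⟩ := Pw_ev (1 / 2) A
  refine ⟨max x1 (Real.exp 40000), le_max_of_le_left hx1, fun x hx => ?_⟩
  obtain ⟨a1, a2, a3, a4, a5, a6⟩ := h x ((le_max_left _ _).trans hx)
  have hx3 : Real.exp 40000 ≤ x := (le_max_right _ _).trans hx
  have hx0 : 0 < x := (Real.exp_pos _).trans_le hx3
  have hL : 40000 ≤ Real.log x := (Real.le_log_iff_exp_le hx0).2 hx3
  set L := Real.log x with hLdef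
  have hz0l : L / 200 ≤ (⌊L / 100⌋₊ : ℝ) := by
    have := Nat.sub_one_lt_floor (L / 100)
    linarith
  have hz2 : 2 ≤ ⌊L / 100⌋₊ := by
    have : (2 : ℝ) ≤ (⌊L / 100⌋₊ : ℝ) := by linarith
    exact_mod_cast this
  refine ⟨a1, by linarith, a3, a4, a5, a6, hz2, ?_, Real.rpow_le_rpow_of_exponent_le (by linarith) (by norm_num),
    Real.log_pos (by linarith)⟩
  have hpos : (0 : ℝ) < (⌊L / 100⌋₊ : ℝ) := by linarith
  have h1 : L ≤ (⌊L / 100⌋₊ : ℝ) ^ 2 := by
    have : L ≤ (L / 200) ^ 2 := by nlinarith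
    exact this.trans (pow_le_pow_left₀ (by linarith) hz0l 2)
  have h2 := Real.log_le_log (by linarith) h1
  rw [Real.log_pow] at h2
  push_cast at h2
  linarith

open Classical in
/-- **Arithmetic progressions, at most `c log x log log x` shifts.** -/
theorem pa (A : ℕ) (hA : 1 ≤ A) {r : ℝ} (hr : 0 < r) (hr1 : r ≤ 1 / 16) : ∃ c : ℝ, 0 < c ∧ ∃ x0 : ℝ, 1 ≤ x0 ∧ ∀ x : ℝ, x0 ≤ x →
    ∀ M Y N : ℕ, 1 ≤ M → Real.log M ≤ Real.log x ^ 3 → x ≤ N → (M : ℝ) * N ≤ x ^ A → (Y : ℝ) ≤ x ^ A →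
    ∀ S : Finset ℕ, (∀ s ∈ S, s < Y) → (S.card : ℝ) ≤ c * (Real.log x * Real.log (Real.log x)) * ((Nat.totient M : ℝ) / (M : ℝ)) →
      (N : ℝ) ≤ 4 * Real.exp (Real.sqrt (Real.log x)) * (((range N).filter (fun u => ∀ s ∈ S, ∃ p : ℕ, p.Prime ∧ (p : ℝ) ≤ x ^ r ∧ p ∣ Y + M * u - s)).card : ℝ) := by
  obtain ⟨c0, hc0, x1, hx11, hcore⟩ := coreGc (A + 4) (by omega) hr hr1
  obtain ⟨C, hC, hmert⟩ := Pa_mert
  obtain ⟨x2, hx21, hev⟩ := Pa_ev (A : ℝ)
  obtain ⟨x3, hx3⟩ := Filter.eventually_atTop.1 ((isLittleO_log_rpow_atTop hr).bound (show (0 : ℝ) < 1 by norm_num))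
  have hC0 : 0 < C := by linarith
  refine ⟨min c0 1 / (4 * C), by positivity, max x2 (max x1 x3), le_max_of_le_left hx21, ?_⟩
  intro x hx M Y N hM hMl hN hMN hY S hS hcard
  obtain ⟨v1, v2, v3, v4, v5, v6, v7, v8, v9, v10⟩ := hev x ((le_max_left _ _).trans hx)
  have hx1 : x1 ≤ x := ((le_max_left _ _).trans (le_max_right _ _)).trans hx
  have hx3' := hx3 x (((le_max_right _ _).trans (le_max_right _ _)).trans hx)
  have h1x : 1 ≤ x := by linarith
  have hx0 : 0 < x := by linarith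
  have hlr : Real.log x ≤ x ^ r := by
    have := (le_abs_self (Real.log x)).trans hx3'
    rwa [one_mul, Real.norm_eq_abs, abs_of_pos (Real.rpow_pos_of_pos hx0 r)] at this
  set z0 : ℕ := ⌊Real.log x / 100⌋₊ with hz0
  set P : ℕ := PM M z0 with hPdef
  have hP : 0 < P := PM_pos M z0
  have hPr : (0 : ℝ) < P := by exact_mod_cast hP
  have hMr : (1 : ℝ) ≤ M := by exact_mod_cast hM
  have hPle : (P : ℝ) ≤ x ^ (1 / 50 : ℝ) := by
    refine le_trans ?_ (prim_le h1x)
    exact_mod_cast PM_le M z0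
  have hzr : (z0 : ℝ) ≤ x ^ r := by
    refine (Nat.floor_le (by linarith)).trans ?_
    linarith
  set K : ℕ := ⌊Real.log x ^ 4⌋₊ with hK
  have hK100 : 100 ≤ K := by
    apply Nat.le_floor
    push_cast
    linarith
  have hzK : z0 ≤ K := by
    apply Nat.floor_le_floor
    have : Real.log x ≤ Real.log x ^ 4 := le_self_pow₀ (by linarith) (by norm_num)
    linarith
  set T : ℕ := N / P with hT
  have hTl : (N : ℝ) < P * (T + 1) := by
    have h1 := Nat.lt_mul_div_succ N hP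
    have h2 : N < P * (T + 1) := h1
    exact_mod_cast h2
  have hx98 : x ^ (98 / 100 : ℝ) * x ^ (1 / 50 : ℝ) = x := by
    rw [← Real.rpow_add hx0]
    norm_num
  have hT97 : x ^ (98 / 100 : ℝ) ≤ (T : ℝ) + 1 := by
    have h1 : x ^ (98 / 100 : ℝ) * x ^ (1 / 50 : ℝ) ≤ (T + 1) * x ^ (1 / 50 : ℝ) := by
      rw [hx98]
      have h2 : (P : ℝ) * (T + 1) ≤ x ^ (1 / 50 : ℝ) * (T + 1) := mul_le_mul_of_nonneg_right hPle (by positivity)
      linarith
    exact le_of_mul_le_mul_right h1 (Real.rpow_pos_of_pos hx0 _)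
  have hT1 : (1 : ℝ) ≤ T := by linarith
  have hPT : P * T ≤ N := Nat.mul_div_le N P
  have hPTr : (N : ℝ) / 2 ≤ P * T := by
    have : (P : ℝ) * 1 ≤ P * T := mul_le_mul_of_nonneg_left hT1 hPr.le
    linarith
  set Sb : ℕ → Finset ℕ := fun b => S.filter (fun s => Nat.Coprime (Y + M * b - s) P) with hSb
  set B : Finset ℕ := (range P).filter (fun b =>
      ((S.filter (fun s => Nat.Coprime (Y + M * b - s) P)).card : ℝ) ≤
        2 * (S.card : ℝ) * ((Nat.totient P : ℝ) / (P : ℝ))) with hB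
  have hBc : (P : ℝ) / 2 ≤ (B.card : ℝ) := Pw_good P M Y S hP (PM_coprime M z0) hS
  have hBs : B ⊆ range P := Finset.filter_subset _ _
  set G : ℕ → Finset ℕ := fun b => (range T).filter (fun t => ∀ s ∈ Sb b, ∃ p : ℕ, p.Prime ∧
    (p : ℝ) ≤ x ^ r ∧ p ∣ M * P * t + (Y + M * b - s)) with hG
  have hm := hmert z0 v7
  have hGc : ∀ b ∈ B, (Real.exp (Real.sqrt (Real.log x)))⁻¹ * (T : ℝ) ≤ ((G b).card : ℝ) := by
    intro b hb
    have hbq := Finset.mem_range.1 (hBs hb)
    have hbs := (Finset.mem_filter.1 hb).2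
    have hsb : ((Sb b).card : ℝ) ≤ min c0 1 * Real.log x := by
      refine hbs.trans ?_
      have h1 := PM_tot M z0 hM
      have h2 : (0 : ℝ) ≤ (Nat.totient P : ℝ) / (P : ℝ) := by positivity
      have h3 : 0 ≤ min c0 1 / (4 * C) * (Real.log x * Real.log (Real.log x)) := by positivity
      have h4 : 0 < Real.log z0 := by
        have : 0 < 1 / 2 * Real.log (Real.log x) := by linarith
        linarith
      calc 2 * (S.card : ℝ) * ((Nat.totient P : ℝ) / (P : ℝ)) ≤
          2 * (min c0 1 / (4 * C) * (Real.log x * Real.log (Real.log x)) * ((Nat.totient M : ℝ) / (M : ℝ))) * ((Nat.totient P : ℝ) / (P : ℝ)) :=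
            mul_le_mul_of_nonneg_right (by linarith) h2
        _ = 2 * (min c0 1 / (4 * C) * (Real.log x * Real.log (Real.log x))) * ((Nat.totient P : ℝ) / (P : ℝ) * ((Nat.totient M : ℝ) / (M : ℝ))) := by ring
        _ ≤ 2 * (min c0 1 / (4 * C) * (Real.log x * Real.log (Real.log x))) * (C / Real.log z0) :=
            mul_le_mul_of_nonneg_left (h1.trans hm) (by positivity)
        _ = (min c0 1 / 2 * Real.log x) * (Real.log (Real.log x) / Real.log z0) := by
            field_simp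
            ring
        _ ≤ (min c0 1 / 2 * Real.log x) * 2 := by
            refine mul_le_mul_of_nonneg_left ?_ (by positivity)
            rw [div_le_iff₀ h4]
            linarith
        _ = min c0 1 * Real.log x := by ring
    have hsb0 : ((Sb b).card : ℝ) ≤ c0 * Real.log x := hsb.trans (mul_le_mul_of_nonneg_right (min_le_left _ _) (by linarith))
    have hsb1 : ((Sb b).card : ℝ) ≤ 1 * Real.log x := hsb.trans (mul_le_mul_of_nonneg_right (min_le_right _ _) (by linarith))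
    have hinj : Function.Injective (fun s : {s // s ∈ Sb b} => Y + M * b - s.1) := by
      intro i j h
      have h' : Y + M * b - i.1 = Y + M * b - j.1 := h
      have hi := hS i.1 (Finset.mem_filter.1 i.2).1
      have hj := hS j.1 (Finset.mem_filter.1 j.2).1
      exact Subtype.ext (by omega)
    have hcc1 : ∀ s : {s // s ∈ Sb b}, 1 ≤ Y + M * b - s.1 := by
      intro s
      have hi := hS s.1 (Finset.mem_filter.1 s.2).1
      omega
    have hxA : x ^ (A + 1) = x ^ A * x := pow_succ x A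
    have hxA1 : 1 ≤ x ^ A := one_le_pow₀ h1x
    have hxA2 : x ^ A + x ^ A ≤ x ^ (A + 1) := by
      rw [hxA]
      nlinarith
    have hMb : (M : ℝ) * b ≤ x ^ A := by
      refine le_trans ?_ hMN
      refine mul_le_mul_of_nonneg_left ?_ (by linarith)
      have h1 : b ≤ N := by
        have h2 : P * 1 ≤ P * T := Nat.mul_le_mul_left _ (by exact_mod_cast hT1)
        omega
      exact_mod_cast h1
    have hcc2 : ∀ s : {s // s ∈ Sb b}, ((Y + M * b - s.1 : ℕ) : ℝ) ≤ x ^ (A + 1) := by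
      intro s
      have h1 : ((Y + M * b - s.1 : ℕ) : ℝ) ≤ ((Y + M * b : ℕ) : ℝ) := by
        exact_mod_cast Nat.sub_le _ _
      push_cast at h1
      linarith
    have hFm : Fm (WW (fun s : {s // s ∈ Sb b} => Y + M * b - s.1) * M) K (M * P) (fun s : {s // s ∈ Sb b} => Y + M * b - s.1) := by
      refine Fm_WW (Nat.mul_pos hM hP) hM ?_ hinj hcc1
      intro p hp hd hKp
      rcases hp.dvd_mul.1 hd with h | h
      · exact h
      · have := (PM_dvd hp h).1
        omega
    have hx14 : x ^ (A + 1) ≤ x ^ (A + 4) := pow_le_pow_right₀ h1x (by omega)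
    have h1 := hcore x hx1 {s // s ∈ Sb b} (WW (fun s : {s // s ∈ Sb b} => Y + M * b - s.1) * M) K (M * P) T
      (fun s => Y + M * b - s.1) (by
        have h2 : Real.log x + 1 ≤ Real.log x ^ 4 := by
          have h3 : Real.log x ^ 4 = Real.log x * Real.log x ^ 3 := by ring
          have h4 : 2 ≤ Real.log x ^ 3 := by
            have := le_self_pow₀ (show 1 ≤ Real.log x by linarith) (show 3 ≠ 0 by norm_num)
            linarith
          rw [h3]
          nlinarith
        have h3 := Nat.sub_one_lt_floor (Real.log x ^ 4)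
        linarith) (by
        refine (Nat.floor_le (by positivity)).trans ?_
        exact pow_le_pow_right₀ (by linarith) (by omega)) hFm (by
        refine WW_cond (E := 1) (A := (A : ℝ) + 1) hinj (by positivity) h1x (by linarith) hM hMl ?_ ?_ ?_ (KK_big hK100)
        · exact (Nat.lt_floor_add_one _).le
        · intro s
          have e1 : x ^ ((A : ℝ) + 1) = x ^ (A + 1) := by
            rw [← Real.rpow_natCast]
            push_cast
            rfl
          rw [e1]
          exact hcc2 s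
        · rw [Fintype.card_coe]
          exact hsb1) (by
        rw [Fintype.card_coe]
        exact hsb0) (by linarith) (by
      push_cast
      have h2 : (M : ℝ) * (P * T) ≤ M * N := mul_le_mul_of_nonneg_left (by exact_mod_cast hPT) (by linarith)
      nlinarith) (fun s => (hcc2 s).trans hx14)
    have hE0 := Real.exp_pos (Real.sqrt (Real.log x))
    rw [inv_mul_le_iff₀ hE0]
    refine h1.trans (mul_le_mul_of_nonneg_left ?_ hE0.le)
    norm_cast
    refine Finset.card_le_card ?_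
    intro t ht
    rw [Finset.mem_filter] at ht ⊢
    exact ⟨ht.1, fun s hs => ht.2 ⟨s, hs⟩⟩
  have hW := Pw_map P B G ((Real.exp (Real.sqrt (Real.log x)))⁻¹ * T) hP hBs hGc
  have hsub : ((B.sigma G).image (fun p => p.1 + P * p.2)) ⊆
      (range N).filter (fun u => ∀ s ∈ S, ∃ p : ℕ, p.Prime ∧ (p : ℝ) ≤ x ^ r ∧ p ∣ Y + M * u - s) := by
    intro n hn
    obtain ⟨⟨b, t⟩, hbt, e⟩ := Finset.mem_image.1 hn
    have e' : b + P * t = n := e
    rw [Finset.mem_sigma] at hbt
    have hb : b ∈ B := hbt.1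
    have ht : t ∈ G b := hbt.2
    have hbq := Finset.mem_range.1 (hBs hb)
    have ht1 := Finset.mem_range.1 (Finset.mem_filter.1 ht).1
    have ht2 := (Finset.mem_filter.1 ht).2
    rw [Finset.mem_filter, Finset.mem_range]
    constructor
    · have h1 : P * (t + 1) ≤ P * T := Nat.mul_le_mul_left _ ht1
      have h2 : P * (t + 1) = P * t + P := by ring
      omega
    · intro s hs
      have hsY := hS s hs
      have ek : M * P * t + (Y + M * b - s) = Y + M * n - s := by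
        rw [← e']
        have : M * (b + P * t) = M * b + M * P * t := by ring
        omega
      by_cases hco : Nat.Coprime (Y + M * b - s) P
      · obtain ⟨p, hp, hpr, hd⟩ := ht2 s (Finset.mem_filter.2 ⟨hs, hco⟩)
        rw [ek] at hd
        exact ⟨p, hp, hpr, hd⟩
      · obtain ⟨p, hp, hd1, hd2⟩ := Nat.Prime.not_coprime_iff_dvd.1 hco
        refine ⟨p, hp, ?_, ?_⟩
        · have h' : (p : ℝ) ≤ z0 := by exact_mod_cast (PM_dvd hp hd2).1
          exact h'.trans hzr
        · rw [← ek]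
          exact dvd_add ((hd2.mul_left M).mul_right t) hd1
  have hcard' : ((((B.sigma G).image (fun p => p.1 + P * p.2))).card : ℝ) ≤
      (((range N).filter (fun u => ∀ s ∈ S, ∃ p : ℕ, p.Prime ∧ (p : ℝ) ≤ x ^ r ∧ p ∣ Y + M * u - s)).card : ℝ) := by
    exact_mod_cast Finset.card_le_card hsub
  have hE0 := Real.exp_pos (Real.sqrt (Real.log x))
  have h3 := hW.trans hcard'
  have h2 : (P : ℝ) / 2 * ((Real.exp (Real.sqrt (Real.log x)))⁻¹ * T) ≤ (B.card : ℝ) * ((Real.exp (Real.sqrt (Real.log x)))⁻¹ * T) :=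
    mul_le_mul_of_nonneg_right hBc (by positivity)
  have h4 : (Real.exp (Real.sqrt (Real.log x)))⁻¹ * (P * T / 2) ≤
      (((range N).filter (fun u => ∀ s ∈ S, ∃ p : ℕ, p.Prime ∧ (p : ℝ) ≤ x ^ r ∧ p ∣ Y + M * u - s)).card : ℝ) := by
    refine le_trans (le_of_eq ?_) (h2.trans h3)
    ring
  rw [inv_mul_le_iff₀ hE0] at h4
  linarith

end H52GS
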