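import Pool.Agent.H52.GS.Win

/-!
# PG: `n ≤ N` in a residue class, arbitrary sets of shifts
-/

open Finset EG H69PG

namespace H52GS

theorem Pg_half {N : ℝ} (hN : 0 < N) : Real.log (N ^ (1 / 2 : ℝ)) = 1 / 2 * Real.log N := Real.log_rpow hN _

theorem Pg_sq {N : ℝ} (hN : 0 < N) : (N ^ (1 / 2 : ℝ)) ^ (2 : ℝ) = N := by
  rw [← Real.rpow_mul hN.le]
  norm_num

theorem Pg_MN {N M N' : ℝ} (hN : 1 ≤ N) (h2 : 2 ≤ N ^ (1 / 4 : ℝ)) (hM : M ≤ N ^ (1 / 4 : ℝ))
    (hN' : N' ≤ N ^ (1 / 2 : ℝ) + 1) (hN'0 : 0 ≤ N') : M * N' ≤ N := by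
  have h0 : 0 < N := by linarith
  have h1 : 1 ≤ N ^ (1 / 2 : ℝ) := Real.one_le_rpow hN (by norm_num)
  calc M * N' ≤ N ^ (1 / 4 : ℝ) * (N ^ (1 / 2 : ℝ) * 2) := mul_le_mul hM (by linarith) hN'0 (Real.rpow_nonneg h0.le _)
    _ = N ^ (1 / 4 : ℝ) * N ^ (1 / 2 : ℝ) * 2 := by ring
    _ ≤ N ^ (1 / 4 : ℝ) * N ^ (1 / 2 : ℝ) * N ^ (1 / 4 : ℝ) := mul_le_mul_of_nonneg_left h2 (by positivity)
    _ = N := by
        rw [← Real.rpow_add h0, ← Real.rpow_add h0]
        norm_num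

theorem Pg_logM {N M : ℝ} (hN : 1 ≤ N) (hM : M ≤ N ^ (1 / 4 : ℝ)) (hM0 : 1 ≤ M) (hl : 2 ≤ Real.log N) :
    Real.log M ≤ Real.log (N ^ (1 / 2 : ℝ)) ^ 3 := by
  have h0 : 0 < N := by linarith
  have h1 : Real.log M ≤ Real.log (N ^ (1 / 4 : ℝ)) := Real.log_le_log (by linarith) hM
  rw [Real.log_rpow h0] at h1
  rw [Pg_half h0]
  have h2 : 1 ≤ 1 / 2 * Real.log N := by linarith
  have h3 := le_self_pow₀ h2 (show 3 ≠ 0 by norm_num)
  linarith

open Classical in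
/-- **Positive proportion.** -/
theorem pg {Λ : ℝ} (hΛ : 0 < Λ) : ∃ c : ℝ, 0 < c ∧ ∃ N0 : ℕ, ∀ N : ℕ, N0 ≤ N → ∀ M a : ℕ, 1 ≤ M → a < M →
    (M : ℝ) ≤ (N : ℝ) ^ (1 / 4 : ℝ) → ∀ S : Finset ℕ, (S.card : ℝ) ≤ Λ * Real.log N * ((Nat.totient M : ℝ) / (M : ℝ)) →
      c * ((N : ℝ) / M) ≤ (((Icc 1 N).filter (fun n => n % M = a ∧ ∀ s ∈ S, s < n → ¬ IsPrimePow (n - s))).card : ℝ) := by
  obtain ⟨c, hc, x0, hx0, hpw⟩ := pw (Λ := max 1 (2 * Λ)) (r := 1 / 2) (A := 2) (le_max_left _ _) (by norm_num) (by norm_num)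
  obtain ⟨N1, hwin⟩ := win
  obtain ⟨N2, hev⟩ := win_ev
  have hκ0 : 0 < min c 1 := lt_min hc one_pos
  have e1 := (tendsto_rpow_neg_atTop (show (0 : ℝ) < 1 / 8 by norm_num)).eventually_le_const hκ0
  have e2 := Real.tendsto_log_atTop.eventually_ge_atTop (max 2 Λ)
  have e3 := (tendsto_rpow_atTop (show (0 : ℝ) < 1 / 2 by norm_num)).eventually_ge_atTop x0
  obtain ⟨N3, hN3⟩ := Filter.eventually_atTop.1 (tendsto_natCast_atTop_atTop.eventually (e1.and (e2.and e3)))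
  refine ⟨min c 1 / 4, by positivity, max N1 (max N2 N3), ?_⟩
  intro N hN M a hM ha hMN S hS
  have hN1 : N1 ≤ N := (le_max_left _ _).trans hN
  have hN2 : N2 ≤ N := ((le_max_left _ _).trans (le_max_right _ _)).trans hN
  obtain ⟨f1, f2, f3⟩ := hN3 N (((le_max_right _ _).trans (le_max_right _ _)).trans hN)
  obtain ⟨v1, v2, v3, v4, v5⟩ := hev N hN2
  have f2a : 2 ≤ Real.log N := (le_max_left _ _).trans f2
  have f2b : Λ ≤ Real.log N := (le_max_right _ _).trans f2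
  have hNr : (0 : ℝ) < N := by linarith
  have hN1r : (1 : ℝ) ≤ N := by linarith
  have hMr : (1 : ℝ) ≤ M := by exact_mod_cast hM
  have hφ : (Nat.totient M : ℝ) / (M : ℝ) ≤ 1 := by
    rw [div_le_one (by linarith)]
    exact_mod_cast Nat.totient_le M
  have hφ0 : 0 ≤ (Nat.totient M : ℝ) / (M : ℝ) := by positivity
  refine hwin N hN1 M a S (min c 1) hM ha hMN ?_ ?_ (min_le_right _ _) ?_
  · refine hS.trans ?_
    have h1 : 0 ≤ Λ * Real.log N := mul_nonneg hΛ.le (by linarith)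
    calc Λ * Real.log N * ((Nat.totient M : ℝ) / (M : ℝ)) ≤ Λ * Real.log N * 1 := mul_le_mul_of_nonneg_left hφ h1
      _ ≤ Real.log N * Real.log N := by
          rw [mul_one]
          exact mul_le_mul_of_nonneg_right f2b (by linarith)
      _ = Real.log N ^ 2 := by ring
  · exact f1
  · intro Y hY S' hS' hSY
    set x : ℝ := (N : ℝ) ^ (1 / 2 : ℝ) with hx
    have hlx : Real.log x = 1 / 2 * Real.log N := Pg_half hNr
    have hx2 : x ^ (2 : ℝ) = N := Pg_sq hNr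
    have h := hpw x f3 M Y ⌈x⌉₊ hM (Pg_logM hN1r hMN hMr f2a) (Nat.le_ceil _) (by
      rw [hx2]
      exact Pg_MN hN1r v2 hMN (Nat.ceil_lt_add_one (Real.rpow_nonneg hNr.le _)).le (Nat.cast_nonneg _)) (by
      rw [hx2]
      exact_mod_cast hY) S' hSY (by
      have h1 : (S'.card : ℝ) ≤ S.card := by exact_mod_cast Finset.card_le_card hS'
      refine h1.trans (hS.trans ?_)
      refine mul_le_mul_of_nonneg_right ?_ hφ0
      rw [hlx]
      have h2 : 2 * Λ ≤ max 1 (2 * Λ) := le_max_right _ _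
      have h3 : 2 * Λ * (1 / 2 * Real.log N) ≤ max 1 (2 * Λ) * (1 / 2 * Real.log N) := mul_le_mul_of_nonneg_right h2 (by linarith)
      linarith)
    refine le_trans (mul_le_mul_of_nonneg_right (min_le_left _ _) (Nat.cast_nonneg _)) (h.trans ?_)
    have hxx : x ^ (1 / 2 : ℝ) = (N : ℝ) ^ (1 / 4 : ℝ) := by
      rw [hx, ← Real.rpow_mul hNr.le]
      norm_num
    rw [hxx]
    norm_cast
    refine Finset.card_le_card ?_
    intro u hu
    rw [Finset.mem_filter] at hu ⊢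
    refine ⟨hu.1, fun s hs => ?_⟩
    obtain ⟨p, hp, hp2, hp3⟩ := hu.2 s hs
    exact ⟨p, hp, Nat.le_floor hp2, hp3⟩

open Classical in
/-- **At most `c log N log log N` shifts.** -/
theorem pag : ∃ c : ℝ, 0 < c ∧ ∃ N0 : ℕ, ∀ N : ℕ, N0 ≤ N → ∀ M a : ℕ, 1 ≤ M → a < M →
    (M : ℝ) ≤ (N : ℝ) ^ (1 / 4 : ℝ) → ∀ S : Finset ℕ,
    (S.card : ℝ) ≤ c * (Real.log N * Real.log (Real.log N)) * ((Nat.totient M : ℝ) / (M : ℝ)) →
      (N : ℝ) / M ≤ Real.exp (Real.sqrt (Real.log N)) *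
        (((Icc 1 N).filter (fun n => n % M = a ∧ ∀ s ∈ S, s < n → ¬ IsPrimePow (n - s))).card : ℝ) := by
  obtain ⟨c, hc, x0, hx0, hpa⟩ := pa 2 (by norm_num) (r := 1 / 16) (by norm_num) le_rfl
  obtain ⟨N1, hwin⟩ := win
  obtain ⟨N2, hev⟩ := win_ev
  have e2 := Real.tendsto_log_atTop.eventually_ge_atTop (max 1000 (Real.exp (c + 2)))
  have e3 := (tendsto_rpow_atTop (show (0 : ℝ) < 1 / 2 by norm_num)).eventually_ge_atTop x0
  have e4 := (Real.isLittleO_log_id_atTop.comp_tendsto Real.tendsto_log_atTop).bound (show (0 : ℝ) < 1 by norm_num)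
  obtain ⟨N3, hN3⟩ := Filter.eventually_atTop.1 (tendsto_natCast_atTop_atTop.eventually (e2.and (e3.and e4)))
  refine ⟨min (c / 4) 1, by positivity, max N1 (max N2 N3), ?_⟩
  intro N hN M a hM ha hMN S hS
  have hN1 : N1 ≤ N := (le_max_left _ _).trans hN
  have hN2 : N2 ≤ N := ((le_max_left _ _).trans (le_max_right _ _)).trans hN
  obtain ⟨f2, f3, f4⟩ := hN3 N (((le_max_right _ _).trans (le_max_right _ _)).trans hN)
  obtain ⟨v1, v2, v3, v4, v5⟩ := hev N hN2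
  have f2a : 1000 ≤ Real.log N := (le_max_left _ _).trans f2
  have f2b : Real.exp (c + 2) ≤ Real.log N := (le_max_right _ _).trans f2
  have hNr : (0 : ℝ) < N := by linarith
  have hN1r : (1 : ℝ) ≤ N := by linarith
  have hMr : (1 : ℝ) ≤ M := by exact_mod_cast hM
  have hM0 : (0 : ℝ) < M := by linarith
  have hφ : (Nat.totient M : ℝ) / (M : ℝ) ≤ 1 := by
    rw [div_le_one (by linarith)]
    exact_mod_cast Nat.totient_le M
  have hφ0 : 0 ≤ (Nat.totient M : ℝ) / (M : ℝ) := by positivity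
  obtain ⟨L, hL⟩ : ∃ L : ℝ, L = Real.log N := ⟨_, rfl⟩
  have hL1000 : 1000 ≤ L := by rw [hL]; exact f2a
  have hL0 : 0 < L := by linarith
  have hLL : c + 2 ≤ Real.log L := by
    rw [hL]
    exact (Real.le_log_iff_exp_le (by linarith)).2 f2b
  have hLL2 : Real.log L ≤ L := (Real.log_le_sub_one_of_pos hL0).trans (by linarith)
  have hsq0 : 0 ≤ Real.sqrt L := Real.sqrt_nonneg _
  have hsq : Real.sqrt L ≤ L / 30 := by
    rw [Real.sqrt_le_left (by positivity)]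
    nlinarith
  have hsq2 : Real.sqrt (1 / 2 * L) + 5 ≤ Real.sqrt L := by
    have h1 : 31 ≤ Real.sqrt L := Real.le_sqrt_of_sq_le (by linarith)
    have h2 : Real.sqrt (1 / 2 * L) ≤ 4 / 5 * Real.sqrt L := by
      rw [Real.sqrt_le_left (by positivity), mul_pow, Real.sq_sqrt hL0.le]
      linarith
    linarith
  set x : ℝ := (N : ℝ) ^ (1 / 2 : ℝ) with hx
  have hlx : Real.log x = 1 / 2 * L := by rw [hL]; exact Pg_half hNr
  have hx2 : x ^ 2 = N := by
    have := Pg_sq hNr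
    rw [← hx] at this
    rw [← this]
    exact_mod_cast (Real.rpow_natCast x 2).symm
  obtain ⟨E, hE⟩ : ∃ E : ℝ, E = Real.exp (Real.sqrt (1 / 2 * L)) := ⟨_, rfl⟩
  have hE0 : 0 < E := by rw [hE]; exact Real.exp_pos _
  have hE1 : 1 ≤ E := by rw [hE]; exact Real.one_le_exp (Real.sqrt_nonneg _)
  have hres := hwin N hN1 M a S (1 / (4 * E)) hM ha hMN ?_ ?_ ?_ ?_
  · have h1 : 16 * E ≤ Real.exp (Real.sqrt L) := by
      have h2 : (16 : ℝ) ≤ Real.exp 5 := by
        have := Real.add_one_le_exp (5 / 2 : ℝ)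
        have h3 : Real.exp 5 = Real.exp (5 / 2) ^ 2 := by
          rw [← Real.exp_nat_mul]
          norm_num
        rw [h3]
        have h4 := Real.quadratic_le_exp_of_nonneg (show (0 : ℝ) ≤ 5 / 2 by norm_num)
        nlinarith
      calc 16 * E ≤ Real.exp 5 * Real.exp (Real.sqrt (1 / 2 * L)) := by
            rw [hE]
            exact mul_le_mul_of_nonneg_right h2 (Real.exp_pos _).le
        _ = Real.exp (Real.sqrt (1 / 2 * L) + 5) := by rw [← Real.exp_add, add_comm]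
        _ ≤ _ := Real.exp_le_exp.2 hsq2
    rw [← hL]
    have h3 : (N : ℝ) / M ≤ 16 * E * (((Icc 1 N).filter (fun n => n % M = a ∧ ∀ s ∈ S, s < n → ¬ IsPrimePow (n - s))).card : ℝ) := by
      have h4 : (N : ℝ) / M = 16 * E * (1 / (4 * E) / 4 * ((N : ℝ) / M)) := by
        field_simp
        ring
      rw [h4]
      exact mul_le_mul_of_nonneg_left hres (by positivity)
    exact h3.trans (mul_le_mul_of_nonneg_right h1 (Nat.cast_nonneg _))
  · refine hS.trans ?_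
    rw [← hL]
    have h1 : 0 ≤ L * Real.log L := mul_nonneg hL0.le (by linarith)
    calc min (c / 4) 1 * (L * Real.log L) * ((Nat.totient M : ℝ) / (M : ℝ)) ≤ 1 * (L * Real.log L) * 1 :=
          mul_le_mul (mul_le_mul_of_nonneg_right (min_le_right _ _) h1) hφ hφ0 (by linarith)
      _ = L * Real.log L := by ring
      _ ≤ L * L := mul_le_mul_of_nonneg_left hLL2 hL0.le
      _ = L ^ 2 := by ring
  · rw [le_div_iff₀ (by positivity), hE, Real.rpow_def_of_pos hNr, ← hL]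
    have h5 : (4 : ℝ) ≤ Real.exp 5 := by
      have := Real.add_one_le_exp (5 : ℝ)
      linarith
    calc Real.exp (L * -(1 / 8)) * (4 * Real.exp (Real.sqrt (1 / 2 * L))) ≤
          Real.exp (L * -(1 / 8)) * (Real.exp 5 * Real.exp (Real.sqrt (1 / 2 * L))) := by
            refine mul_le_mul_of_nonneg_left (mul_le_mul_of_nonneg_right h5 (Real.exp_pos _).le) (Real.exp_pos _).le
      _ = Real.exp (L * -(1 / 8) + (5 + Real.sqrt (1 / 2 * L))) := by rw [← Real.exp_add, ← Real.exp_add]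
      _ ≤ Real.exp 0 := Real.exp_le_exp.2 (by linarith)
      _ = 1 := Real.exp_zero
  · rw [div_le_one (by positivity)]
    linarith
  · intro Y hY S' hS' hSY
    have h := hpa x f3 M Y ⌈x⌉₊ hM (Pg_logM hN1r hMN hMr (by linarith)) (Nat.le_ceil _) (by
      rw [hx2]
      exact Pg_MN hN1r v2 hMN (Nat.ceil_lt_add_one (Real.rpow_nonneg hNr.le _)).le (Nat.cast_nonneg _)) (by
      rw [hx2]
      exact_mod_cast hY) S' hSY (by
      have h1 : (S'.card : ℝ) ≤ S.card := by exact_mod_cast Finset.card_le_card hS'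
      refine h1.trans (hS.trans ?_)
      refine mul_le_mul_of_nonneg_right ?_ hφ0
      rw [hlx, ← hL]
      have h2 : min (c / 4) 1 ≤ c / 4 := min_le_left _ _
      have h3 : 0 ≤ L * Real.log L := mul_nonneg hL0.le (by linarith)
      have h4 : 1 / 2 * Real.log L ≤ Real.log (1 / 2 * L) := by
        have h5 : Real.sqrt L ≤ 1 / 2 * L := by linarith
        have h6 := Real.log_le_log (Real.sqrt_pos.2 hL0) h5
        rw [Real.log_sqrt hL0.le] at h6
        linarith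
      calc min (c / 4) 1 * (L * Real.log L) ≤ c / 4 * (L * Real.log L) := mul_le_mul_of_nonneg_right h2 h3
        _ = c * (1 / 2 * L * (1 / 2 * Real.log L)) := by ring
        _ ≤ c * (1 / 2 * L * Real.log (1 / 2 * L)) := by
            refine mul_le_mul_of_nonneg_left (mul_le_mul_of_nonneg_left h4 (by linarith)) hc.le)
    rw [hlx, ← hE] at h
    have h8 : 1 / (4 * E) * (⌈x⌉₊ : ℝ) ≤ (((range ⌈x⌉₊).filter (fun u => ∀ s ∈ S', ∃ p : ℕ, p.Prime ∧ (p : ℝ) ≤ x ^ (1 / 16 : ℝ) ∧ p ∣ Y + M * u - s)).card : ℝ) := by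
      rw [one_div_mul_eq_div, div_le_iff₀ (by positivity)]
      linarith
    refine h8.trans ?_
    have hx1 : 1 ≤ x := Real.one_le_rpow hN1r (by norm_num)
    have hxx : x ^ (1 / 16 : ℝ) ≤ (N : ℝ) ^ (1 / 4 : ℝ) := by
      have h9 : x ^ (1 / 2 : ℝ) = (N : ℝ) ^ (1 / 4 : ℝ) := by
        rw [hx, ← Real.rpow_mul hNr.le]
        norm_num
      rw [← h9]
      exact Real.rpow_le_rpow_of_exponent_le hx1 (by norm_num)
    norm_cast
    refine Finset.card_le_card ?_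
    intro u hu
    rw [Finset.mem_filter] at hu ⊢
    refine ⟨hu.1, fun s hs => ?_⟩
    obtain ⟨p, hp, hp2, hp3⟩ := hu.2 s hs
    exact ⟨p, hp, Nat.le_floor (hp2.trans hxx), hp3⟩

end H52GS
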