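import Pool.Agent.H52.GS.Cpg
import Pool.Agent.H52.GS.Amg

/-!
# PW: a positive proportion of an arithmetic progression, for arbitrary sets of shifts

For `u < N` the numbers `n = Y + M u`; `P'` = the product of the primes `≤ log x/100` which do not divide `M`. The `b < P'` for which few `Y + M b - s` are prime to `P'` are at least `P'/2`; for each of them `corePG`
is applied with `Q0 = M P'`, `cc s = Y + M b - s`, `W` = the product of the differences times `M`.
-/

open Finset EG H69PG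

namespace H52GS

/-- `c + M b` runs through a complete residue system modulo `P` -/
theorem Pw_count (P M c : ℕ) (hP : 0 < P) (h : Nat.Coprime M P) :
    ((range P).filter (fun b => Nat.Coprime (c + M * b) P)).card = Nat.totient P := by
  have hinj : Set.InjOn (fun b => (c + M * b) % P) (range P : Finset ℕ) := by
    intro b hb b' hb' e
    rw [Finset.coe_range, Set.mem_Iio] at hb hb'
    have e1 : c + M * b ≡ c + M * b' [MOD P] := e
    have e2 : M * b ≡ M * b' [MOD P] := Nat.ModEq.add_left_cancel' c e1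
    have e3 : b ≡ b' [MOD P] := Nat.ModEq.cancel_left_of_coprime (by rw [Nat.gcd_comm]; exact h) e2
    exact Nat.ModEq.eq_of_lt_of_lt e3 hb hb'
  have himg : (range P).image (fun b => (c + M * b) % P) = range P := by
    apply Finset.eq_of_subset_of_card_le
    · intro y hy
      obtain ⟨b, _, rfl⟩ := Finset.mem_image.1 hy
      exact Finset.mem_range.2 (Nat.mod_lt _ hP)
    · rw [Finset.card_image_of_injOn hinj]
  unfold Nat.totient
  conv_rhs => rw [← himg]
  rw [Finset.filter_image, Finset.card_image_of_injOn (hinj.mono (by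
    intro b hb
    exact (Finset.mem_filter.1 hb).1))]
  congr 1
  apply Finset.filter_congr
  intro b _
  rw [Nat.coprime_comm]
  show Nat.gcd P (c + M * b) = 1 ↔ Nat.gcd P ((c + M * b) % P) = 1
  rw [Nat.gcd_rec P (c + M * b), Nat.gcd_comm P ((c + M * b) % P)]

open Classical in
theorem Pw_good (P M Y : ℕ) (S : Finset ℕ) (hP : 0 < P) (hMP : Nat.Coprime M P) (hS : ∀ s ∈ S, s < Y) :
    (P : ℝ) / 2 ≤ (((range P).filter (fun b =>
      ((S.filter (fun s => Nat.Coprime (Y + M * b - s) P)).card : ℝ) ≤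
        2 * (S.card : ℝ) * ((Nat.totient P : ℝ) / (P : ℝ)))).card : ℝ) := by
  have hP' : (0 : ℝ) < P := by exact_mod_cast hP
  rcases S.eq_empty_or_nonempty with rfl | hne
  · simp only [Finset.filter_empty, Finset.card_empty, Nat.cast_zero, mul_zero, zero_mul, le_refl, Finset.filter_true,
      Finset.card_range]
    linarith
  have hφ : (0 : ℝ) < Nat.totient P := by exact_mod_cast Nat.totient_pos.2 hP
  have hK' : (0 : ℝ) < S.card := by exact_mod_cast hne.card_pos
  have h1 : (∑ b ∈ range P, ((S.filter (fun s => Nat.Coprime (Y + M * b - s) P)).card : ℝ)) = S.card * Nat.totient P := by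
    have : (∑ b ∈ range P, (S.filter (fun s => Nat.Coprime (Y + M * b - s) P)).card) = S.card * Nat.totient P := by
      simp only [Finset.card_filter]
      rw [Finset.sum_comm]
      have h : ∀ s ∈ S, (∑ b ∈ range P, if Nat.Coprime (Y + M * b - s) P then 1 else 0) = Nat.totient P := by
        intro s hs
        rw [← Finset.card_filter, ← Pw_count P M (Y - s) hP hMP]
        congr 1
        apply Finset.filter_congr
        intro b _
        have := hS s hs
        have e : Y + M * b - s = Y - s + M * b := by omega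
        rw [e]
      rw [Finset.sum_congr rfl h, Finset.sum_const, smul_eq_mul]
    exact_mod_cast this
  set s : ℕ → ℝ := fun b => ((S.filter (fun s => Nat.Coprime (Y + M * b - s) P)).card : ℝ) with hs
  have hs0 : ∀ b, 0 ≤ s b := fun b => Nat.cast_nonneg _
  set β : ℝ := 2 * (S.card : ℝ) * ((Nat.totient P : ℝ) / (P : ℝ)) with hβ
  have hβ0 : 0 < β := by positivity
  have h1' : ∑ b ∈ range P, s b = S.card * Nat.totient P := h1
  have h2 : (((range P).filter (fun b => ¬ s b ≤ β)).card : ℝ) * β ≤ S.card * Nat.totient P := by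
    rw [← h1', ← nsmul_eq_mul]
    refine (Finset.card_nsmul_le_sum _ s _ ?_).trans
      (Finset.sum_le_sum_of_subset_of_nonneg (Finset.filter_subset _ _) fun b _ _ => hs0 b)
    intro b hb
    exact (not_le.1 (Finset.mem_filter.1 hb).2).le
  have h3 : (((range P).filter (fun b => ¬ s b ≤ β)).card : ℝ) ≤ P / 2 := by
    have e : (S.card : ℝ) * Nat.totient P = P / 2 * β := by
      rw [hβ]
      field_simp
    rw [e] at h2
    exact le_of_mul_le_mul_right h2 hβ0
  have h4 : ((range P).filter (fun b => s b ≤ β)).card +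
      ((range P).filter (fun b => ¬ s b ≤ β)).card = P := by
    rw [Finset.card_filter_add_card_filter_not, Finset.card_range]
  have h5 : (((range P).filter (fun b => s b ≤ β)).card : ℝ) +
      (((range P).filter (fun b => ¬ s b ≤ β)).card : ℝ) = P := by
    exact_mod_cast h4
  have h6 : (P : ℝ) / 2 ≤ (((range P).filter (fun b => s b ≤ β)).card : ℝ) := by linarith
  exact h6

open Classical in
/-- one residue class -/
theorem Pw_map (P : ℕ) (B : Finset ℕ) (G : ℕ → Finset ℕ) (c : ℝ) (hQ : 0 < P)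
    (hB : B ⊆ range P) (hc : ∀ b ∈ B, c ≤ ((G b).card : ℝ)) :
    (B.card : ℝ) * c ≤ ((((B.sigma G).image (fun p => p.1 + P * p.2))).card : ℝ) := by
  rw [Finset.card_image_of_injOn]
  · rw [Finset.card_sigma, Nat.cast_sum, ← nsmul_eq_mul]
    exact Finset.card_nsmul_le_sum _ _ _ hc
  · rintro ⟨b, t⟩ h ⟨b', t'⟩ h' e
    simp only [Finset.coe_sigma, Set.mem_sigma_iff, Finset.mem_coe] at h h'
    have hb := Finset.mem_range.1 (hB h.1)
    have hb' := Finset.mem_range.1 (hB h'.1)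
    have e2 : b + P * t = b' + P * t' := e
    have e3 : b = b' := by
      have := congrArg (fun n => n % P) e2
      simpa [Nat.add_mul_mod_self_left, Nat.mod_eq_of_lt hb, Nat.mod_eq_of_lt hb'] using this
    have e4 : t = t' := by
      rw [e3] at e2
      exact Nat.eq_of_mul_eq_mul_left hQ (Nat.add_left_cancel e2)
    rw [e3, e4]

/-- the product of the primes `≤ z` which do not divide `M` -/
def PM (M z : ℕ) : ℕ := ∏ p ∈ (range (z + 1)).filter (fun p => p.Prime ∧ ¬ p ∣ M), p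

theorem PM_pos (M z : ℕ) : 0 < PM M z := by
  unfold PM
  refine Finset.prod_pos (fun p hp => ?_)
  exact (Finset.mem_filter.1 hp).2.1.pos

theorem PM_dvd {M z p : ℕ} (hp : p.Prime) (h : p ∣ PM M z) : p ≤ z ∧ ¬ p ∣ M := by
  unfold PM at h
  obtain ⟨q, hq, hpq⟩ := (hp.prime.dvd_finsetProd_iff _).1 h
  rw [Finset.mem_filter, Finset.mem_range] at hq
  have : p = q := (Nat.prime_dvd_prime_iff_eq hp hq.2.1).1 hpq
  subst this
  exact ⟨by omega, hq.2.2⟩

theorem PM_coprime (M z : ℕ) : Nat.Coprime M (PM M z) := by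
  apply Nat.coprime_of_dvd
  intro p hp h1 h2
  exact (PM_dvd hp h2).2 h1

theorem PM_le (M z : ℕ) : PM M z ≤ primorial z := by
  unfold PM primorial
  refine Finset.prod_le_prod_of_subset_of_one_le' ?_ ?_
  · intro p hp
    rw [Finset.mem_filter] at hp ⊢
    exact ⟨hp.1, hp.2.1⟩
  · intro p hp _
    exact (Finset.mem_filter.1 hp).2.one_le

theorem tot_prod (s : Finset ℕ) (hs : ∀ p ∈ s, p.Prime) :
    (Nat.totient (∏ p ∈ s, p) : ℝ) / ((∏ p ∈ s, p : ℕ) : ℝ) = ∏ p ∈ s, (1 - (p : ℝ)⁻¹) := by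
  have h1 : (∏ p ∈ s, p).primeFactors = s := Nat.primeFactors_prod hs
  have h2 := Nat.totient_eq_mul_prod_factors (∏ p ∈ s, p)
  rw [h1] at h2
  have hpos : (0 : ℝ) < ((∏ p ∈ s, p : ℕ) : ℝ) := by
    have : 0 < ∏ p ∈ s, p := Finset.prod_pos fun p hp => (hs p hp).pos
    exact_mod_cast this
  rw [div_eq_iff hpos.ne', mul_comm]
  have h3 : ((Nat.totient (∏ p ∈ s, p) : ℚ) : ℝ) = (((∏ p ∈ s, p : ℕ) : ℚ) * ∏ p ∈ s, (1 - (p : ℚ)⁻¹) : ℚ) := by
    rw [h2]
  push_cast at h3 ⊢
  exact h3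

theorem PM_tot (M z : ℕ) (hM : 1 ≤ M) :
    (Nat.totient (PM M z) : ℝ) / (PM M z : ℝ) * ((Nat.totient M : ℝ) / (M : ℝ)) ≤
      (Nat.totient (primorial z) : ℝ) / (primorial z : ℝ) := by
  have e1 := tot_prod ((range (z + 1)).filter (fun p => p.Prime ∧ ¬ p ∣ M)) (fun p hp => (Finset.mem_filter.1 hp).2.1)
  have e2 := tot_prod ((range (z + 1)).filter Nat.Prime) (fun p hp => (Finset.mem_filter.1 hp).2)
  have e3 : (Nat.totient M : ℝ) / (M : ℝ) = ∏ p ∈ M.primeFactors, (1 - (p : ℝ)⁻¹) := by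
    have h2 := Nat.totient_eq_mul_prod_factors M
    have hpos : (0 : ℝ) < M := by exact_mod_cast hM
    rw [div_eq_iff hpos.ne', mul_comm]
    have h3 : ((Nat.totient M : ℚ) : ℝ) = ((M : ℚ) * ∏ p ∈ M.primeFactors, (1 - (p : ℚ)⁻¹) : ℚ) := by rw [h2]
    push_cast at h3
    exact h3
  have f0 : ∀ p : ℕ, p.Prime → 0 ≤ 1 - (p : ℝ)⁻¹ ∧ 1 - (p : ℝ)⁻¹ ≤ 1 := by
    intro p hp
    have : (1 : ℝ) ≤ p := by exact_mod_cast hp.one_le
    have h1 : (p : ℝ)⁻¹ ≤ 1 := inv_le_one_of_one_le₀ this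
    have h2 : 0 ≤ (p : ℝ)⁻¹ := by positivity
    constructor <;> linarith
  unfold PM primorial
  rw [e1, e2, e3]
  rw [← Finset.prod_filter_mul_prod_filter_not ((range (z + 1)).filter Nat.Prime) (fun p => ¬ p ∣ M)]
  have g1 : ((range (z + 1)).filter Nat.Prime).filter (fun p => ¬ p ∣ M) = (range (z + 1)).filter (fun p => p.Prime ∧ ¬ p ∣ M) := by
    rw [Finset.filter_filter]
  rw [g1]
  refine mul_le_mul_of_nonneg_left ?_ (Finset.prod_nonneg fun p hp => (f0 p (Finset.mem_filter.1 hp).2.1).1)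
  have g2 : ((range (z + 1)).filter Nat.Prime).filter (fun p => ¬ ¬ p ∣ M) ⊆ M.primeFactors := by
    intro p hp
    rw [Finset.mem_filter, Finset.mem_filter, not_not] at hp
    exact Nat.mem_primeFactors.2 ⟨hp.1.2, hp.2, by omega⟩
  rw [← Finset.prod_sdiff g2]
  refine mul_le_of_le_one_left (Finset.prod_nonneg fun p hp => (f0 p ?_).1) (Finset.prod_le_one (fun p hp => (f0 p ?_).1) fun p hp => (f0 p ?_).2)
  · rw [Finset.mem_filter, Finset.mem_filter] at hp
    exact hp.1.2
  · exact Nat.prime_of_mem_primeFactors (Finset.mem_sdiff.1 hp).1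
  · exact Nat.prime_of_mem_primeFactors (Finset.mem_sdiff.1 hp).1

theorem Pw_ev (Λ A : ℝ) : ∃ x0 : ℝ, 1 ≤ x0 ∧ ∀ x : ℝ, x0 ≤ x → 100 ≤ Real.log x ∧
    2 * ((A + 1) * (2 * Λ) ^ 2 + 1) ≤ Real.log x ∧ 101 ≤ Real.log x ^ 4 ∧ 2 ≤ x ∧ x ^ (97 / 100 : ℝ) + 1 ≤ x ^ (98 / 100 : ℝ) ∧
      2 ≤ x ^ (98 / 100 : ℝ) := by
  have e1 := Real.tendsto_log_atTop.eventually_ge_atTop (max 101 (2 * ((A + 1) * (2 * Λ) ^ 2 + 1)))
  have e2 := (tendsto_rpow_atTop (show (0 : ℝ) < 1 / 100 by norm_num)).eventually_ge_atTop 2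
  have e3 := Filter.eventually_ge_atTop (2 : ℝ)
  obtain ⟨x0, h⟩ := Filter.eventually_atTop.1 (e1.and (e2.and e3))
  refine ⟨max x0 1, le_max_right _ _, fun x hx => ?_⟩
  obtain ⟨a1, a2, a3⟩ := h x ((le_max_left _ _).trans hx)
  have b1 : 101 ≤ Real.log x := (le_max_left _ _).trans a1
  have b2 := (le_max_right _ _).trans a1
  have hx0 : 0 < x := by linarith
  have h1 : Real.log x ≤ Real.log x ^ 4 := le_self_pow₀ (by linarith) (by norm_num)
  have h2 : x ^ (98 / 100 : ℝ) = x ^ (97 / 100 : ℝ) * x ^ (1 / 100 : ℝ) := by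
    rw [← Real.rpow_add hx0]
    norm_num
  have h3 : 1 ≤ x ^ (97 / 100 : ℝ) := Real.one_le_rpow (by linarith) (by norm_num)
  refine ⟨by linarith, b2, by linarith, a3, ?_, ?_⟩
  · rw [h2]
    nlinarith
  · rw [h2]
    nlinarith

open Classical in
/-- **Positive proportion of an arithmetic progression, arbitrary shifts.** -/
theorem pw {Λ r A : ℝ} (hΛ : 1 ≤ Λ) (hr : 0 < r) (hA : 1 ≤ A) : ∃ c : ℝ, 0 < c ∧ ∃ x0 : ℝ, 1 ≤ x0 ∧ ∀ x : ℝ, x0 ≤ x →
    ∀ M Y N : ℕ, 1 ≤ M → Real.log M ≤ Real.log x ^ 3 → x ≤ N → (M : ℝ) * N ≤ x ^ A → (Y : ℝ) ≤ x ^ A →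
    ∀ S : Finset ℕ, (∀ s ∈ S, s < Y) → (S.card : ℝ) ≤ Λ * Real.log x * ((Nat.totient M : ℝ) / (M : ℝ)) →
      c * (N : ℝ) ≤ (((range N).filter (fun u => ∀ s ∈ S, ∃ p : ℕ, p.Prime ∧ (p : ℝ) ≤ x ^ r ∧ p ∣ Y + M * u - s)).card : ℝ) := by
  obtain ⟨c0, hc0, x1, hcore⟩ := corePG hΛ hr (show 1 ≤ A + 1 by linarith)
  obtain ⟨x2, hx21, hev⟩ := Pw_ev Λ A
  obtain ⟨x3, hx3⟩ := Filter.eventually_atTop.1 ((isLittleO_log_rpow_atTop hr).bound (show (0 : ℝ) < 1 by norm_num))
  refine ⟨c0 / 4, by positivity, max x2 (max x1 x3), le_max_of_le_left hx21, ?_⟩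
  intro x hx M Y N hM hMl hN hMN hY S hS hcard
  obtain ⟨v1, v2, v3, v4, v5, v6⟩ := hev x ((le_max_left _ _).trans hx)
  have hx1 : x1 ≤ x := ((le_max_left _ _).trans (le_max_right _ _)).trans hx
  have hx3' := hx3 x (((le_max_right _ _).trans (le_max_right _ _)).trans hx)
  have h1x : 1 ≤ x := by linarith
  have hx0 : 0 < x := by linarith
  have hlr : Real.log x ≤ x ^ r := by
    have := (le_abs_self (Real.log x)).trans hx3'
    rwa [one_mul, Real.norm_eq_abs, abs_of_pos (Real.rpow_pos_of_pos hx0 r)] at this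
  set z0 : ℕ := ⌊Real.log x / 100⌋₊ with hz0
  set P : ℕ := PM M z0 with hPdef
  have hP : 0 < P := PM_pos M z0
  have hPr : (0 : ℝ) < P := by exact_mod_cast hP
  have hMr : (1 : ℝ) ≤ M := by exact_mod_cast hM
  have hPle : (P : ℝ) ≤ x ^ (1 / 50 : ℝ) := by
    refine le_trans ?_ (prim_le h1x)
    exact_mod_cast PM_le M z0
  have hzr : (z0 : ℝ) ≤ x ^ r := by
    refine (Nat.floor_le (by linarith)).trans ?_
    linarith
  set K : ℕ := ⌊Real.log x ^ 4⌋₊ with hK
  have hK100 : 100 ≤ K := by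
    apply Nat.le_floor
    push_cast
    linarith
  have hzK : z0 ≤ K := by
    apply Nat.floor_le_floor
    have : Real.log x ≤ Real.log x ^ 4 := le_self_pow₀ (by linarith) (by norm_num)
    linarith
  set T : ℕ := N / P with hT
  have hTl : (N : ℝ) < P * (T + 1) := by
    have h1 := Nat.lt_mul_div_succ N hP
    have h2 : N < P * (T + 1) := h1
    exact_mod_cast h2
  have hx98 : x ^ (98 / 100 : ℝ) * x ^ (1 / 50 : ℝ) = x := by
    rw [← Real.rpow_add hx0]
    norm_num
  have hT97 : x ^ (98 / 100 : ℝ) ≤ (T : ℝ) + 1 := by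
    have h1 : x ^ (98 / 100 : ℝ) * x ^ (1 / 50 : ℝ) ≤ (T + 1) * x ^ (1 / 50 : ℝ) := by
      rw [hx98]
      have h2 : (P : ℝ) * (T + 1) ≤ x ^ (1 / 50 : ℝ) * (T + 1) := mul_le_mul_of_nonneg_right hPle (by positivity)
      linarith
    exact le_of_mul_le_mul_right h1 (Real.rpow_pos_of_pos hx0 _)
  have hT1 : (1 : ℝ) ≤ T := by linarith
  have hPT : P * T ≤ N := Nat.mul_div_le N P
  have hPTr : (N : ℝ) / 2 ≤ P * T := by
    have : (P : ℝ) * 1 ≤ P * T := mul_le_mul_of_nonneg_left hT1 hPr.le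
    linarith
  set Sb : ℕ → Finset ℕ := fun b => S.filter (fun s => Nat.Coprime (Y + M * b - s) P) with hSb
  set B : Finset ℕ := (range P).filter (fun b =>
      ((S.filter (fun s => Nat.Coprime (Y + M * b - s) P)).card : ℝ) ≤
        2 * (S.card : ℝ) * ((Nat.totient P : ℝ) / (P : ℝ))) with hB
  have hBc : (P : ℝ) / 2 ≤ (B.card : ℝ) := Pw_good P M Y S hP (PM_coprime M z0) hS
  have hBs : B ⊆ range P := Finset.filter_subset _ _
  set G : ℕ → Finset ℕ := fun b => (range T).filter (fun t => ∀ s ∈ Sb b, ∃ p : ℕ, p.Prime ∧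
    (p : ℝ) ≤ x ^ r ∧ p ∣ M * P * t + (Y + M * b - s)) with hG
  have hGc : ∀ b ∈ B, c0 * (T : ℝ) ≤ ((G b).card : ℝ) := by
    intro b hb
    have hbq := Finset.mem_range.1 (hBs hb)
    have hbs := (Finset.mem_filter.1 hb).2
    have hsb : ((Sb b).card : ℝ) ≤ 2 * (Λ * Real.log x) * ((Nat.totient (primorial z0) : ℝ) / (primorial z0 : ℝ)) := by
      refine hbs.trans ?_
      have h1 := PM_tot M z0 hM
      have h2 : (0 : ℝ) ≤ (Nat.totient P : ℝ) / (P : ℝ) := by positivity
      have h3 : 0 ≤ Λ * Real.log x := mul_nonneg (by linarith) (by linarith)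
      calc 2 * (S.card : ℝ) * ((Nat.totient P : ℝ) / (P : ℝ)) ≤
          2 * (Λ * Real.log x * ((Nat.totient M : ℝ) / (M : ℝ))) * ((Nat.totient P : ℝ) / (P : ℝ)) :=
            mul_le_mul_of_nonneg_right (by linarith) h2
        _ = 2 * (Λ * Real.log x) * ((Nat.totient P : ℝ) / (P : ℝ) * ((Nat.totient M : ℝ) / (M : ℝ))) := by ring
        _ ≤ _ := mul_le_mul_of_nonneg_left h1 (by positivity)
    have hφ1 : (Nat.totient (primorial z0) : ℝ) / (primorial z0 : ℝ) ≤ 1 := by
      rw [div_le_one (by exact_mod_cast primorial_pos z0)]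
      exact_mod_cast Nat.totient_le _
    have hinj : Function.Injective (fun s : {s // s ∈ Sb b} => Y + M * b - s.1) := by
      intro i j h
      have h' : Y + M * b - i.1 = Y + M * b - j.1 := h
      have hi := hS i.1 (Finset.mem_filter.1 i.2).1
      have hj := hS j.1 (Finset.mem_filter.1 j.2).1
      exact Subtype.ext (by omega)
    have hcc1 : ∀ s : {s // s ∈ Sb b}, 1 ≤ Y + M * b - s.1 := by
      intro s
      have hi := hS s.1 (Finset.mem_filter.1 s.2).1
      omega
    have hxA : x ^ (A + 1) = x ^ A * x := by rw [Real.rpow_add hx0, Real.rpow_one]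
    have hxA1 : 1 ≤ x ^ A := Real.one_le_rpow h1x (by linarith)
    have hxA2 : x ^ A + x ^ A ≤ x ^ (A + 1) := by
      rw [hxA]
      nlinarith
    have hMb : (M : ℝ) * b ≤ x ^ A := by
      refine le_trans ?_ hMN
      refine mul_le_mul_of_nonneg_left ?_ (by linarith)
      have h1 : b ≤ N := by
        have h2 : P * 1 ≤ P * T := Nat.mul_le_mul_left _ (by exact_mod_cast hT1)
        omega
      exact_mod_cast h1
    have hcc2 : ∀ s : {s // s ∈ Sb b}, ((Y + M * b - s.1 : ℕ) : ℝ) ≤ x ^ (A + 1) := by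
      intro s
      have h1 : ((Y + M * b - s.1 : ℕ) : ℝ) ≤ ((Y + M * b : ℕ) : ℝ) := by
        exact_mod_cast Nat.sub_le _ _
      push_cast at h1
      linarith
    have hFm : Fm (WW (fun s : {s // s ∈ Sb b} => Y + M * b - s.1) * M) K (M * P) (fun s : {s // s ∈ Sb b} => Y + M * b - s.1) := by
      refine Fm_WW (Nat.mul_pos hM hP) hM ?_ hinj hcc1
      intro p hp hd hKp
      rcases hp.dvd_mul.1 hd with h | h
      · exact h
      · have := (PM_dvd hp h).1
        omega
    have h1 := hcore x hx1 {s // s ∈ Sb b} (WW (fun s : {s // s ∈ Sb b} => Y + M * b - s.1) * M) (M * P) T (by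
      rw [Fintype.card_coe]
      exact hsb) (by
      refine WW_cond (E := 2 * Λ) (A := A + 1) hinj (by linarith) h1x v2 hM hMl ?_ hcc2 ?_ (KK_big hK100)
      · exact (Nat.lt_floor_add_one _).le
      · rw [Fintype.card_coe]
        refine hsb.trans ?_
        have h3 : 0 ≤ Λ * Real.log x := mul_nonneg (by linarith) (by linarith)
        have := mul_le_mul_of_nonneg_left hφ1 (show 0 ≤ 2 * (Λ * Real.log x) by linarith)
        linarith) (by linarith) (by
      push_cast
      have h2 : (M : ℝ) * (P * T) ≤ M * N := mul_le_mul_of_nonneg_left (by exact_mod_cast hPT) (by linarith)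
      nlinarith) (fun s => Y + M * b - s.1) hFm hcc2
    refine h1.trans ?_
    norm_cast
    refine Finset.card_le_card ?_
    intro t ht
    rw [Finset.mem_filter] at ht ⊢
    exact ⟨ht.1, fun s hs => ht.2 ⟨s, hs⟩⟩
  have hW := Pw_map P B G (c0 * T) hP hBs hGc
  have hsub : ((B.sigma G).image (fun p => p.1 + P * p.2)) ⊆
      (range N).filter (fun u => ∀ s ∈ S, ∃ p : ℕ, p.Prime ∧ (p : ℝ) ≤ x ^ r ∧ p ∣ Y + M * u - s) := by
    intro n hn
    obtain ⟨⟨b, t⟩, hbt, e⟩ := Finset.mem_image.1 hn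
    have e' : b + P * t = n := e
    rw [Finset.mem_sigma] at hbt
    have hb : b ∈ B := hbt.1
    have ht : t ∈ G b := hbt.2
    have hbq := Finset.mem_range.1 (hBs hb)
    have ht1 := Finset.mem_range.1 (Finset.mem_filter.1 ht).1
    have ht2 := (Finset.mem_filter.1 ht).2
    rw [Finset.mem_filter, Finset.mem_range]
    constructor
    · have h1 : P * (t + 1) ≤ P * T := Nat.mul_le_mul_left _ ht1
      have h2 : P * (t + 1) = P * t + P := by ring
      omega
    · intro s hs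
      have hsY := hS s hs
      have ek : M * P * t + (Y + M * b - s) = Y + M * n - s := by
        rw [← e']
        have : M * (b + P * t) = M * b + M * P * t := by ring
        omega
      by_cases hco : Nat.Coprime (Y + M * b - s) P
      · obtain ⟨p, hp, hpr, hd⟩ := ht2 s (Finset.mem_filter.2 ⟨hs, hco⟩)
        rw [ek] at hd
        exact ⟨p, hp, hpr, hd⟩
      · obtain ⟨p, hp, hd1, hd2⟩ := Nat.Prime.not_coprime_iff_dvd.1 hco
        refine ⟨p, hp, ?_, ?_⟩
        · have h' : (p : ℝ) ≤ z0 := by exact_mod_cast (PM_dvd hp hd2).1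
          exact h'.trans hzr
        · rw [← ek]
          exact dvd_add ((hd2.mul_left M).mul_right t) hd1
  have hcard' : ((((B.sigma G).image (fun p => p.1 + P * p.2))).card : ℝ) ≤
      (((range N).filter (fun u => ∀ s ∈ S, ∃ p : ℕ, p.Prime ∧ (p : ℝ) ≤ x ^ r ∧ p ∣ Y + M * u - s)).card : ℝ) := by
    exact_mod_cast Finset.card_le_card hsub
  refine le_trans ?_ (hW.trans hcard')
  have h2 : (P : ℝ) / 2 * (c0 * T) ≤ (B.card : ℝ) * (c0 * T) := mul_le_mul_of_nonneg_right hBc (by positivity)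
  nlinarith

end H52GS
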