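import Pool.Agent.H52.GS.Df
import Pool.Agent.H69.PG.Qfa

/-!
# QFA: the coefficients of the blocks for the modulus `primorial z * W`

Copies of four lemmas of `Pool/Agent/H69/PG/Qfa.lean` with `primorial z * W` in place of `primorial z` (a number coprime to `primorial z * W` is coprime to `primorial z`).
-/

open Finset EG H69PG

namespace H52GS

theorem lamA_abs {Z : ℕ → ℕ} {W z M a : ℕ} (hz : 1 ≤ z) (hZ : Z a ≤ z ^ M) (hM : 2 * M ≤ z) {Γ : ℝ}
    (h : GG (primorial z * W) (Z a) ≤ Γ) (d : ℕ) : |lamA Z (primorial z * W) a d| ≤ 2 * Γ := by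
  have hG := Qfa_GG_nonneg (primorial z * W) (Z a)
  by_cases hd : d ∈ sq (primorial z * W) (Z a)
  · have hd' := selT_mem.1 hd
    have h1 := Qfa_multiples hd
    have h2 := Qfa_ratio hz hd'.2.1 (Nat.Coprime.coprime_dvd_right (Dvd.intro W rfl) hd'.2.2) (hd'.1.2.trans hZ) hM
    have hphi : (0 : ℝ) < (Nat.totient d : ℝ) := by
      exact_mod_cast Nat.totient_pos.2 hd'.1.1
    unfold lamA lam
    have h3 : |∑ s ∈ (sq (primorial z * W) (Z a)).filter (fun s => d ∣ s),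
        yb Z a s / (Nat.totient s : ℝ)| ≤
        ∑ s ∈ (sq (primorial z * W) (Z a)).filter (fun s => d ∣ s), 1 / (Nat.totient s : ℝ) := by
      refine (abs_sum_le_sum_abs _ _).trans (sum_le_sum fun s _ => ?_)
      rw [abs_of_nonneg (div_nonneg (Qfa_yb_nonneg Z a s) (Nat.cast_nonneg _))]
      exact div_le_div_of_nonneg_right (Qfa_yb_le Z a s) (Nat.cast_nonneg _)
    have h4 : |((ArithmeticFunction.moebius d : ℤ) : ℝ)| ≤ 1 := by
      exact_mod_cast ArithmeticFunction.abs_moebius_le_one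
    rw [abs_mul, abs_mul, Nat.abs_cast]
    have h5 : |((ArithmeticFunction.moebius d : ℤ) : ℝ)| * (d : ℝ) ≤ d := by
      have := mul_le_mul_of_nonneg_right h4 (Nat.cast_nonneg (α := ℝ) d)
      linarith
    calc |((ArithmeticFunction.moebius d : ℤ) : ℝ)| * (d : ℝ) *
          |∑ s ∈ (sq (primorial z * W) (Z a)).filter (fun s => d ∣ s), yb Z a s / (Nat.totient s : ℝ)|
        ≤ (d : ℝ) * (1 / (Nat.totient d : ℝ) * GG (primorial z * W) (Z a)) :=
          mul_le_mul h5 (h3.trans h1) (abs_nonneg _) (Nat.cast_nonneg _)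
      _ = (d : ℝ) / (Nat.totient d : ℝ) * GG (primorial z * W) (Z a) := by ring
      _ ≤ 2 * Γ := by
          refine mul_le_mul ?_ h hG (by norm_num)
          rw [div_le_iff₀ hphi]
          exact h2
  · have h1 : lamA Z (primorial z * W) a d = 0 := by
      unfold lamA lam
      have h2 : (sq (primorial z * W) (Z a)).filter (fun s => d ∣ s) = ∅ := by
        rw [filter_eq_empty_iff]
        intro s hs hds
        exact hd (selT_dvd hs hds)
      rw [h2, sum_empty, mul_zero]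
    rw [h1, abs_zero]
    linarith

theorem fAB_sum {Z : ℕ → ℕ} {W z M a a' : ℕ} (hz : 1 ≤ z) (hZ : Z a ≤ z ^ M) (hZ' : Z a' ≤ z ^ M) (hM : 2 * M ≤ z) {Γ : ℝ}
    (h : GG (primorial z * W) (Z a) ≤ Γ) (h' : GG (primorial z * W) (Z a') ≤ Γ) :
    ∑ B ∈ DAB Z (primorial z * W) a a', |fAB Z (primorial z * W) a a' B| / (B : ℝ) ≤ 4 * Γ ^ 5 := by
  have hΓ : 0 ≤ Γ := (Qfa_GG_nonneg _ _).trans h
  have h1 : ∑ B ∈ DAB Z (primorial z * W) a a', |fAB Z (primorial z * W) a a' B| / (B : ℝ) =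
      ∑ B ∈ DAB Z (primorial z * W) a a',
        |fAB Z (primorial z * W) a a' B| * (fun n : ℕ => 1 / (n : ℝ)) B := by
    refine sum_congr rfl fun B _ => ?_
    change _ = |fAB Z (primorial z * W) a a' B| * (1 / (B : ℝ))
    rw [mul_one_div]
  rw [h1]
  refine (Qfa_lcf_abs _ _ _ _ _ (fun n => by positivity)).trans ?_
  have h2 : ∑ d ∈ sq (primorial z * W) (Z a), ∑ d' ∈ sq (primorial z * W) (Z a'),
      |lamA Z (primorial z * W) a d| * |lamA Z (primorial z * W) a' d'| *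
        (fun n : ℕ => 1 / (n : ℝ)) (Nat.lcm d d') ≤
      ∑ d ∈ sq (primorial z * W) (Z a), ∑ d' ∈ sq (primorial z * W) (Z a'),
        (2 * Γ * (2 * Γ)) * (1 / (Nat.lcm d d' : ℝ)) := by
    refine sum_le_sum fun d _ => sum_le_sum fun d' _ => ?_
    refine mul_le_mul_of_nonneg_right ?_ (by positivity)
    exact mul_le_mul (lamA_abs hz hZ hM h d) (lamA_abs hz hZ' hM h' d') (abs_nonneg _)
      (by positivity)
  refine h2.trans ?_
  have h3 : ∑ d ∈ sq (primorial z * W) (Z a), ∑ d' ∈ sq (primorial z * W) (Z a'),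
        (2 * Γ * (2 * Γ)) * (1 / (Nat.lcm d d' : ℝ)) =
      (2 * Γ * (2 * Γ)) * ∑ d ∈ sq (primorial z * W) (Z a), ∑ d' ∈ sq (primorial z * W) (Z a'),
        1 / (Nat.lcm d d' : ℝ) := by
    rw [mul_sum]
    refine sum_congr rfl fun d _ => ?_
    rw [mul_sum]
  rw [h3]
  have h4 := Qfa_lcm_sum h h'
  have h5 := mul_le_mul_of_nonneg_left h4 (show (0 : ℝ) ≤ 2 * Γ * (2 * Γ) by positivity)
  refine h5.trans (le_of_eq ?_)
  ring

theorem Qfa_lamA_sum {Z : ℕ → ℕ} {W z M a : ℕ} (hz : 1 ≤ z) (hZ : Z a ≤ z ^ M) (hM : 2 * M ≤ z)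
    {Γ : ℝ} (h : GG (primorial z * W) (Z a) ≤ Γ) :
    ∑ d ∈ sq (primorial z * W) (Z a), |lamA Z (primorial z * W) a d| ≤ (Z a : ℝ) * (2 * Γ) := by
  have hΓ : 0 ≤ Γ := (Qfa_GG_nonneg _ _).trans h
  refine (sum_le_sum fun d _ => lamA_abs hz hZ hM h d).trans ?_
  rw [sum_const, nsmul_eq_mul]
  exact mul_le_mul_of_nonneg_right (Qfa_card _ _) (by positivity)

theorem fAB_abs {Z : ℕ → ℕ} {W z M a a' : ℕ} (hz : 1 ≤ z) (hZ : Z a ≤ z ^ M) (hZ' : Z a' ≤ z ^ M) (hM : 2 * M ≤ z) {Γ : ℝ}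
    (h : GG (primorial z * W) (Z a) ≤ Γ) (h' : GG (primorial z * W) (Z a') ≤ Γ) :
    ∑ B ∈ DAB Z (primorial z * W) a a', |fAB Z (primorial z * W) a a' B| ≤ 4 * Γ ^ 2 * ((Z a : ℝ) * Z a') := by
  have hΓ : 0 ≤ Γ := (Qfa_GG_nonneg _ _).trans h
  refine (lcf_abs _ _ _ _).trans ?_
  have h1 := Qfa_lamA_sum hz hZ hM h
  have h2 := Qfa_lamA_sum hz hZ' hM h'
  refine (mul_le_mul h1 h2 (sum_nonneg fun _ _ => abs_nonneg _) (by positivity)).trans
    (le_of_eq ?_)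
  ring

end H52GS
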