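import Pool.Agent.H52.GS.Elu
import Pool.Agent.H52.GS.VVf
import Pool.Agent.H52.GS.Ggb
import Pool.Agent.H52.GS.Qfa
import Pool.Agent.H69.PG.Qfb

/-!
# The assumptions on the parameters
-/

open Finset EG H69PG

namespace H52GS

/-- the parameters and their relations -/
structure Sys {ι : Type} [Fintype ι] [DecidableEq ι] (C N m M W K z Q0 T R b0 : ℕ) (Z : ℕ → ℕ) (v f0 : ℕ → ℝ) (l Γ Pl η : ℝ)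
    (c : ι → ℕ) : Prop where
  fm : Fm W K Q0 c
  N_pos : 1 ≤ N
  hK : 8 * N + 8 ≤ K
  hKz : K ≤ z
  hCz : C ≤ z
  hCb : C ≤ b0
  Z0 : Z 0 = 1
  Zm : Monotone Z
  ZM : ∀ a ≤ m, Z a ≤ z ^ M
  RM : R ≤ z ^ M
  R_pos : 1 ≤ R
  hM : 2 * M ≤ z
  T_pos : 1 ≤ T
  Γ_one : 1 ≤ Γ
  ΓZ : ∀ a ≤ m, GG (primorial z * W) (Z a) ≤ Γ
  ΓR : GG (primorial z * W) R ≤ Γ
  f0_le : ∀ a, |f0 a| ≤ 1
  Pl_one : 1 ≤ Pl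
  hPl : ∀ n ∈ Cf ι m N v l, ∏ i, (Z (n i) : ℝ) ≤ Pl
  hη : Real.exp (-(b0 : ℝ)) * (4 * Γ ^ 5) ^ (2 * N + 1) + C / Real.sqrt z * (10 * Γ) ^ (2 * N + 1) +
    (z : ℝ) ^ (3 * (4 * b0 + 10)) * (4 * Γ ^ 2) ^ (2 * N + 1) * (Pl ^ 2 * (R : ℝ) ^ 2) / (T * VV W K z (2 * N + 1)) ≤ η
  hη4 : Real.exp (-(b0 : ℝ)) + C / Real.sqrt z + (z : ℝ) ^ (3 * (4 * b0 + 10)) / (T * VV W K z (4 * N)) ≤ 1

end H52GS
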