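import Pool.Agent.H52.GS.Pa

/-!
# WIN: from short windows to `n ≤ N`

Windows `[Y_j, Y_j + M N')`, `Y_j = a + M (1 + N' j)`, `j < J`; those which contain an element of `S` are at most `|S|`.
-/

open Finset EG H69PG

namespace H52GS

open Classical in
theorem win_count (M a N' J z : ℕ) (S : Finset ℕ) (κ : ℝ) (hM : 1 ≤ M) (hN' : 1 ≤ N') (hκ : 0 ≤ κ)
    (h : ∀ j < J, κ * (N' : ℝ) ≤ (((range N').filter (fun u => ∀ s ∈ S.filter (fun s => s < a + M * (1 + N' * j)),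
      ∃ p : ℕ, p.Prime ∧ p ≤ z ∧ p ∣ (a + M * (1 + N' * j)) + M * u - s)).card : ℝ)) :
    κ * N' * ((J : ℝ) - S.card) ≤ (((range (N' * J)).filter (fun v => ∀ s ∈ S, s < a + M * (1 + v) →
      ∃ p : ℕ, p.Prime ∧ p ≤ z ∧ p ∣ a + M * (1 + v) - s)).card : ℝ) := by
  set B : Finset ℕ := (range J).filter (fun j => ∀ s ∈ S, ¬ (a + M * (1 + N' * j) ≤ s ∧ s < a + M * (1 + N' * (j + 1)))) with hB
  have hMN : 0 < M * N' := Nat.mul_pos hM hN'
  have hBc : J ≤ B.card + S.card := by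
    have h1 : (range J).filter (fun j => ¬ ∀ s ∈ S, ¬ (a + M * (1 + N' * j) ≤ s ∧ s < a + M * (1 + N' * (j + 1)))) ⊆
        S.image (fun s => (s - (a + M)) / (M * N')) := by
      intro j hj
      rw [Finset.mem_filter] at hj
      obtain ⟨_, hj2⟩ := hj
      push Not at hj2
      obtain ⟨s, hs, h2, h3⟩ := hj2
      rw [Finset.mem_image]
      refine ⟨s, hs, ?_⟩
      have e1 : a + M * (1 + N' * j) = a + M + M * N' * j := by ring
      have e2 : a + M * (1 + N' * (j + 1)) = a + M + M * N' * j + M * N' := by ring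
      rw [e1] at h2
      rw [e2] at h3
      rw [Nat.div_eq_iff hMN]
      have e3 : j * (M * N') = M * N' * j := by ring
      rw [e3]
      omega
    have h2 := Finset.card_le_card h1
    have h3 : B.card + ((range J).filter (fun j => ¬ ∀ s ∈ S, ¬ (a + M * (1 + N' * j) ≤ s ∧ s < a + M * (1 + N' * (j + 1))))).card = J := by
      rw [hB, Finset.card_filter_add_card_filter_not, Finset.card_range]
    have h4 : (S.image (fun s => (s - (a + M)) / (M * N'))).card ≤ S.card := Finset.card_image_le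
    omega
  set G : ℕ → Finset ℕ := fun j => (range N').filter (fun u => ∀ s ∈ S.filter (fun s => s < a + M * (1 + N' * j)),
      ∃ p : ℕ, p.Prime ∧ p ≤ z ∧ p ∣ (a + M * (1 + N' * j)) + M * u - s) with hG
  have hinj : Set.InjOn (fun p : (_ : ℕ) × ℕ => N' * p.1 + p.2) ((B.sigma G : Finset ((_ : ℕ) × ℕ)) : Set ((_ : ℕ) × ℕ)) := by
    rintro ⟨j, u⟩ h1 ⟨j', u'⟩ h1' e
    simp only [Finset.coe_sigma, Set.mem_sigma_iff, Finset.mem_coe] at h1 h1'
    have hu := Finset.mem_range.1 (Finset.mem_filter.1 h1.2).1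
    have hu' := Finset.mem_range.1 (Finset.mem_filter.1 h1'.2).1
    have e2 : N' * j + u = N' * j' + u' := e
    have e3 : u = u' := by
      have := congrArg (fun n => n % N') e2
      simpa [Nat.mul_add_mod, Nat.mod_eq_of_lt hu, Nat.mod_eq_of_lt hu'] using this
    have e4 : j = j' := by
      rw [e3] at e2
      exact Nat.eq_of_mul_eq_mul_left hN' (Nat.add_right_cancel e2)
    rw [e3, e4]
  have hc : (B.card : ℝ) * (κ * N') ≤ (((B.sigma G).image (fun p => N' * p.1 + p.2)).card : ℝ) := by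
    rw [Finset.card_image_of_injOn hinj, Finset.card_sigma, Nat.cast_sum, ← nsmul_eq_mul]
    refine Finset.card_nsmul_le_sum _ _ _ fun j hj => ?_
    exact h j (Finset.mem_range.1 (Finset.mem_filter.1 hj).1)
  have hsub : ((B.sigma G).image (fun p => N' * p.1 + p.2)) ⊆ (range (N' * J)).filter (fun v => ∀ s ∈ S, s < a + M * (1 + v) →
      ∃ p : ℕ, p.Prime ∧ p ≤ z ∧ p ∣ a + M * (1 + v) - s) := by
    intro v hv
    obtain ⟨⟨j, u⟩, hju, e⟩ := Finset.mem_image.1 hv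
    have e' : N' * j + u = v := e
    rw [Finset.mem_sigma] at hju
    have hj : j ∈ B := hju.1
    have hu : u ∈ G j := hju.2
    have hj1 := Finset.mem_range.1 (Finset.mem_filter.1 hj).1
    have hj2 := (Finset.mem_filter.1 hj).2
    have hu1 := Finset.mem_range.1 (Finset.mem_filter.1 hu).1
    have hu2 := (Finset.mem_filter.1 hu).2
    rw [Finset.mem_filter, Finset.mem_range]
    constructor
    · have h1 : N' * (j + 1) ≤ N' * J := Nat.mul_le_mul_left _ hj1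
      have h2 : N' * (j + 1) = N' * j + N' := by ring
      omega
    · intro s hs hsn
      have e1 : a + M * (1 + v) = a + M * (1 + N' * j) + M * u := by rw [← e']; ring
      have e2 : a + M * (1 + N' * (j + 1)) = a + M * (1 + N' * j) + M * N' := by ring
      have h1 : M * u < M * N' := Nat.mul_lt_mul_of_pos_left hu1 hM
      have h2 := hj2 s hs
      have h3 : s < a + M * (1 + N' * j) := by
        by_contra hcon
        apply h2
        constructor <;> omega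
      obtain ⟨p, hp, hpz, hpd⟩ := hu2 s (Finset.mem_filter.2 ⟨hs, h3⟩)
      refine ⟨p, hp, hpz, ?_⟩
      rw [e1]
      exact hpd
  have h5 : (((B.sigma G).image (fun p => N' * p.1 + p.2)).card : ℝ) ≤ (((range (N' * J)).filter (fun v => ∀ s ∈ S, s < a + M * (1 + v) →
      ∃ p : ℕ, p.Prime ∧ p ≤ z ∧ p ∣ a + M * (1 + v) - s)).card : ℝ) := by
    exact_mod_cast Finset.card_le_card hsub
  have h6 : (J : ℝ) - S.card ≤ B.card := by
    have : (J : ℝ) ≤ B.card + S.card := by exact_mod_cast hBc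
    linarith
  have h7 : 0 ≤ κ * N' := mul_nonneg hκ (Nat.cast_nonneg _)
  calc κ * N' * ((J : ℝ) - S.card) ≤ κ * N' * B.card := mul_le_mul_of_nonneg_left h6 h7
    _ = (B.card : ℝ) * (κ * N') := by ring
    _ ≤ _ := hc.trans h5

open Classical in
/-- the exceptions: prime powers with a small prime factor -/
theorem win_exc (M a V z N : ℕ) (S : Finset ℕ) (hM : 1 ≤ M) (hV : ∀ v < V, a + M * (1 + v) ≤ N) :
    ((range V).filter (fun v => ∃ s ∈ S, s < a + M * (1 + v) ∧ IsPrimePow (a + M * (1 + v) - s) ∧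
      ∃ p : ℕ, p.Prime ∧ p ≤ z ∧ p ∣ a + M * (1 + v) - s)).card ≤ S.card * ((z + 1) * (Nat.log 2 N + 1)) := by
  have h1 : ((range V).filter (fun v => ∃ s ∈ S, s < a + M * (1 + v) ∧ IsPrimePow (a + M * (1 + v) - s) ∧
      ∃ p : ℕ, p.Prime ∧ p ≤ z ∧ p ∣ a + M * (1 + v) - s)).image (fun v => a + M * (1 + v)) ⊆
      (S ×ˢ ((range (z + 1)) ×ˢ (range (Nat.log 2 N + 1)))).image (fun q => q.1 + q.2.1 ^ q.2.2) := by
    intro n hn
    obtain ⟨v, hv, rfl⟩ := Finset.mem_image.1 hn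
    obtain ⟨hvV, s, hs, hsn, hpp, p, hp, hpz, hpd⟩ := Finset.mem_filter.1 hv
    have hvV' := hV v (Finset.mem_range.1 hvV)
    obtain ⟨q, k, hq, hk, hqk⟩ := (isPrimePow_nat_iff _).1 hpp
    have hpq : p = q := by
      rw [← hqk] at hpd
      exact (Nat.prime_dvd_prime_iff_eq hp hq).1 (hp.dvd_of_dvd_pow hpd)
    subst hpq
    rw [Finset.mem_image]
    refine ⟨(s, (p, k)), ?_, ?_⟩
    · rw [Finset.mem_product, Finset.mem_product]
      refine ⟨hs, Finset.mem_range.2 (Nat.lt_succ_of_le hpz), Finset.mem_range.2 ?_⟩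
      have h2 : 2 ^ k ≤ N := by
        calc 2 ^ k ≤ p ^ k := Nat.pow_le_pow_left hp.two_le k
          _ = a + M * (1 + v) - s := hqk
          _ ≤ N := by omega
      have h3 : N ≠ 0 := by
        have : 0 < 2 ^ k := by positivity
        omega
      exact Nat.lt_succ_of_le (Nat.le_log_of_pow_le (by norm_num) h2)
    · show s + p ^ k = a + M * (1 + v)
      omega
  have h2 := Finset.card_le_card h1
  rw [Finset.card_image_of_injective] at h2
  · refine h2.trans (Finset.card_image_le.trans ?_)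
    rw [Finset.card_product, Finset.card_product, Finset.card_range, Finset.card_range]
  · intro v v' e
    have e' : a + M * (1 + v) = a + M * (1 + v') := e
    have e2 : M * (1 + v) = M * (1 + v') := Nat.add_left_cancel e'
    have := Nat.eq_of_mul_eq_mul_left hM e2
    omega

/-- the size conditions -/
theorem win_ev : ∃ N0 : ℕ, ∀ N : ℕ, N0 ≤ N →
    16 ≤ (N : ℝ) ∧ 2 ≤ (N : ℝ) ^ (1 / 4 : ℝ) ∧
    (2 + ((N : ℝ) ^ (1 / 2 : ℝ) + 1) * (1 + Real.log N ^ 2)) * 4 ≤ (N : ℝ) ^ (3 / 4 : ℝ) ∧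
    Real.log N ^ 2 * (((N : ℝ) ^ (1 / 4 : ℝ) + 1) * (2 * Real.log N + 1)) * 4 ≤ (N : ℝ) ^ (3 / 4 - 1 / 8 : ℝ) ∧ 1 ≤ Real.log N := by
  have e1 := (isLittleO_log_rpow_rpow_atTop (3 : ℝ) (show (0 : ℝ) < 1 / 8 by norm_num)).bound (show (0 : ℝ) < 1 / 1000 by norm_num)
  have e2 := (tendsto_rpow_atTop (show (0 : ℝ) < 1 / 4 by norm_num)).eventually_ge_atTop 2
  have e3 := Real.tendsto_log_atTop.eventually_ge_atTop 1
  have e4 := Filter.eventually_ge_atTop (16 : ℝ)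
  have e5 : ∀ᶠ x : ℝ in Filter.atTop, 16 ≤ x ∧ 2 ≤ x ^ (1 / 4 : ℝ) ∧
      (2 + (x ^ (1 / 2 : ℝ) + 1) * (1 + Real.log x ^ 2)) * 4 ≤ x ^ (3 / 4 : ℝ) ∧
      Real.log x ^ 2 * ((x ^ (1 / 4 : ℝ) + 1) * (2 * Real.log x + 1)) * 4 ≤ x ^ (3 / 4 - 1 / 8 : ℝ) ∧ 1 ≤ Real.log x := by
    filter_upwards [e1, e2, e3, e4] with x a1 a2 a3 a4
    have hx0 : 0 < x := by linarith
    have hx1 : 1 ≤ x := by linarith
    obtain ⟨L, hL⟩ : ∃ L : ℝ, L = Real.log x := ⟨_, rfl⟩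
    rw [← hL] at a3 ⊢
    have h1 : L ^ 3 ≤ 1 / 1000 * x ^ (1 / 8 : ℝ) := by
      have h2 : Real.log x ^ (3 : ℝ) = L ^ 3 := by
        rw [← hL]
        exact_mod_cast Real.rpow_natCast L 3
      have h3 := (le_abs_self _).trans a1
      rw [h2, Real.norm_eq_abs, abs_of_pos (Real.rpow_pos_of_pos hx0 _)] at h3
      exact h3
    obtain ⟨w, hw⟩ : ∃ w : ℝ, w = x ^ (1 / 8 : ℝ) := ⟨_, rfl⟩
    rw [← hw] at h1
    have hw0 : 0 < w := by rw [hw]; exact Real.rpow_pos_of_pos hx0 _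
    have hw1 : 1 ≤ w := by rw [hw]; exact Real.one_le_rpow hx1 (by norm_num)
    have hpow : ∀ k : ℕ, x ^ ((k : ℝ) / 8) = w ^ k := by
      intro k
      rw [hw, ← Real.rpow_natCast, ← Real.rpow_mul hx0.le]
      congr 1
      ring
    have p2 : x ^ (1 / 4 : ℝ) = w ^ 2 := by
      rw [← hpow 2]; norm_num
    have p4 : x ^ (1 / 2 : ℝ) = w ^ 4 := by
      rw [← hpow 4]; norm_num
    have p6 : x ^ (3 / 4 : ℝ) = w ^ 6 := by
      rw [← hpow 6]; norm_num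
    have p5 : x ^ (3 / 4 - 1 / 8 : ℝ) = w ^ 5 := by
      rw [← hpow 5]; norm_num
    rw [p2, p4, p6, p5]
    rw [p2] at a2
    have hL0 : 0 ≤ L := by linarith
    have hL23 : L ^ 2 ≤ L ^ 3 := pow_le_pow_right₀ a3 (by norm_num)
    have hL13 : L ≤ L ^ 3 := le_self_pow₀ a3 (by norm_num)
    have hw1000 : 1000 ≤ w := by linarith
    have w4 : 1 ≤ w ^ 4 := one_le_pow₀ hw1
    have w2 : 1 ≤ w ^ 2 := one_le_pow₀ hw1
    refine ⟨a4, a2, ?_, ?_, a3⟩
    · have b1 : 1 + L ^ 2 ≤ w := by linarith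
      have b2 : (w ^ 4 + 1) * (1 + L ^ 2) ≤ (2 * w ^ 4) * w := by
        refine mul_le_mul (by linarith) b1 (by positivity) (by positivity)
      have b3 : w ^ 6 = w * w ^ 5 := by ring
      have b4 : (1000 : ℝ) * w ^ 5 ≤ w * w ^ 5 := mul_le_mul_of_nonneg_right hw1000 (by positivity)
      have b5 : 1 ≤ w ^ 5 := one_le_pow₀ hw1
      have b6 : (2 * w ^ 4) * w = 2 * w ^ 5 := by ring
      linarith
    · have b1 : (w ^ 2 + 1) * (2 * L + 1) ≤ (2 * w ^ 2) * (3 * L) := by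
        refine mul_le_mul (by linarith) (by linarith) (by positivity) (by positivity)
      have b2 : L ^ 2 * ((w ^ 2 + 1) * (2 * L + 1)) ≤ L ^ 2 * ((2 * w ^ 2) * (3 * L)) := mul_le_mul_of_nonneg_left b1 (by positivity)
      have b3 : L ^ 2 * ((2 * w ^ 2) * (3 * L)) = 6 * L ^ 3 * w ^ 2 := by ring
      have b4 : 6 * L ^ 3 * w ^ 2 ≤ 6 * (1 / 1000 * w) * w ^ 2 := mul_le_mul_of_nonneg_right (by linarith) (by positivity)
      have b5 : 6 * (1 / 1000 * w) * w ^ 2 = 6 / 1000 * w ^ 3 := by ring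
      have b6 : w ^ 3 ≤ w ^ 5 := pow_le_pow_right₀ hw1 (by norm_num)
      have b7 : 0 ≤ w ^ 3 := by positivity
      linarith
  exact Filter.eventually_atTop.1 (tendsto_natCast_atTop_atTop.eventually e5)

open Classical in
/-- from windows to `n ≤ N` -/
theorem win : ∃ N0 : ℕ, ∀ N : ℕ, N0 ≤ N → ∀ (M a : ℕ) (S : Finset ℕ) (κ : ℝ), 1 ≤ M → a < M → (M : ℝ) ≤ (N : ℝ) ^ (1 / 4 : ℝ) →
    (S.card : ℝ) ≤ Real.log N ^ 2 → (N : ℝ) ^ (-(1 / 8) : ℝ) ≤ κ → κ ≤ 1 →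
    (∀ Y : ℕ, Y ≤ N → ∀ S' ⊆ S, (∀ s ∈ S', s < Y) →
      κ * (⌈(N : ℝ) ^ (1 / 2 : ℝ)⌉₊ : ℝ) ≤ (((range ⌈(N : ℝ) ^ (1 / 2 : ℝ)⌉₊).filter (fun u => ∀ s ∈ S',
        ∃ p : ℕ, p.Prime ∧ p ≤ ⌊(N : ℝ) ^ (1 / 4 : ℝ)⌋₊ ∧ p ∣ Y + M * u - s)).card : ℝ)) →
    κ / 4 * ((N : ℝ) / M) ≤ (((Icc 1 N).filter (fun n => n % M = a ∧ ∀ s ∈ S, s < n → ¬ IsPrimePow (n - s))).card : ℝ) := by
  obtain ⟨N0, hN0⟩ := win_ev
  refine ⟨N0, fun N hN M a S κ hM ha hMN hS hκ hκ1 h => ?_⟩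
  obtain ⟨v1, v2, v3, v4, v5⟩ := hN0 N hN
  have hNr : (0 : ℝ) < N := by linarith
  have hN1 : (1 : ℝ) ≤ N := by linarith
  have hMr : (1 : ℝ) ≤ M := by exact_mod_cast hM
  have hM0 : (0 : ℝ) < M := by linarith
  set N' : ℕ := ⌈(N : ℝ) ^ (1 / 2 : ℝ)⌉₊ with hN'
  set z : ℕ := ⌊(N : ℝ) ^ (1 / 4 : ℝ)⌋₊ with hz
  have hκ0 : 0 < κ := (Real.rpow_pos_of_pos hNr _).trans_le hκ
  have hx1 : 1 ≤ (N : ℝ) ^ (1 / 2 : ℝ) := Real.one_le_rpow hN1 (by norm_num)
  have hN'1 : 1 ≤ N' := by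
    rw [hN', Nat.one_le_ceil_iff]
    linarith
  have hN'le : (N' : ℝ) ≤ (N : ℝ) ^ (1 / 2 : ℝ) + 1 := (Nat.ceil_lt_add_one (by linarith)).le
  have hN'0 : (0 : ℝ) < N' := by exact_mod_cast hN'1
  -- N / M ≥ N^(3/4)
  have hNM : (N : ℝ) ^ (3 / 4 : ℝ) ≤ (N : ℝ) / M := by
    rw [le_div_iff₀ hM0]
    calc (N : ℝ) ^ (3 / 4 : ℝ) * M ≤ (N : ℝ) ^ (3 / 4 : ℝ) * (N : ℝ) ^ (1 / 4 : ℝ) :=
          mul_le_mul_of_nonneg_left hMN (Real.rpow_nonneg hNr.le _)
      _ = (N : ℝ) := by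
          rw [← Real.rpow_add hNr]
          norm_num
  set J : ℕ := (N / M - 1) / N' with hJ
  have hNMnat : 1 ≤ N / M := by
    rw [Nat.one_le_div_iff hM]
    have : (M : ℝ) ≤ N := by
      refine hMN.trans ?_
      calc (N : ℝ) ^ (1 / 4 : ℝ) ≤ (N : ℝ) ^ (1 : ℝ) := Real.rpow_le_rpow_of_exponent_le hN1 (by norm_num)
        _ = N := Real.rpow_one _
    exact_mod_cast this
  have hJle : N' * J ≤ N / M - 1 := Nat.mul_div_le _ _
  have hV : ∀ v < N' * J, a + M * (1 + v) ≤ N := by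
    intro v hv
    have h1 : 1 + v + 1 ≤ N / M := by omega
    have h2 : M * (1 + v + 1) ≤ M * (N / M) := Nat.mul_le_mul_left _ h1
    have h3 : M * (N / M) ≤ N := Nat.mul_div_le _ _
    have h4 : M * (1 + v + 1) = M * (1 + v) + M := by ring
    omega
  have hJge : (N : ℝ) / M - 2 - N' ≤ N' * J := by
    have h1 : N / M - 1 < N' * (J + 1) := Nat.lt_mul_div_succ _ hN'1
    have h2 : (N : ℝ) / M < (N / M : ℕ) + 1 := by
      rw [div_lt_iff₀ hM0]
      have h3 : N < M * (N / M + 1) := Nat.lt_mul_div_succ N hM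
      have h4 : (N : ℝ) < M * ((N / M : ℕ) + 1) := by exact_mod_cast h3
      linarith
    have h5 : N / M ≤ N' * (J + 1) := by omega
    have h6 : ((N / M : ℕ) : ℝ) ≤ N' * (J + 1) := by exact_mod_cast h5
    have h7 : (N' : ℝ) * (J + 1) = N' * J + N' := by ring
    linarith
  have hwin := win_count M a N' J z S κ hM hN'1 hκ0.le (by
    intro j hj
    refine h _ ?_ _ (Finset.filter_subset _ _) (fun s hs => (Finset.mem_filter.1 hs).2)
    have hpos : 0 < N' * J := Nat.mul_pos hN'1 (by omega)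
    have h1 : N' * j < N' * J := Nat.mul_lt_mul_of_pos_left hj hN'1
    exact hV (N' * j) h1)
  have hexc := win_exc M a (N' * J) z N S hM hV
  have hlog2 : ((Nat.log 2 N : ℕ) : ℝ) ≤ 2 * Real.log N := by
    have h1 : (2 : ℝ) ^ (Nat.log 2 N) ≤ N := by
      have : N ≠ 0 := by
        intro h0
        rw [h0] at hNr
        simp at hNr
      exact_mod_cast Nat.pow_log_le_self 2 this
    have h2 := Real.log_le_log (by positivity) h1
    rw [Real.log_pow] at h2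
    have h3 := Real.log_two_gt_d9
    have h4 : (0 : ℝ) ≤ (Nat.log 2 N : ℝ) := Nat.cast_nonneg _
    nlinarith
  have hzr : (z : ℝ) ≤ (N : ℝ) ^ (1 / 4 : ℝ) := Nat.floor_le (Real.rpow_nonneg hNr.le _)
  have hL0 : 0 ≤ Real.log N := by linarith
  have hexc' : (((range (N' * J)).filter (fun v => ∃ s ∈ S, s < a + M * (1 + v) ∧ IsPrimePow (a + M * (1 + v) - s) ∧
      ∃ p : ℕ, p.Prime ∧ p ≤ z ∧ p ∣ a + M * (1 + v) - s)).card : ℝ) ≤
      Real.log N ^ 2 * (((N : ℝ) ^ (1 / 4 : ℝ) + 1) * (2 * Real.log N + 1)) := by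
    have h1 : (((range (N' * J)).filter (fun v => ∃ s ∈ S, s < a + M * (1 + v) ∧ IsPrimePow (a + M * (1 + v) - s) ∧
      ∃ p : ℕ, p.Prime ∧ p ≤ z ∧ p ∣ a + M * (1 + v) - s)).card : ℝ) ≤ S.card * (((z : ℝ) + 1) * ((Nat.log 2 N : ℕ) + 1)) := by
      exact_mod_cast hexc
    refine h1.trans ?_
    refine mul_le_mul hS ?_ (by positivity) (by positivity)
    exact mul_le_mul (by linarith) (by linarith) (by positivity) (by positivity)
  -- lower bound
  have hlow : κ / 2 * ((N : ℝ) / M) ≤ κ * N' * ((J : ℝ) - S.card) := by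
    have h1 : (N' : ℝ) * S.card ≤ ((N : ℝ) ^ (1 / 2 : ℝ) + 1) * Real.log N ^ 2 :=
      mul_le_mul hN'le hS (Nat.cast_nonneg _) (by linarith)
    have h2 : (N : ℝ) / M / 2 ≤ N' * J - N' * S.card := by
      have h3 : (2 + ((N : ℝ) ^ (1 / 2 : ℝ) + 1) * (1 + Real.log N ^ 2)) * 4 ≤ (N : ℝ) / M := v3.trans hNM
      have h4 : ((N : ℝ) ^ (1 / 2 : ℝ) + 1) * (1 + Real.log N ^ 2) = ((N : ℝ) ^ (1 / 2 : ℝ) + 1) + ((N : ℝ) ^ (1 / 2 : ℝ) + 1) * Real.log N ^ 2 := by ring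
      rw [h4] at h3
      have h5 : 0 ≤ ((N : ℝ) ^ (1 / 2 : ℝ) + 1) * Real.log N ^ 2 := by positivity
      linarith
    calc κ / 2 * ((N : ℝ) / M) = κ * ((N : ℝ) / M / 2) := by ring
      _ ≤ κ * (N' * J - N' * S.card) := mul_le_mul_of_nonneg_left h2 hκ0.le
      _ = _ := by ring
  have hexc2 : Real.log N ^ 2 * (((N : ℝ) ^ (1 / 4 : ℝ) + 1) * (2 * Real.log N + 1)) ≤ κ / 4 * ((N : ℝ) / M) := by
    have h1 : (N : ℝ) ^ (3 / 4 - 1 / 8 : ℝ) ≤ κ * ((N : ℝ) / M) := by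
      have h2 : (N : ℝ) ^ (3 / 4 - 1 / 8 : ℝ) = (N : ℝ) ^ (-(1 / 8) : ℝ) * (N : ℝ) ^ (3 / 4 : ℝ) := by
        rw [← Real.rpow_add hNr]
        congr 1
        norm_num
      rw [h2]
      exact mul_le_mul hκ hNM (Real.rpow_nonneg hNr.le _) hκ0.le
    linarith
  -- the map v ↦ a + M (1 + v)
  set F1 := (range (N' * J)).filter (fun v => ∀ s ∈ S, s < a + M * (1 + v) →
      ∃ p : ℕ, p.Prime ∧ p ≤ z ∧ p ∣ a + M * (1 + v) - s) with hF1
  set F2 := (range (N' * J)).filter (fun v => ∃ s ∈ S, s < a + M * (1 + v) ∧ IsPrimePow (a + M * (1 + v) - s) ∧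
      ∃ p : ℕ, p.Prime ∧ p ≤ z ∧ p ∣ a + M * (1 + v) - s) with hF2
  have hsub : (F1 \ F2).image (fun v => a + M * (1 + v)) ⊆
      (Icc 1 N).filter (fun n => n % M = a ∧ ∀ s ∈ S, s < n → ¬ IsPrimePow (n - s)) := by
    intro n hn
    obtain ⟨v, hv, rfl⟩ := Finset.mem_image.1 hn
    rw [Finset.mem_sdiff] at hv
    obtain ⟨hv1, hv2⟩ := hv
    obtain ⟨hvr, hv3⟩ := Finset.mem_filter.1 hv1
    rw [Finset.mem_filter, Finset.mem_Icc]
    refine ⟨⟨?_, hV v (Finset.mem_range.1 hvr)⟩, ?_, ?_⟩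
    · have : 1 ≤ M * (1 + v) := Nat.mul_pos hM (by omega)
      omega
    · rw [Nat.add_mul_mod_self_left, Nat.mod_eq_of_lt ha]
    · intro s hs hsn hpp
      exact hv2 (Finset.mem_filter.2 ⟨hvr, s, hs, hsn, hpp, hv3 s hs hsn⟩)
  have hcard : (F1 \ F2).card ≤ ((Icc 1 N).filter (fun n => n % M = a ∧ ∀ s ∈ S, s < n → ¬ IsPrimePow (n - s))).card := by
    refine le_trans (le_of_eq ?_) (Finset.card_le_card hsub)
    rw [Finset.card_image_of_injective]
    intro v v' e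
    have e' : a + M * (1 + v) = a + M * (1 + v') := e
    have e2 : M * (1 + v) = M * (1 + v') := Nat.add_left_cancel e'
    have := Nat.eq_of_mul_eq_mul_left hM e2
    omega
  have hcard2 : F1.card ≤ (F1 \ F2).card + F2.card := by
    have := Finset.le_card_sdiff F2 F1
    omega
  have hcard3 : (F1.card : ℝ) ≤ (((Icc 1 N).filter (fun n => n % M = a ∧ ∀ s ∈ S, s < n → ¬ IsPrimePow (n - s))).card : ℝ) + F2.card := by
    exact_mod_cast hcard2.trans (Nat.add_le_add_right hcard _)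
  linarith

end H52GS
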