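import Pool.Agent.H82.LX.Zfu
import Pool.Agent.H52.GS.VVf

/-!
# ZFU: upper bound for `VV W K z 1`
-/

open Finset EG H69PG H82LX

namespace H52GS

theorem vv1 : ∃ C : ℝ, 1 ≤ C ∧ ∀ W K z : ℕ, 2 ≤ K → K ≤ z → 1 ≤ W → Real.log W ≤ 1 / 2 * (K * Real.log K) →
    VV W K z 1 ≤ C * Real.log K / Real.log z := by
  obtain ⟨C, hC, h⟩ := H82LX.vv1
  refine ⟨2 * C, by linarith, fun W K z h1 h2 h3 h4 => ?_⟩
  have h5 := h K z h1 h2
  have h6 := vv_one_le (z := z) h3 h1 h4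
  calc VV W K z 1 ≤ 2 * H69PG.VV K z 1 := h6
    _ ≤ 2 * (C * Real.log K / Real.log z) := by linarith
    _ = _ := by ring

/-- the condition on `W` for a larger number -/
theorem cond_mono {W K z : ℕ} (hK : 1 ≤ K) (hz : K ≤ z) (h : Real.log W ≤ 1 / 2 * (K * Real.log K)) :
    Real.log W ≤ 1 / 2 * (z * Real.log z) := by
  refine h.trans ?_
  have hK1 : (1 : ℝ) ≤ K := by exact_mod_cast hK
  have hKz : (K : ℝ) ≤ z := by exact_mod_cast hz
  have h1 : 0 ≤ Real.log K := Real.log_nonneg hK1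
  have h2 : Real.log K ≤ Real.log z := Real.log_le_log (by linarith) hKz
  have : (K : ℝ) * Real.log K ≤ z * Real.log z := mul_le_mul hKz h2 h1 (by linarith)
  linarith

end H52GS
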